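import Pool.Agent.X333.DN.Abu
import Pool.Agent.X333.SL.Comp
import Pool.Agent.TH466.QG.Lang

/-!
Openness, and Lang's conjecture for the varieties dominated by a component of a variety given by
nested sums of high powers.
-/

set_option autoImplicit false
set_option linter.unusedSectionVars false
set_option linter.overlappingInstances false

open FF IntermediateField Pool.Agent.W603.LV Pool.Agent.TH466.QG Pool.Agent.TH710.ND
  Pool.Agent.W603.PV Pool.Agent.W603.GW Pool.Agent.W603.GX Pool.Agent.W603.GY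
  Pool.Agent.TH710.NU Pool.Agent.X333.SV

namespace Pool.Agent.X333.DN

open Pool.Agent.W602.GT (GeneralType LogGeneralType Psef KodGe Ruled SubVar IsComponent coords val
  IsForm wc SubVarU IsComponentU VarPts specialise
  kod_of_general psef_of_kodGe not_psef_of essFinite dim_le mem_cone_empty exists_delta ideal_hom
  consts der_eq_zero)
open Pool.Agent.W619.PQ (IsUniruled)
open Pool.Agent.X333.SL (sub_q comp_q sub_u comp_u)
open Pool.Agent.X333.MC (good_form)

variable {k : Type} [Field k] [CharZero k] [IsAlgClosed k] {n : ℕ} {ι : Type}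
  {F : ι → MvPolynomial (Fin (n + 1)) k} {s N h w r : ℕ}
  {K : Type} [Field K] [Algebra k K] {y : Fin (n + 1) → K}

theorem ruled_of_wc (hy : SubVar F K w y) (hcomp : IsComponent F y)
    {b : Fin (n + 1) → ℤ} {i i' : Fin (n + 1)} (hi : y i ≠ 0) (hi' : y i' ≠ 0) (hb : b i ≠ b i')
    (hwc : ∀ e v, val y (wc b v (F e)) = 0) : Ruled k K := by
  obtain ⟨δ, σ, -, -, hσ0, hσ, htop, -⟩ := exists_delta hy.gen b hi hi' hb
    (fun G hG h0 v => ideal_hom (sub_u hy) (comp_u hcomp) hwc G hG h0 v)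
  refine ⟨consts δ, σ, ?_, htop⟩
  intro halg
  have h1 : Algebra.IsAlgebraic (consts δ) K := by
    have h2 : Algebra.IsAlgebraic (consts δ) (consts δ)⟮σ⟯ :=
      IntermediateField.isAlgebraic_adjoin_simple halg.isIntegral
    constructor
    intro z
    have h3 := h2.isAlgebraic (⟨z, by rw [htop]; exact IntermediateField.mem_top⟩ : (consts δ)⟮σ⟯)
    exact h3.algebraMap (A := K)
  have h2 : Algebra.IsAlgebraic (IntermediateField.adjoin k (consts δ : Set K)) K := by
    rw [IntermediateField.adjoin_self]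
    exact h1
  have h3 := der_eq_zero δ _ h2 (fun s hs => hs)
  rw [h3] at hσ
  exact hσ0 hσ.symm

/-- the bound without `r` -/
theorem bound_one (hr : 1 ≤ r)
    (hN : 8 * (r * ((n + 1) * ((h + 1) * (2 * s + 1) ^ 5))) ≤ N) :
    (n + 1) * ((h + 1) * (2 * s + 1) ^ 5) ≤ N := by
  refine le_trans ?_ hN
  calc (n + 1) * ((h + 1) * (2 * s + 1) ^ 5) = 1 * (1 * ((n + 1) * ((h + 1) * (2 * s + 1) ^ 5))) :=
        by ring
    _ ≤ _ := Nat.mul_le_mul (by omega) (Nat.mul_le_mul_right _ hr)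

/-- **Openness.** -/
theorem open_nest [Finite ι] (hF : HighTowers s N h F) (hN2 : 2 ≤ N)
    (hN : (n + 1) * ((h + 1) * (2 * s + 1) ^ 5) ≤ N) (hw : 1 ≤ w) (hy : SubVar F K w y)
    (hcomp : IsComponent F y) (hR : ¬ Ruled k K) :
    ∃ G : MvPolynomial (Fin (n + 1)) k, IsForm G ∧ val y G ≠ 0 ∧
      ∀ (K'' : Type) [Field K''] [Algebra k K''] (y' : Fin (n + 1) → K''),
        (∀ H : MvPolynomial (Fin (n + 1)) k, IsForm H → val y H = 0 → val y' H = 0) →
        val y' G ≠ 0 → ∀ w' : ℕ, Algebra.trdeg k K'' = w' →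
        Algebra.IsAlgebraic (coords k y') K'' → HasNest k s h N w' K'' := by
  classical
  have hFf : ∀ e, IsForm (F e) := fun e => hF.form e
  rcases hF with hl | hm
  · have h1 := sub_tfae_q (Q := (Empty.elim : Empty → MvPolynomial (Fin (n + 1)) k)) hl
      (fun j => j.elim) hN hw (sub_q hy) (comp_q hcomp)
    have hgt : GeneralType k K w := by
      by_contra hgt
      exact hR (ruled_of_not (Or.inl hl) (bnd_le hN).1 hy hcomp hgt)
    have h2 : LogGeneralType k K w
        (OffAny (Empty.elim : Empty → MvPolynomial (Fin (n + 1)) k) y) :=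
      Pool.Agent.TH710.NR.log_of_general hgt _
    obtain ⟨G, hG, hGy, hGx⟩ := (h1.out 0 3).1 h2
    refine ⟨G, hG, hGy, fun K'' _ _ y' hy' hG' w' htr halg => ?_⟩
    by_contra hC
    obtain ⟨v, hv, hlv⟩ := waring_n' hl hN2 halg htr (fun e => hy' _ (hFf e) (hy.mem e)) hC
    have hP : PunctX F (Empty.elim : Empty → MvPolynomial (Fin (n + 1)) k) y' :=
      ⟨v, ∅, hv, hlv, fun _ _ j => j.elim, fun _ _ j => j.elim⟩
    obtain ⟨x, h3, h4, h5, h6⟩ := spec_k (fun j => j.elim) hP hG'
    have hx0 : x ≠ 0 := by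
      rintro rfl
      obtain ⟨v, T, ⟨i, j, hij⟩, -⟩ := h6
      apply hij
      simp
    exact h3 (hGx x ⟨hx0, fun H hH h0 => h5 H (hy' H hH h0)⟩
      ⟨hx0, fun i => h5 _ (hy' _ (hFf i) (hy.mem i)), h4⟩ h6)
  · have hno : ∀ b : Fin (n + 1) → ℤ, (∀ e v, val y (wc b v (F e)) = 0) →
        ∀ i i', y i ≠ 0 → y i' ≠ 0 → b i = b i' := by
      intro b hb i i' hi hi'
      by_contra hbi
      exact hR (ruled_of_wc hy hcomp hi hi' hbi hb)
    obtain ⟨G, hG, hGy, hGx⟩ := good_form hFf (sub_u hy) hno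
    refine ⟨G, hG, hGy, fun K'' _ _ y' hy' hG' w' htr halg => ?_⟩
    by_contra hC
    obtain ⟨b, i, i', hi, hi', hb, hwc⟩ := sparse_n' (fun e => (hm e).2) hN2 halg htr
      (fun e => hy' _ (hFf e) (hy.mem e)) hC
    obtain ⟨x, hx1, hx2⟩ := specialise y' (G * (MvPolynomial.X i * MvPolynomial.X i')) (by
      rw [map_mul, map_mul, MvPolynomial.aeval_X, MvPolynomial.aeval_X]
      exact mul_ne_zero hG' (mul_ne_zero hi hi'))
    rw [map_mul, map_mul, MvPolynomial.aeval_X, MvPolynomial.aeval_X] at hx1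
    have h1 := left_ne_zero_of_mul hx1
    have h2 := right_ne_zero_of_mul hx1
    have hxV : x ∈ VarPts k y := ⟨fun h0 => left_ne_zero_of_mul h2 (congrFun h0 i),
      fun H hH hHy => hx2 H (hy' H hH hHy)⟩
    exact hb ((hGx x hxV h1).2 b (fun e v => hx2 _ (hwc e v)) i i' (left_ne_zero_of_mul h2)
      (right_ne_zero_of_mul h2))

/-- **Lang's conjecture for the varieties dominated by a component which is not ruled.** -/
theorem strong_main' [Finite ι] (hF : HighTowers s N h F) (hw : 1 ≤ w)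
    (hy : SubVar F K w y) (hcomp : IsComponent F y) (hR : ¬ Ruled k K)
    (hN : 8 * (r * ((n + 1) * ((h + 1) * (2 * s + 1) ^ 5))) ≤ N)
    {K' L : Type} [Field K'] [Field L] [Algebra k K'] [Algebra k L] [Algebra K K']
    [Algebra L K'] [IsScalarTower k K K'] [IsScalarTower k L K'] [Algebra.IsAlgebraic K K']
    [FiniteDimensional L K'] (hr : Module.finrank L K' ≤ r) {M : ℕ} {x : Fin (M + 1) → L}
    (hx : x ≠ 0) (hgen : coords k x = ⊤) : StronglyGeneral k x := by
  classical
  obtain ⟨i1, hi1'⟩ := Function.ne_iff.1 hx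
  have hi1 : x i1 ≠ 0 := hi1'
  obtain ⟨i0, hi0'⟩ := Function.ne_iff.1 hy.ne
  have hi0 : y i0 ≠ 0 := hi0'
  have hr1 := one_le_rank hr
  have hgenK : Algebra.IsAlgebraic (coords k y) K := by
    rw [hy.gen]
    infer_instance
  have hwn := dim_le hy.ne hgenK hy.dim
  obtain ⟨G, hGf, hGy, hopen⟩ := open_nest hF (bound_le hr1 hwn hN).2 (bound_one hr1 hN) hw hy
    hcomp hR
  let Θ1 : Set K := {(val y G)⁻¹}
  have hΘ1 : Θ1.Finite := Set.finite_singleton _
  obtain ⟨Θ2, hΘ2, halgs⟩ := alg_spec (K' := K') hy.gen hi0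
    (fun m => algebraMap L K' (x m / x i1))
  obtain ⟨H, hH, hspread⟩ := spread (K' := K') (adjoin_norm hgen hi1)
    (Θ := algebraMap K K' '' (Θ1 ∪ (Θ2 ∪ Set.range y)))
    ((hΘ1.union (hΘ2.union (Set.finite_range y))).image _)
  refine ⟨MvPolynomial.X i1 * hz i1 H, ?_, ?_, ?_⟩
  · obtain ⟨d, hd⟩ := hz_form i1 H
    exact ⟨1 + d, (MvPolynomial.isHomogeneous_X k i1).mul hd⟩
  · change MvPolynomial.aeval x _ ≠ 0
    rw [map_mul, MvPolynomial.aeval_X]
    refine mul_ne_zero hi1 ?_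
    change val x _ ≠ 0
    rw [val_hz H hi1]
    exact mul_ne_zero (pow_ne_zero _ hi1) hH
  intro E _ _ w' z hz hzR hw1 htr
  change MvPolynomial.aeval z _ ≠ 0 at hzR
  rw [map_mul, MvPolynomial.aeval_X] at hzR
  have hz1 : z i1 ≠ 0 := left_ne_zero_of_mul hzR
  have hzH : MvPolynomial.aeval (fun i => z i / z i1) H ≠ 0 := by
    have h1 : val z (Pool.Agent.TH466.QG.hz i1 H) ≠ 0 := right_ne_zero_of_mul hzR
    rw [val_hz H hz1] at h1
    exact right_ne_zero_of_mul h1
  have hsp : ∀ G : MvPolynomial (Fin (M + 1)) k,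
      MvPolynomial.aeval (fun i => x i / x i1) G = 0 →
      MvPolynomial.aeval (fun i => z i / z i1) G = 0 := by
    intro G hG
    have h1 : val x (Pool.Agent.TH466.QG.hz i1 G) = 0 := by
      rw [val_hz G hi1, hG, mul_zero]
    have h2 := hz.spec _ (hz_form i1 G) h1
    rw [val_hz G hz1] at h2
    exact (mul_eq_zero.1 h2).resolve_left (pow_ne_zero _ hz1)
  obtain ⟨K'', i1', i2', i3', i4', i5', hrk, S, hSx, hSΘ⟩ := hspread E
    (fun i => z i / z i1) hsp hzH
  have hSy : ∀ i, ∃ t, S.T (algebraMap K K' (y i)) t := fun i =>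
    hSΘ _ ⟨y i, Or.inr (Or.inr ⟨i, rfl⟩), rfl⟩
  choose y' hy' using hSy
  have halg : Algebra.IsAlgebraic (coords k y') K'' := by
    refine alg_over (adjoin_norm hz.gen hz1) _ fun m => ?_
    exact halgs K'' S (fun ϑ hϑ => hSΘ _ ⟨ϑ, Or.inr (Or.inl hϑ), rfl⟩) y' hy'
      (fun m => algebraMap E K'' (z m / z i1)) hSx m
  have htr' : Algebra.trdeg k K'' = w' := by rw [trdeg_alg (E := E), htr]
  have hval : ∀ H : MvPolynomial (Fin (n + 1)) k, (S.res (K0 := K)).T (val y H) (val y' H) :=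
    fun H => (S.res (K0 := K)).val hy' H
  have hC : HasNest k s h N w' K'' := by
    refine hopen K'' y' (fun H _ h0 => (S.res (K0 := K)).eq_zero (hval H) h0) ?_ w' htr' halg
    exact (S.res (K0 := K)).ne_zero (hval G) (hSΘ _ ⟨_, Or.inl rfl, rfl⟩) hGy
  have hwL : Algebra.trdeg k L = w := by
    rw [← hy.dim, ← trdeg_alg (E := K) (K := K'), trdeg_alg (E := L) (K := K')]
  have hle : w' ≤ w := dim_le (adjoin_norm hz.gen hz1) hsp hwL htr
  exact general_below' hw1 (hrk.trans hr) hC (bound_le hr1 (hle.trans hwn) hN).1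

/-- general type and strongly general type, for the varieties dominated by a component -/
theorem lang_iff' [Finite ι] (hF : HighTowers s N h F) (hw : 1 ≤ w)
    (hy : SubVar F K w y) (hcomp : IsComponent F y)
    (hN : 8 * (r * ((n + 1) * ((h + 1) * (2 * s + 1) ^ 5))) ≤ N) {L : Type} [Field L]
    [Algebra k L] [Algebra L K] [IsScalarTower k L K] [FiniteDimensional L K]
    (hr : Module.finrank L K ≤ r) {M : ℕ} {x : Fin (M + 1) → L} (hx : x ≠ 0)
    (hgen : coords k x = ⊤) :
    (GeneralType k L w ↔ StronglyGeneral k x) ∧ (GeneralType k L w ↔ ¬ IsUniruled k L w) := by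
  have hLdim : Algebra.trdeg k L = w := by rw [← hy.dim, ← trdeg_alg (E := L) (K := K)]
  by_cases hR : Ruled k K
  · have hK : Algebra.EssFiniteType k K := SubVar.ess hy
    obtain ⟨h1, h2, -⟩ := neg_below (L := L) hy.dim hR
    have h3 : ¬ GeneralType k L w := fun h => h2 (psef_of_kodGe (kod_of_general h))
    exact ⟨⟨fun h => absurd h h3, fun h => general_of_strongly hx hgen hw hLdim h⟩,
      ⟨fun h => absurd h h3, fun h => absurd h1 h⟩⟩
  · have h1 : StronglyGeneral k x := strong_main' (K' := K) hF hw hy hcomp hR hN hr hx hgen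
    have h2 : GeneralType k L w := general_of_strongly hx hgen hw hLdim h1
    refine ⟨⟨fun _ => h1, fun _ => h2⟩, ⟨fun _ h3 => ?_, fun _ => h2⟩⟩
    have hK : Algebra.EssFiniteType k K := SubVar.ess hy
    have hL : Algebra.EssFiniteType k L := ess_below (K := K)
    have h4 := (Pool.Agent.W619.Y.uniruled_neg w hLdim h3).1
    exact h4 ((psef_iff w).1 (psef_of_kodGe (kod_of_general h2)))

end Pool.Agent.X333.DN
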