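import Pool.Agent.X333.DN.Ent
import Pool.Agent.X333.DN.Open

/-!
The special sets and the components of the images, under finite morphisms, of projective varieties
given by nested sums of high powers.
-/

set_option autoImplicit false
set_option maxHeartbeats 400000
set_option linter.overlappingInstances false
set_option linter.unusedSectionVars false

open FF IntermediateField Filter

namespace Pool.Agent.X333.DN

open Pool.Agent.W602.GT Pool.Agent.TH466.QG Pool.Agent.TH710.ND Pool.Agent.Y221.FQ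
open Pool.Agent.Y221.BD
open Pool.Agent.W619.PQ (IsUniruled)

section general

variable {k : Type} [Field k] [IsAlgClosed k] [CharZero k] {m n M : ℕ} {ι κ μ : Type}
  {Ψ : κ → MvPolynomial (Fin (m + 1)) k} {F : ι → MvPolynomial (Fin (n + 1)) k}
  {Φ : μ → MvPolynomial (Fin (M + 1)) k}

/-- components which are strongly of general type do not lie in the algebraic special set -/
theorem not_alg_of_strongly {L : Type} [Field L] [Algebra k L]
    {z : Fin (M + 1) → L} (hz : z ≠ 0) (hc : IsComponent Φ z) (h : StronglyGeneral k z) :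
    ¬ VarPts k z ⊆ SpAlg Φ := by
  obtain ⟨H0, hH0f, hH0z, hH0⟩ := hc
  obtain ⟨R, hR, hRz, hRE⟩ := h
  intro hsub
  have hmul : ∀ {A : Type} [Field A] [Algebra k A] (x : Fin (M + 1) → A)
      (P Q : MvPolynomial (Fin (M + 1)) k), val x (P * Q) = val x P * val x Q :=
    fun x P Q => map_mul _ _ _
  have hne : val z (H0 * R) ≠ 0 := by
    rw [hmul]
    exact mul_ne_zero hH0z hRz
  obtain ⟨b, hb⟩ := Function.ne_iff.1 hz
  obtain ⟨x, hx, hx0⟩ := specialise z (H0 * R * MvPolynomial.X b) (by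
    rw [map_mul, MvPolynomial.aeval_X]
    exact mul_ne_zero hne hb)
  rw [map_mul, MvPolynomial.aeval_X] at hx
  have h1 : x ∈ VarPts k z :=
    ⟨fun h0 => right_ne_zero_of_mul hx (congrFun h0 b), fun g _ hg => hx0 g hg⟩
  refine left_ne_zero_of_mul hx ((hsub h1).2 (H0 * R) ?_ ?_)
  · obtain ⟨a, ha⟩ := hH0f
    obtain ⟨b, hb⟩ := hR
    exact ⟨a + b, ha.mul hb⟩
  · intro K _ _ w y hw hy hgt
    by_contra hcon
    rw [hmul] at hcon
    have h3 := left_ne_zero_of_mul hcon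
    have h4 := right_ne_zero_of_mul hcon
    apply hgt
    refine hRE K w y ⟨hy.ne, hy.gen, fun g hg hgz => ?_⟩ h4 hw hy.dim
    have h5 : val y (H0 * g) = 0 := by
      refine van_of_cone hy.ne hy.mem fun q hq => ?_
      rw [hmul]
      by_cases h6 : val q H0 = 0
      · rw [h6, zero_mul]
      · rw [(hH0 q hq h6).2 g hg hgz, mul_zero]
    rw [hmul] at h5
    exact (mul_eq_zero.1 h5).resolve_left h3

/-- **Components of the images.** -/
theorem gen_iff' [Finite ι] {G : Fin (M + 1) → MvPolynomial (Fin (n + 1)) k} (hG : Mor F Φ G)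
    (hon : Onto F Φ G) {r s N h : ℕ} (hfib : FibresLe F G r) (hF : HighTowers s N h F)
    (hN : 8 * (r * ((n + 1) * ((h + 1) * (2 * s + 1) ^ 5))) ≤ N) {L : Type} [Field L]
    [Algebra k L] {w : ℕ} {z : Fin (M + 1) → L} (hw : 1 ≤ w) (hz : SubVar Φ L w z)
    (hc : IsComponent Φ z) :
    (GeneralType k L w ↔ StronglyGeneral k z) ∧ (GeneralType k L w ↔ ¬ IsUniruled k L w) := by
  obtain ⟨E, i1, i2, i3, i4, i5, u, i0, c, hrk, hu0, huF, hc0, hcz, htop⟩ :=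
    lift_point hF.form hG hon hfib hz.ne hz.mem
  have hi0 : u i0 ≠ 0 := by
    rw [hu0]
    exact one_ne_zero
  have hu : u ≠ 0 := fun h0 => hi0 (congrFun h0 i0)
  have hgen : coords k u = ⊤ := lift_gen hz.gen hu0 hc0 hcz htop
  have htr : Algebra.trdeg k E = w := by rw [trdeg_alg (E := L), hz.dim]
  have hcu : IsComponent F u := comp_lift hF.form hG hz.dim hc htr hi0 hgen huF hcz
  exact lang_iff' hF hw ⟨hu, huF, hgen, htr⟩ hcu hN hrk hz.ne hz.gen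

/-- **The equivalences for the components, over algebraically closed fields.** -/
theorem gen_tfae_alg [Finite ι] (hΦ : ∀ e, IsForm (Φ e))
    {G : Fin (M + 1) → MvPolynomial (Fin (n + 1)) k} (hG : Mor F Φ G) (hon : Onto F Φ G)
    {r s N h : ℕ} (hfib : FibresLe F G r) (hF : HighTowers s N h F)
    (hN : 8 * (r * ((n + 1) * ((h + 1) * (2 * s + 1) ^ 5))) ≤ N) {L : Type} [Field L]
    [Algebra k L] {w : ℕ} {z : Fin (M + 1) → L} (hw : 1 ≤ w) (hz : SubVar Φ L w z) :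
    (¬ VarPts k z ⊆ im G '' SpGm F → GeneralType k L w ∧ StronglyGeneral k z) ∧
    (IsComponent Φ z → [GeneralType k L w, StronglyGeneral k z, ¬ IsUniruled k L w,
      ¬ VarPts k z ⊆ SpAlg Φ, ¬ VarPts k z ⊆ SpGm Φ, ¬ VarPts k z ⊆ im G '' SpGm F].TFAE) := by
  obtain ⟨h3, h4⟩ := alg_im' hΦ hG hon hfib hF hN
  have h0 : ¬ VarPts k z ⊆ im G '' SpGm F → GeneralType k L w ∧ StronglyGeneral k z := by
    intro h
    rw [← h4, ← h3] at h
    exact strong_of' hΦ hw hz h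
  refine ⟨h0, fun hc => ?_⟩
  obtain ⟨h5, h6⟩ := gen_iff' hG hon hfib hF hN hw hz hc
  tfae_have 1 ↔ 2 := h5
  tfae_have 1 ↔ 3 := h6
  tfae_have 2 → 4 := fun h => not_alg_of_strongly hz.ne hc h
  tfae_have 4 ↔ 5 := by rw [h3]
  tfae_have 5 ↔ 6 := by rw [h4]
  tfae_have 6 → 1 := fun h => (h0 h).1
  tfae_finish

end general

section cx

variable {m n M : ℕ} {ι κ μ : Type}
  {Ψ : κ → MvPolynomial (Fin (m + 1)) ℂ} {F : ι → MvPolynomial (Fin (n + 1)) ℂ}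
  {Φ : μ → MvPolynomial (Fin (M + 1)) ℂ} {G : Fin (M + 1) → MvPolynomial (Fin (m + 1)) ℂ}
  {B : Fin (n + 1) → MvPolynomial (Fin (m + 1)) ℂ}

theorem nb_le {n h r s N : ℕ} (hN : (n + 1) * ((h + 1) * (4 * 10 ^ (2 * s) * (r + 1) ^ 7)) ≤ N) :
    Pool.Agent.Y221.AB.NB r (2 * s) ≤ N := by
  refine (NB_le r (2 * s)).trans (le_trans ?_ hN)
  calc 4 * 10 ^ (2 * s) * (r + 1) ^ 7 = 1 * (1 * (4 * 10 ^ (2 * s) * (r + 1) ^ 7)) := by ring
    _ ≤ _ := Nat.mul_le_mul (by omega) (Nat.mul_le_mul_right _ (by omega))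

/-- **Covers and their images.** -/
theorem ent_cover (hΨ : ∀ e, IsForm (Ψ e)) (hB : Mor Ψ F B) (hG : Mor Ψ Φ G)
    (hon : Onto Ψ Φ G) {r s N h : ℕ} (hfib : FibresLe Ψ G r) (hF : HighTowers s N h F)
    (hN : (n + 1) * ((h + 1) * (4 * 10 ^ (2 * s) * (r + 1) ^ 7)) ≤ N) :
    SpH Φ ⊆ CovGm Ψ F B G := by
  rintro q ⟨hq, h⟩
  obtain ⟨x, hx, hBx, hxq⟩ := closed_im hΨ hB hG hq.1 fun H hH hx => h H hH
    fun f hf t => entire_van' hΨ hB hG hon hfib hF (nb_le hN) hf hH hx t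
  exact ⟨x, ⟨hx, hBx⟩, hxq⟩

/-- **Images.** -/
theorem special_im' {G : Fin (M + 1) → MvPolynomial (Fin (n + 1)) ℂ} (hΦ : ∀ e, IsForm (Φ e))
    (hG : Mor F Φ G) (hon : Onto F Φ G) {r s N h : ℕ} (hfib : FibresLe F G r)
    (hF : HighTowers s N h F)
    (hN : (n + 1) * ((h + 1) * (4 * 10 ^ (2 * s) * (r + 1) ^ 7)) ≤ N) :
    SpH Φ = SpGm Φ ∧ SpAlg Φ = SpGm Φ ∧ SpGm Φ = im G '' SpGm F := by
  obtain ⟨h1, h2⟩ := alg_im' hΦ hG hon hfib hF (bound_alg hN)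
  have h3 := ent_cover (B := fun i => MvPolynomial.X i) hF.form mor_X' hG hon hfib hF hN
  have h4 : CovGm F F (fun i => MvPolynomial.X i) G ⊆ im G '' SpGm F := by
    rintro _ ⟨x, ⟨hx, hBx⟩, rfl⟩
    rw [im_X'] at hBx
    exact ⟨x, hBx, rfl⟩
  refine ⟨Set.Subset.antisymm ((h3.trans h4).trans (by rw [h2])) gm_sub_h, h1, h2⟩

/-- **The equivalences for the components.** -/
theorem gen_tfae' [Finite ι] (hΦ : ∀ e, IsForm (Φ e))
    {G : Fin (M + 1) → MvPolynomial (Fin (n + 1)) ℂ} (hG : Mor F Φ G) (hon : Onto F Φ G)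
    {r s N h : ℕ} (hfib : FibresLe F G r) (hF : HighTowers s N h F)
    (hN : (n + 1) * ((h + 1) * (4 * 10 ^ (2 * s) * (r + 1) ^ 7)) ≤ N) {L : Type} [Field L]
    [Algebra ℂ L] {w : ℕ} {z : Fin (M + 1) → L} (hw : 1 ≤ w) (hz : SubVar Φ L w z) :
    (¬ VarPts ℂ z ⊆ im G '' SpGm F → GeneralType ℂ L w ∧ StronglyGeneral ℂ z ∧ PseudoBrody z) ∧
    (IsComponent Φ z → [GeneralType ℂ L w, StronglyGeneral ℂ z, PseudoBrody z,
      ¬ IsUniruled ℂ L w, ¬ VarPts ℂ z ⊆ SpAlg Φ, ¬ VarPts ℂ z ⊆ SpGm Φ, ¬ VarPts ℂ z ⊆ SpH Φ,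
      ¬ VarPts ℂ z ⊆ im G '' SpGm F].TFAE) := by
  obtain ⟨h1, h2, h3⟩ := special_im' hΦ hG hon hfib hF hN
  obtain ⟨h4, h5⟩ := gen_tfae_alg hΦ hG hon hfib hF (bound_alg hN) hw hz
  obtain ⟨hb1, hb2⟩ := brody_iff hΦ hz.ne hz.mem
  refine ⟨fun h => ⟨(h4 h).1, (h4 h).2, hb1 (by rw [h1, h3]; exact h)⟩, fun hc => ?_⟩
  have h6 := h5 hc
  tfae_have 1 ↔ 2 := h6.out 0 1
  tfae_have 1 ↔ 4 := h6.out 0 2
  tfae_have 1 ↔ 5 := h6.out 0 3
  tfae_have 1 ↔ 6 := h6.out 0 4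
  tfae_have 1 ↔ 8 := h6.out 0 5
  tfae_have 7 ↔ 6 := by rw [h1]
  tfae_have 3 → 7 := hb2 hc
  tfae_have 7 → 3 := hb1
  tfae_finish

/-- **Subvarieties of the images of covers.** -/
theorem gen_cover' (hΦ : ∀ e, IsForm (Φ e)) (hΨ : ∀ e, IsForm (Ψ e)) (hB : Mor Ψ F B)
    (hG : Mor Ψ Φ G) (hon : Onto Ψ Φ G) {r s N h : ℕ} (hfib : FibresLe Ψ G r)
    (hF : HighTowers s N h F)
    (hN : (n + 1) * ((h + 1) * (4 * 10 ^ (2 * s) * (r + 1) ^ 7)) ≤ N) :
    (∀ f, Entire Φ f → ∀ t, f t ∈ CovGm Ψ F B G) ∧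
    ∀ (L : Type) [Field L] [Algebra ℂ L] (w : ℕ) (z : Fin (M + 1) → L), 1 ≤ w →
      SubVar Φ L w z → ¬ VarPts ℂ z ⊆ CovGm Ψ F B G →
        GeneralType ℂ L w ∧ StronglyGeneral ℂ z ∧ PseudoBrody z := by
  have h1 := ent_cover hΨ hB hG hon hfib hF hN
  have h3 := alg_cover' hΨ hB hG hon hfib hF (bound_alg hN)
  refine ⟨fun f hf t => h1 ⟨hf.mem t, fun H _ hH => hH f hf t⟩, ?_⟩
  intro L _ _ w z hw hz h
  obtain ⟨h5, h6⟩ := strong_of' hΦ hw hz fun h4 => h (h4.trans h3)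
  exact ⟨h5, h6, (brody_iff hΦ hz.ne hz.mem).1 fun h4 => h (h4.trans h1)⟩

/-- **Hyperbolicity of the images of covers.** -/
theorem hyp_cover' (hΨ : ∀ e, IsForm (Ψ e)) (hB : Mor Ψ F B) (hG : Mor Ψ Φ G)
    (hon : Onto Ψ Φ G) {r s N h : ℕ} (hfib : FibresLe Ψ G r) (hF : HighTowers s N h F)
    (hN : (n + 1) * ((h + 1) * (4 * 10 ^ (2 * s) * (r + 1) ^ 7)) ≤ N)
    (hGm : ∀ P, ¬ GmCurve F P) : (∀ f, ¬ Entire Φ f) ∧ AllGeneral Φ := by
  have hx : ∀ x ∈ Cone Ψ, im B x ∈ SpGm F →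
      val (im G x) (1 : MvPolynomial (Fin (M + 1)) ℂ) = 0 := by
    intro x _ hBx
    rw [gm_empty' hGm] at hBx
    exact absurd hBx (Set.notMem_empty _)
  have hform : IsForm (1 : MvPolynomial (Fin (M + 1)) ℂ) := ⟨0, MvPolynomial.isHomogeneous_one _ _⟩
  constructor
  · intro f hf
    have h1 := entire_van' hΨ hB hG hon hfib hF (nb_le hN) hf hform hx 0
    have h2 : val (f 0) (1 : MvPolynomial (Fin (M + 1)) ℂ) = 1 := map_one _
    rw [h2] at h1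
    exact one_ne_zero h1
  · intro K _ _ w z hw hz
    by_contra hgt
    have h1 := sub_van' hΨ hB hG hon hfib hF (bound_alg hN) hw hz hgt hform hx
    have h2 : val z (1 : MvPolynomial (Fin (M + 1)) ℂ) = 1 := map_one _
    rw [h2] at h1
    exact one_ne_zero h1

/-- **Hyperbolicity of images.** -/
theorem hyp_im' {G : Fin (M + 1) → MvPolynomial (Fin (n + 1)) ℂ} (hΦ : ∀ e, IsForm (Φ e))
    (hG : Mor F Φ G) (hon : Onto F Φ G) {r s N h : ℕ} (hfib : FibresLe F G r)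
    (hF : HighTowers s N h F)
    (hN : (n + 1) * ((h + 1) * (4 * 10 ^ (2 * s) * (r + 1) ^ 7)) ≤ N) :
    [∀ f, ¬ Entire Φ f, AllGeneral Φ, ∀ P, ¬ GmCurve Φ P, ∀ P, ¬ GmCurve F P].TFAE := by
  have h0 : (∀ P, ¬ GmCurve F P) → (∀ f, ¬ Entire Φ f) ∧ AllGeneral Φ :=
    hyp_cover' (B := fun i => MvPolynomial.X i) hF.form mor_X' hG hon hfib hF hN
  tfae_have 4 → 1 := fun h => (h0 h).1
  tfae_have 4 → 2 := fun h => (h0 h).2
  tfae_have 1 → 3 := fun h P hP => h _ (entire_of_gm hP)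
  tfae_have 3 → 4 := fun h P hP => h _ (gm_im hF.form hG hP)
  tfae_have 2 → 3 := by
    intro h P hP
    have h1 : (fun i => (P i).eval 1) ∈ SpGm Φ :=
      ⟨⟨hP.ne 1 one_ne_zero, hP.mem 1 one_ne_zero⟩, fun H _ hH => hH P hP 1 one_ne_zero⟩
    have h2 := (gm_sub_alg hΦ h1).2 1 ⟨0, MvPolynomial.isHomogeneous_one _ _⟩
      fun K _ _ w y hw hy hgt => absurd (h K w y hw hy) hgt
    have h3 : val (fun i => (P i).eval 1) (1 : MvPolynomial (Fin (M + 1)) ℂ) = 1 := map_one _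
    rw [h3] at h2
    exact one_ne_zero h2
  tfae_finish

end cx

end Pool.Agent.X333.DN
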