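import Pool.Agent.X333.DN.Dom
import Pool.Agent.Y221.CF.Abu

/-!
Rational curves and Kodaira dimension for the varieties dominated by subvarieties of projective
varieties given by nested sums of high powers.
-/

set_option autoImplicit false
set_option linter.unusedSectionVars false
set_option linter.overlappingInstances false

open FF IntermediateField Pool.Agent.W603.LV Pool.Agent.TH466.QG Pool.Agent.TH710.ND

namespace Pool.Agent.X333.DN

open Pool.Agent.W602.GT (GeneralType Psef KodGe Ruled SubVar IsComponent coords val IsForm wc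
  kod_of_general psef_of_kodGe not_psef_of essFinite dim_le)
open Pool.Agent.W619.PQ (IsUniruled)
open Pool.Agent.W619.TW (NumNeg)
open Pool.Agent.Y221.CF (not_uniruled)

variable {k : Type} [Field k] [CharZero k] [IsAlgClosed k] {n : ℕ} {ι : Type}
  {F : ι → MvPolynomial (Fin (n + 1)) k} {s N h w r : ℕ}

section curve

variable {K : Type} [Field K] [Algebra k K] {y : Fin (n + 1) → K}

/-- a line is a rational curve -/
theorem curve_of_line {v : Fin (n + 1) → K} (hv : ∃ i j, y i * v j - y j * v i ≠ 0)
    (hl : ∀ (c c' : K) e, val (fun l => c * y l + c' * v l) (F e) = 0) : RatCurve F y := by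
  obtain ⟨i0, j0, hij⟩ := hv
  let P : Fin (n + 1) → Polynomial K := fun l =>
    Polynomial.C (y l) + Polynomial.C (v l) * (Polynomial.X - 1)
  have hPe : ∀ t : K, (fun l => (P l).eval t) = fun l => 1 * y l + (t - 1) * v l := by
    intro t
    funext l
    simp only [P, Polynomial.eval_add, Polynomial.eval_mul, Polynomial.eval_C, Polynomial.eval_X,
      Polynomial.eval_sub, Polynomial.eval_one]
    ring
  refine ⟨P, fun i => ?_, ⟨j0, i0, fun h => ?_⟩, fun e => aeval_zero_of_eval fun t _ => ?_⟩
  · have := congrFun (hPe 1) i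
    simp only [sub_self, zero_mul, one_mul, add_zero] at this
    exact this
  · have h1 := congrArg (fun p : Polynomial K => p.coeff 1) h
    simp only [P, mul_sub, mul_one, Polynomial.coeff_mul_C, Polynomial.coeff_add,
      Polynomial.coeff_sub, Polynomial.coeff_C_mul, Polynomial.coeff_X_one,
      Polynomial.coeff_C_succ] at h1
    simp only [zero_add, sub_zero] at h1
    apply hij
    linear_combination h1
  · rw [hPe]
    exact hl 1 (t - 1) e

/-- an orbit is a rational curve -/
theorem curve_of_orbit (hff : ∀ e, IsForm (F e)) {b : Fin (n + 1) → ℤ} {i i' : Fin (n + 1)}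
    (hi : y i ≠ 0) (hi' : y i' ≠ 0) (hb : b i ≠ b i') (hwc : ∀ e v, val y (wc b v (F e)) = 0) :
    RatCurve F y := by
  obtain ⟨B, hB⟩ : ∃ B : ℤ, ∀ j, 0 ≤ b j + B := by
    refine ⟨∑ j, |b j|, fun j => ?_⟩
    have h1 := Finset.single_le_sum (f := fun j => |b j|) (fun _ _ => abs_nonneg _)
      (Finset.mem_univ j)
    have h2 := neg_abs_le (b j)
    have h3 : |b j| ≤ ∑ j, |b j| := h1
    linarith
  let β : Fin (n + 1) → ℕ := fun j => (b j + B).toNat
  have hβ : ∀ j, (β j : ℤ) = b j + B := fun j => Int.toNat_of_nonneg (hB j)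
  let P : Fin (n + 1) → Polynomial K := fun j => Polynomial.C (y j) * Polynomial.X ^ β j
  refine ⟨P, fun j => by simp [P], ⟨i, i', fun h => ?_⟩,
    fun e => aeval_zero_of_eval fun t ht => ?_⟩
  · have h1 : Polynomial.C (y i * y i') * Polynomial.X ^ β i =
        Polynomial.C (y i * y i') * Polynomial.X ^ β i' := by
      rw [Polynomial.C_mul]
      simp only [P] at h
      linear_combination h
    have h2 : Polynomial.C (y i * y i') ≠ 0 := by
      rw [Ne, Polynomial.C_eq_zero]
      exact mul_ne_zero hi hi'
    have h3 := congrArg Polynomial.natDegree (mul_left_cancel₀ h2 h1)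
    rw [Polynomial.natDegree_X_pow, Polynomial.natDegree_X_pow] at h3
    apply hb
    have h4 : (β i : ℤ) = β i' := by exact_mod_cast h3
    rw [hβ, hβ] at h4
    linarith
  · have h1 := Pool.Agent.W602.GT.val_orbit y b ht (F e) (hwc e)
    obtain ⟨dd, hdd⟩ := hff e
    have h2 : (fun j => (P j).eval t) = fun j => t ^ B * (t ^ b j * y j) := by
      funext j
      simp only [P, Polynomial.eval_mul, Polynomial.eval_C, Polynomial.eval_pow,
        Polynomial.eval_X]
      rw [← zpow_natCast, hβ, zpow_add₀ ht]
      ring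
    rw [h2]
    have h3 : val (fun j => t ^ B * (t ^ b j * y j)) (F e) =
        (t ^ B) ^ dd * val (fun j => t ^ b j * y j) (F e) := by
      unfold Pool.Agent.W602.GT.val
      rw [MvPolynomial.aeval_def, MvPolynomial.aeval_def, MvPolynomial.eval₂_eq,
        MvPolynomial.eval₂_eq, Finset.mul_sum]
      refine Finset.sum_congr rfl fun α hα => ?_
      have h4 : ∑ j ∈ α.support, α j = dd := by
        have h5 := hdd (MvPolynomial.mem_support_iff.1 hα)
        rw [Finsupp.weight_apply, Finsupp.sum] at h5
        simpa using h5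
      simp only [mul_pow]
      rw [Finset.prod_mul_distrib, Finset.prod_pow_eq_pow_sum, h4]
      ring
    rw [h3, h1, mul_zero]

theorem fam_or_curve (hF : HighTowers s N h F) (hN : 2 ≤ N)
    (htr : Algebra.trdeg k K = w) (hgen : Algebra.IsAlgebraic (coords k y) K)
    (hyF : ∀ e, val y (F e) = 0) : HasNest k s h N w K ∨ RatCurve F y := by
  by_contra hcon
  push Not at hcon
  obtain ⟨hC, hR⟩ := hcon
  apply hR
  rcases hF with h' | h'
  · obtain ⟨v, hv, hl⟩ := waring_n' h' hN hgen htr hyF hC
    exact curve_of_line hv hl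
  · obtain ⟨b, i, i', hi, hi', hb, hwc⟩ := sparse_n' (fun e => (h' e).2) hN hgen htr hyF hC
    exact curve_of_orbit (fun e => (h' e).1) hi hi' hb hwc

end curve

/-- fields below an algebraic extension of a field with a family -/
theorem general_corr' {K K' L : Type} [Field K] [Field K'] [Field L] [Algebra k K] [Algebra k K']
    [Algebra k L] [Algebra K K'] [Algebra L K'] [IsScalarTower k K K'] [IsScalarTower k L K']
    [Algebra.IsAlgebraic K K'] [FiniteDimensional L K'] (hw : 1 ≤ w) (hwn : w ≤ n) (hr1 : 1 ≤ r)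
    (hC : HasNest k s h N w K) (hr : Module.finrank L K' ≤ r)
    (hN : 8 * (r * ((n + 1) * ((h + 1) * (2 * s + 1) ^ 5))) ≤ N) : GeneralType k L w := by
  have h1 : HasFam k (2 * s) (w * ((h + 1) * (2 * s * (2 * s)))) N w K' := HasFam.up hC
  exact general_below' hw hr h1 (bound_le hr1 hwn hN).1

theorem one_le_rank {K' L : Type} [Field K'] [Field L] [Algebra L K'] [FiniteDimensional L K']
    (hr : Module.finrank L K' ≤ r) : 1 ≤ r :=
  le_trans (Nat.succ_le_of_lt Module.finrank_pos) hr

theorem abu_curve' (hF : HighTowers s N h F) (hw : 1 ≤ w)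
    (hN : 8 * (r * ((n + 1) * ((h + 1) * (2 * s + 1) ^ 5))) ≤ N) {K K' L : Type} [Field K]
    [Field K'] [Field L] [Algebra k K] [Algebra k K'] [Algebra k L] [Algebra K K'] [Algebra L K']
    [IsScalarTower k K K'] [IsScalarTower k L K'] [Algebra.IsAlgebraic K K']
    [FiniteDimensional L K'] {y : Fin (n + 1) → K} (hy : SubVar F K w y) (hc : ¬ RatCurve F y)
    (hr : Module.finrank L K' ≤ r) :
    GeneralType k L w ∧ KodGe k L w (fun _ => False) 0 ∧ Psef k L w (fun _ => False) := by
  have hgen : Algebra.IsAlgebraic (coords k y) K := by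
    rw [hy.gen]
    infer_instance
  have hwn := dim_le hy.ne hgen hy.dim
  have h1 : GeneralType k L w := by
    rcases fam_or_curve hF (bound_le (one_le_rank hr) hwn hN).2 hy.dim hgen hy.mem with h | h
    · exact general_corr' (K := K) (K' := K') hw hwn (one_le_rank hr) h hr hN
    · exact absurd h hc
  exact ⟨h1, kod_of_general h1, psef_of_kodGe (kod_of_general h1)⟩

theorem abu_corr' (hF : HighTowers s N h F) (hw : 1 ≤ w)
    (hN : 8 * (r * ((n + 1) * ((h + 1) * (2 * s + 1) ^ 5))) ≤ N) {K K' L : Type} [Field K]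
    [Field K'] [Field L] [Algebra k K] [Algebra k K'] [Algebra k L] [Algebra K K'] [Algebra L K']
    [IsScalarTower k K K'] [IsScalarTower k L K'] [Algebra.IsAlgebraic K K']
    [FiniteDimensional L K'] {y : Fin (n + 1) → K} (hy : SubVar F K w y)
    (hcomp : IsComponent F y) (hR : ¬ Ruled k K) (hr : Module.finrank L K' ≤ r) :
    GeneralType k L w ∧ KodGe k L w (fun _ => False) 0 ∧ Psef k L w (fun _ => False) := by
  have hgen : Algebra.IsAlgebraic (coords k y) K := by
    rw [hy.gen]
    infer_instance
  have hwn := dim_le hy.ne hgen hy.dim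
  have h1 : GeneralType k L w := by
    by_cases hC : HasNest k s h N w K
    · exact general_corr' (K := K) (K' := K') hw hwn (one_le_rank hr) hC hr hN
    · exact absurd (fam_or_ruled hF (bound_le (one_le_rank hr) hwn hN).2 hy hcomp hC) hR
  exact ⟨h1, kod_of_general h1, psef_of_kodGe (kod_of_general h1)⟩

theorem abu_comp' (hF : HighTowers s N h F) (hw : 1 ≤ w)
    (hN : 8 * (r * ((n + 1) * ((h + 1) * (2 * s + 1) ^ 5))) ≤ N) {K L : Type} [Field K]
    [Field L] [Algebra k K] [Algebra k L] [Algebra L K] [IsScalarTower k L K]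
    [FiniteDimensional L K] {y : Fin (n + 1) → K} (hy : SubVar F K w y)
    (hcomp : IsComponent F y) (hr : Module.finrank L K ≤ r) :
    [Psef k L w (fun _ => False), KodGe k L w (fun _ => False) 0, GeneralType k L w,
      ¬ IsUniruled k L w, ¬ Ruled k K].TFAE ∧
    (¬ Psef k L w (fun _ => False) → NumNeg k L w (fun _ => False)) := by
  have hK : Algebra.EssFiniteType k K := SubVar.ess hy
  have hneg : Ruled k K → IsUniruled k L w ∧ ¬ Psef k L w (fun _ => False) ∧
      NumNeg k L w (fun _ => False) := fun hR => neg_below hy.dim hR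
  have hL : Algebra.EssFiniteType k L := ess_below (K := K)
  have hLdim : Algebra.trdeg k L = w := by
    rw [← hy.dim, ← trdeg_add_eq k L (A := K)]
    have h1 : Algebra.trdeg L K = 0 := by
      rw [trdeg_eq_zero_iff]
      infer_instance
    rw [h1, add_zero]
  refine ⟨?_, fun h => (hneg ?_).2.2⟩
  · tfae_have 3 → 2 := fun h => kod_of_general h
    tfae_have 2 → 1 := fun h => psef_of_kodGe h
    tfae_have 1 → 5 := fun h hR => (hneg hR).2.1 h
    tfae_have 5 → 3 := fun h => (abu_corr' (K := K) (K' := K) hF hw hN hy hcomp h hr).1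
    tfae_have 4 → 5 := fun h hR => h (hneg hR).1
    tfae_have 1 → 4 := fun h hU => by
      obtain ⟨h2, h3⟩ := Pool.Agent.W619.Y.uniruled_neg w hLdim hU
      exact h2 ((psef_iff w).1 h)
    tfae_finish
  · by_contra hR
    exact h (abu_corr' (K := K) (K' := K) hF hw hN hy hcomp hR hr).2.2

end Pool.Agent.X333.DN
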