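import Pool.Agent.X333.DN.Img
import Pool.Agent.X333.DN.Abu
import Pool.Agent.TH466.QT.Hyp

/-!
Varieties without rational curves which are dominated by, or finite images of, varieties given by
nested sums of high powers.
-/

set_option autoImplicit false
set_option linter.unusedSectionVars false
set_option linter.overlappingInstances false

open FF IntermediateField Pool.Agent.W603.LV

namespace Pool.Agent.X333.DN

open Pool.Agent.W602.GT Pool.Agent.TH466.QG Pool.Agent.TH710.ND Pool.Agent.Y221.FQ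
open Pool.Agent.TH466.QT.RC (NoRationalCurve)

variable {k : Type} [Field k] [IsAlgClosed k] [CharZero k] {m n M : ℕ} {ι κ μ : Type}
  {Ψ : κ → MvPolynomial (Fin (m + 1)) k} {F : ι → MvPolynomial (Fin (n + 1)) k}
  {Φ : μ → MvPolynomial (Fin (M + 1)) k} {G : Fin (M + 1) → MvPolynomial (Fin (m + 1)) k}
  {B : Fin (n + 1) → MvPolynomial (Fin (m + 1)) k}

/-- **Images of covers.** -/
theorem all_cover (hΨ : ∀ e, IsForm (Ψ e)) (hB : Mor Ψ F B) (hG : Mor Ψ Φ G)
    (hon : Onto Ψ Φ G) {r s N h : ℕ} (hfib : FibresLe Ψ G r) (hF : HighTowers s N h F)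
    (hN : 8 * (r * ((n + 1) * ((h + 1) * (2 * s + 1) ^ 5))) ≤ N)
    (hGm : ∀ P, ¬ GmCurve F P) : AllGeneral Φ := by
  intro K _ _ w z hw hz
  by_contra hgt
  have h1 := sub_van' hΨ hB hG hon hfib hF hN hw hz hgt
    (H := 1) ⟨0, MvPolynomial.isHomogeneous_one _ _⟩ (by
      intro x _ hBx
      rw [gm_empty' hGm] at hBx
      exact absurd hBx (Set.notMem_empty _))
  have h2 : val z (1 : MvPolynomial (Fin (M + 1)) k) = 1 := map_one _
  rw [h2] at h1
  exact one_ne_zero h1

/-- **Images.** -/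
theorem all_im {G : Fin (M + 1) → MvPolynomial (Fin (n + 1)) k} (hΦ : ∀ e, IsForm (Φ e))
    (hG : Mor F Φ G) (hon : Onto F Φ G) {r s N h : ℕ} (hfib : FibresLe F G r)
    (hF : HighTowers s N h F) (hN : 8 * (r * ((n + 1) * ((h + 1) * (2 * s + 1) ^ 5))) ≤ N) :
    [AllGeneral Φ, ∀ P, ¬ GmCurve Φ P, ∀ P, ¬ GmCurve F P].TFAE := by
  tfae_have 3 → 1 := fun h => all_cover (B := fun i => MvPolynomial.X i) hF.form mor_X' hG hon
    hfib hF hN h
  tfae_have 2 → 3 := fun h P hP => h _ (gm_im hF.form hG hP)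
  tfae_have 1 → 2 := by
    intro h P hP
    have h1 : (fun i => (P i).eval 1) ∈ SpGm Φ :=
      ⟨⟨hP.ne 1 one_ne_zero, hP.mem 1 one_ne_zero⟩, fun H _ hH => hH P hP 1 one_ne_zero⟩
    have h2 := (gm_sub_alg hΦ h1).2 1 ⟨0, MvPolynomial.isHomogeneous_one _ _⟩
      fun K _ _ w y hw hy hgt => absurd (h K w y hw hy) hgt
    have h3 : val (fun i => (P i).eval 1) (1 : MvPolynomial (Fin (M + 1)) k) = 1 := map_one _
    rw [h3] at h2
    exact one_ne_zero h2
  tfae_finish

/-- images of the multiplicative group are rational curves -/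
theorem line_of_gm {P : Fin (M + 1) → Polynomial k} (hP : GmCurve Φ P) (hΦ : ∀ e, IsForm (Φ e)) :
    ∃ g : Fin (M + 1) → Polynomial k, (∀ t, (fun i => (g i).eval t) ∈ Cone Φ) ∧
      ∃ s t, ∀ c : k, ∃ i, (g i).eval s ≠ c * (g i).eval t := by
  classical
  obtain ⟨g, hg⟩ : ∃ g : Polynomial k, Ideal.span (Set.range P) = Ideal.span {g} :=
    (IsPrincipalIdealRing.principal (Ideal.span (Set.range P))).principal
  have hdvd : ∀ i, g ∣ P i := by
    intro i
    rw [← Ideal.mem_span_singleton, ← hg]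
    exact Ideal.subset_span ⟨i, rfl⟩
  choose e he using hdvd
  have hg0 : g ≠ 0 := by
    intro h0
    apply hP.ne 1 one_ne_zero
    funext i
    rw [he i, h0]
    simp
  obtain ⟨c, hc⟩ : ∃ c : Fin (M + 1) → Polynomial k, ∑ i, c i * P i = g := by
    have h1 : g ∈ Ideal.span (Set.range P) := by
      rw [hg]
      exact Ideal.mem_span_singleton_self g
    exact Ideal.mem_span_range_iff_exists_fun.1 h1
  have hc1 : ∑ i, c i * e i = 1 := by
    apply mul_left_cancel₀ hg0
    rw [mul_one, Finset.mul_sum]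
    conv_rhs => rw [← hc]
    refine Finset.sum_congr rfl fun i _ => ?_
    conv_rhs => rw [he i]
    ring
  have hev : ∀ t, (fun i => (P i).eval t) = fun i => g.eval t * (e i).eval t := by
    intro t
    funext i
    rw [he i, Polynomial.eval_mul]
  have hgt : ∀ t : k, t ≠ 0 → g.eval t ≠ 0 := by
    intro t ht h0
    apply hP.ne t ht
    rw [hev, h0]
    funext i
    simp
  have hmem : ∀ t : k, ∀ a, val (fun i => (e i).eval t) (Φ a) = 0 := by
    intro t a
    obtain ⟨d, hd⟩ := hΦ a
    obtain ⟨Q, hQ⟩ : ∃ Q : Polynomial k, ∀ t, Q.eval t = val (fun i => (e i).eval t) (Φ a) := by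
      refine ⟨MvPolynomial.aeval e (Φ a), fun t => ?_⟩
      have h1 : (Polynomial.aeval t : Polynomial k →ₐ[k] k).comp (MvPolynomial.aeval e) =
          MvPolynomial.aeval (fun i => (e i).eval t) := by
        apply MvPolynomial.algHom_ext
        intro i
        simp
      have h2 := DFunLike.congr_fun h1 (Φ a)
      rw [AlgHom.comp_apply, Polynomial.coe_aeval_eq_eval] at h2
      exact h2
    have hQ0 : Q = 0 := poly_zero fun t ht => by
      rw [hQ]
      have h1 := hP.mem t ht a
      rw [hev, val_smul hd] at h1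
      exact (mul_eq_zero.1 h1).resolve_left (pow_ne_zero _ (hgt t ht))
    rw [← hQ, hQ0, Polynomial.eval_zero]
  refine ⟨e, fun t => ⟨fun h0 => ?_, hmem t⟩, ?_⟩
  · have h1 := congrArg (Polynomial.eval t) hc1
    rw [Polynomial.eval_finsetSum, Polynomial.eval_one] at h1
    rw [Finset.sum_eq_zero fun i _ => by
      rw [Polynomial.eval_mul, show (e i).eval t = 0 from congrFun h0 i, mul_zero]] at h1
    exact zero_ne_one h1
  · obtain ⟨t1, t2, ht1, ht2, hli⟩ := hP.nonconst
    refine ⟨t1, t2, fun c => ?_⟩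
    by_contra hcon
    push Not at hcon
    rw [LinearIndependent.pair_iff] at hli
    have h1 := hli (g.eval t2) (-(c * g.eval t1)) (by
      rw [hev, hev]
      funext i
      simp only [Pi.add_apply, Pi.smul_apply, smul_eq_mul, Pi.zero_apply]
      rw [hcon i]
      ring)
    exact hgt t2 ht2 h1.1

/-- **Varieties without rational curves.** -/
theorem kob_dom {K : Type} [Field K] [Algebra k K] {w s N h r : ℕ} (hF : HighTowers s N h F)
    (hw : 1 ≤ w) {y : Fin (n + 1) → K} (hy : SubVar F K w y) (hcomp : IsComponent F y)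
    (hN : 8 * (r * ((n + 1) * ((h + 1) * (2 * s + 1) ^ 5))) ≤ N) {L : Type} [Field L]
    [Algebra k L] [Algebra L K] [IsScalarTower k L K] [FiniteDimensional L K]
    (hr : Module.finrank L K ≤ r) {x : Fin (M + 1) → L} (hx : x 0 ≠ 0) (hgen : coords k x = ⊤)
    (hno : NoRationalCurve k x) : GeneralType k L w := by
  by_cases hR : Ruled k K
  · exact absurd hno (Pool.Agent.TH466.QT.RC.curve_of_ruled (K := K) hR hx hgen)
  · exact (abu_corr' (K := K) (K' := K) hF hw hN hy hcomp hR hr).1

end Pool.Agent.X333.DN
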