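import Pool.Agent.X333.DN.Mot
import Pool.Agent.X333.MS.Main
import Pool.Agent.TH466.QT.Fin

/-!
Nested sums of high powers whose circuits are constant: rational varieties.
-/

set_option autoImplicit false
set_option linter.unusedSectionVars false
set_option linter.overlappingInstances false

open FF MvPolynomial IntermediateField Pool.Agent.W603.LV

namespace Pool.Agent.X333.DN

open Pool.Agent.W602.GT Pool.Agent.TH466.QG Pool.Agent.TH466.QT Pool.Agent.TH710.ND
open Pool.Agent.X333.MS
open Pool.Agent.W619.TW (TensorVanish IsUnirational)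

variable {k : Type} [Field k] [CharZero k] [IsAlgClosed k] {n : ℕ} {ι : Type}
  {F : ι → MvPolynomial (Fin (n + 1)) k} {s N h : ℕ} {K : Type} [Field K] [Algebra k K]

/-- Borel's lemma for fields with constant circuits -/
theorem bor_of_const (hN : 1 ≤ N) (hcr : ∀ x ∈ cr k K s N, ∃ c : k, algebraMap k K c = x) :
    BorW (⊥ : IntermediateField k K) s N := by
  classical
  intro J _ hJ e he κ u hu hκ hsum j0 A hA
  have he0 : 0 < e := lt_of_lt_of_le hN he
  choose c hc using fun j => IntermediateField.mem_bot.1 (hκ j)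
  have h1 : ∀ j, κ j * u j ^ e = c j • u j ^ e := fun j => by rw [← hc, Algebra.smul_def]
  have h2 : ∑ j, c j • u j ^ e = 0 := by
    rw [← hsum]
    exact Finset.sum_congr rfl fun j _ => (h1 j).symm
  let R : J → J → Prop := fun i j => u i / u j ∈ (⊥ : IntermediateField k K)
  have hR : Equivalence R := by
    refine ⟨fun i => ?_, ?_, ?_⟩
    · change u i / u i ∈ _
      rw [div_self (hu i)]
      exact one_mem _
    · intro i j h
      have h3 := (⊥ : IntermediateField k K).inv_mem h
      rwa [inv_div] at h3
    · intro i j l h h'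
      have h3 := (⊥ : IntermediateField k K).mul_mem h h'
      rwa [div_mul_div_cancel₀ (hu j)] at h3
  have key := class_sum (k := k) (fun j => u j ^ e) R hR
    (by
      intro m em hem c hc hrel hlin i j
      have hcirc : IsCirc k s N m e (fun j => u (em j)) c := by
        refine ⟨?_, he, fun j => hu (em j), hc, hrel, hlin⟩
        have := Fintype.card_le_of_injective _ hem
        simp only [Fintype.card_fin] at this
        exact this.trans hJ
      obtain ⟨c0, hc0⟩ := hcr _ ⟨m, e, _, c, i, j, hcirc, rfl⟩
      have h3 : (u (em i) / u (em j)) ^ e = algebraMap k K (c0 * c j / c i) := by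
        have hi := hu (em i)
        have hj := hu (em j)
        have hci : algebraMap k K (c i) ≠ 0 := by rw [Ne, map_eq_zero]; exact hc i
        have hcj : algebraMap k K (c j) ≠ 0 := by rw [Ne, map_eq_zero]; exact hc j
        rw [map_div₀, map_mul, hc0, Algebra.smul_def, Algebra.smul_def, div_pow]
        field_simp
      obtain ⟨ρ, hρ⟩ := const_of_pow he0 h3
      exact IntermediateField.mem_bot.2 ⟨ρ, hρ⟩)
    (Finset.univ.filter fun j => c j ≠ 0).card c le_rfl h2 j0
  rw [Finset.sum_congr rfl fun j _ => h1 j, ← key]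
  exact Finset.sum_congr (by ext j; rw [hA, Finset.mem_filter]; simp [R]) fun _ _ => rfl

/-- diagonal one-parameter groups -/
theorem wc_of_bor (hF : ∀ i, IsForm (F i) ∧ NestedIn IsMono s N h (F i)) (hN : 1 ≤ N)
    (hB : BorW (⊥ : IntermediateField k K) (2 * s) N) {y : Fin (n + 1) → K} {i0 : Fin (n + 1)}
    (hi0 : y i0 ≠ 0) (hmem : ∀ i, val y (F i) = 0) {b : Fin (n + 1) → ℤ}
    (hb : ∀ γ : Fin (n + 1) → ℤ, (∃ c : k, chi (rr y i0) γ = algebraMap k K c) →
      ∑ j, γ j * b j = 0) (e : ι) (v : ℤ) : val y (wc b v (F e)) = 0 := by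
  have hK : CharZero K := charZero_of_injective_algebraMap (algebraMap k K).injective
  have hinf : Infinite K := inferInstance
  rw [← val_nrm hi0 (wc_form (hF e).1 b v)]
  obtain ⟨M, R, hR1, -, hR3⟩ := orbit_poly (k := k) (nrm y i0) b (F e)
  refine hR3 (poly_zero fun t ht => ?_) v
  rw [hR1 t ht]
  have h1 : val (fun j => t ^ b j * nrm y i0 j) (F e) = 0 := by
    refine nested_w hB hN (Lf := IsMono) (hF e).2
      ((val_nrm hi0 (hF e).1).2 (hmem e)) ⟨?_, ?_⟩
    · rintro p ⟨α, a, rfl⟩ h
      rw [aeval_mono] at h ⊢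
      rw [torus_mono (nrm y i0) b ht, mul_left_comm, h, mul_zero]
    · rintro p q ⟨α, a, rfl⟩ ⟨β, c, rfl⟩ hp hq hW
      rw [aeval_mono] at hp hq
      rw [aeval_mono, aeval_mono] at hW
      have ha : algebraMap k K a ≠ 0 := left_ne_zero_of_mul hp
      have hc0 : algebraMap k K c ≠ 0 := left_ne_zero_of_mul hq
      have hsup : ∀ γ : Fin (n + 1) →₀ ℕ, ∏ j, nrm y i0 j ^ γ j ≠ 0 →
          ∏ j, nrm y i0 j ^ γ j = ∏ j, rr y i0 j ^ γ j := by
        intro γ hγ
        refine Finset.prod_congr rfl fun j hj => ?_
        by_cases h0 : y j = 0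
        · have h2 := Finset.prod_ne_zero_iff.1 hγ j hj
          simp only [nrm, h0, zero_div] at h2 ⊢
          have h3 : γ j = 0 := by
            by_contra h3
            exact h2 (zero_pow h3)
          rw [h3, pow_zero, pow_zero]
        · rw [rr_on h0]
          rfl
      have h5 := hb (fun j => (α j : ℤ) - (β j : ℤ)) (by
        rw [IntermediateField.mem_bot] at hW
        obtain ⟨z, hz⟩ := hW
        refine ⟨z * c / a, ?_⟩
        have h2 : chi (rr y i0) (fun j => (α j : ℤ) - (β j : ℤ)) =
            (∏ j, rr y i0 j ^ α j) / ∏ j, rr y i0 j ^ β j := by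
          unfold chi
          rw [← Finset.prod_div_distrib]
          refine Finset.prod_congr rfl fun j _ => ?_
          rw [zpow_sub₀ (rr_ne hi0 j), zpow_natCast, zpow_natCast]
        rw [h2, ← hsup α (right_ne_zero_of_mul hp), ← hsup β (right_ne_zero_of_mul hq),
          map_div₀, map_mul, hz]
        have h6 := right_ne_zero_of_mul hq
        field_simp)
      simp only [sub_mul, Finset.sum_sub_distrib] at h5
      rw [aeval_mono, aeval_mono, aeval_mono, aeval_mono, torus_mono _ b ht, torus_mono _ b ht,
        sub_eq_zero.1 h5]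
      change algebraMap k K a * (t ^ (∑ j, (β j : ℤ) * b j) * ∏ j, nrm y i0 j ^ α j) *
        (algebraMap k K c * ∏ j, nrm y i0 j ^ β j) = algebraMap k K a *
        (∏ j, nrm y i0 j ^ α j) *
        (algebraMap k K c * (t ^ (∑ j, (β j : ℤ) * b j) * ∏ j, nrm y i0 j ^ β j))
      ring
  rw [h1, mul_zero]

/-- **Constant circuits.** -/
theorem rational_of_bor (hF : HighTowers s N h F) (hN : 1 ≤ N)
    (hB : BorW (⊥ : IntermediateField k K) (2 * s) N) {w : ℕ} {y : Fin (n + 1) → K}
    (hy : SubVar F K w y) (hcomp : IsComponent F y) :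
    ∃ t : Fin w → K, AlgebraicIndependent k t ∧ IntermediateField.adjoin k (Set.range t) = ⊤ := by
  rcases hF with hF | hF
  · refine rational_of_linear hy hcomp fun x hx e => ?_
    have h1 : val (fun i => algebraMap k K (x i)) (F e) = 0 := by
      refine nested_w hB hN (Lf := IsLin) (hF e) (hy.mem e) ⟨?_, ?_⟩
      · rintro p ⟨a, rfl⟩ h
        rw [aeval_lin] at h ⊢
        have h2 := hx a h
        have h3 : lin a (fun i => algebraMap k K (x i)) = algebraMap k K (lin a x) := by
          unfold lin
          rw [map_sum]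
          exact Finset.sum_congr rfl fun i _ => by
            rw [map_mul]
            rfl
        rw [h3, h2, map_zero]
      · rintro p q ⟨a, rfl⟩ ⟨b, rfl⟩ hp hq hW
        rw [aeval_lin] at hp hq
        rw [aeval_lin, aeval_lin] at hW
        obtain ⟨z, hz⟩ := IntermediateField.mem_bot.1 hW
        have hz' : lin a y = algebraMap k K z * lin b y := by
          rw [hz, div_mul_cancel₀ _ hq]
        have h2 := hx (fun m => a m - z * b m) (by
          have h4 : lin (fun m => a m - z * b m) y = lin a y - algebraMap k K z * lin b y := by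
            unfold lin
            rw [Finset.mul_sum, ← Finset.sum_sub_distrib]
            exact Finset.sum_congr rfl fun m _ => by
              rw [map_sub, map_mul]
              ring
          rw [h4, hz', sub_self])
        have h3 : ∀ a : Fin (n + 1) → k, lin a (fun i => algebraMap k K (x i)) =
            algebraMap k K (lin a x) := by
          intro a
          unfold lin
          rw [map_sum]
          exact Finset.sum_congr rfl fun i _ => by
            rw [map_mul]
            rfl
        have h4 : lin (fun m => a m - z * b m) x = lin a x - z * lin b x := by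
          unfold lin
          rw [Finset.mul_sum, ← Finset.sum_sub_distrib]
          exact Finset.sum_congr rfl fun m _ => by
            simp only [Algebra.algebraMap_self, RingHom.id_apply]
            ring
        rw [h4, sub_eq_zero] at h2
        rw [aeval_lin, aeval_lin, aeval_lin, aeval_lin, h3, h3, h2, hz', map_mul]
        simp only [Algebra.algebraMap_self, RingHom.id_apply]
        ring
    have h2 := val_map (Algebra.ofId k K) (F e) x
    have h3 : (fun i => (Algebra.ofId k K) (x i)) = fun i => algebraMap k K (x i) := rfl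
    rw [h3, h1] at h2
    exact (map_eq_zero _).1 h2
  · have hy' : SubVarU ∅ F K w y := ⟨hy.ne, fun j hj => absurd hj (Set.notMem_empty j), hy.mem,
      hy.gen, hy.dim⟩
    have hcomp' : IsComponentU ∅ F y := by
      obtain ⟨H, hH, hH0, h⟩ := hcomp
      exact ⟨H, hH, hH0, fun x hx hxH => h x ⟨hx.1, hx.2.2⟩ hxH⟩
    obtain ⟨i0, σ, b, a, c, hT, -⟩ := tor_frame_of hy' hcomp' (fun i0 b hi0 _ hoff hb e v =>
      wc_of_bor hF hN hB hi0 hy.mem hb e v)
    exact ⟨σ, hT.basis.1, hT.top⟩

/-- **Tensor differentials and Bogomolov sheaves below nested sums.** -/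
theorem quot_main' (hF : HighTowers s N h F) (hN1 : 1 ≤ N) {w : ℕ}
    {y : Fin (n + 1) → K} (hy : SubVar F K w y) (hcomp : IsComponent F y) {r : ℕ}
    (hN : r * (w * ((2 * s + 4) * ((2 * s - 1) * (2 * s - 2) / 2))) ≤ N) :
    (∃ t : Fin w → K, AlgebraicIndependent k t ∧
      IntermediateField.adjoin k (Set.range t) = ⊤) ∨
    ∀ (K' L : Type) [Field K'] [Field L] [Algebra k K'] [Algebra k L] [Algebra K K']
      [Algebra L K'] [IsScalarTower k K K'] [IsScalarTower k L K'] [Algebra.IsAlgebraic K K']
      [FiniteDimensional L K'], ((IsGalois L K' ∧ Module.finrank L K' ≤ r) ∨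
        (Module.finrank L K').factorial ≤ r) →
      (∃ b : ℕ, 1 ≤ b ∧ b ≤ w ∧ ∃ M : IntermediateField k L, GeneralType k M b) ∧
        ¬ TensorVanish k L w ∧ ¬ Special k L w (fun _ => False) := by
  by_cases hcr : ∀ x ∈ cr k K (2 * s) N, ∃ c : k, algebraMap k K c = x
  · left
    exact rational_of_bor hF hN1 (bor_of_const hN1 hcr) hy hcomp
  · right
    push Not at hcr
    intro K' L _ _ _ _ _ _ _ _ _ _ hr
    exact dom_main hN1 hy.dim hcr hN hr

end Pool.Agent.X333.DN
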