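import Pool.Agent.X333.DN.Abu
import Pool.Agent.Y221.FQ.Lift
import Pool.Agent.Y221.FQ.Mov
import Pool.Agent.Y221.FQ.Sub
import Pool.Agent.Y221.FQ.Gen

/-!
Subvarieties of the images, under finite morphisms, of projective varieties given by nested sums of
high powers.
-/

set_option autoImplicit false
set_option linter.unusedSectionVars false
set_option linter.overlappingInstances false

open FF IntermediateField Pool.Agent.W603.LV

namespace Pool.Agent.X333.DN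

open Pool.Agent.W602.GT Pool.Agent.TH466.QG Pool.Agent.TH710.ND Pool.Agent.Y221.FQ

variable {k : Type} [Field k] [IsAlgClosed k] [CharZero k] {m n M : ℕ} {ι κ μ : Type}
  {Ψ : κ → MvPolynomial (Fin (m + 1)) k} {F : ι → MvPolynomial (Fin (n + 1)) k}
  {Φ : μ → MvPolynomial (Fin (M + 1)) k} {G : Fin (M + 1) → MvPolynomial (Fin (m + 1)) k}
  {B : Fin (n + 1) → MvPolynomial (Fin (m + 1)) k}

/-- **Moving points.** -/
theorem van_nest {s N h : ℕ} (hF : HighTowers s N h F) (hN : 2 ≤ N) {K : Type} [Field K]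
    [Algebra k K] {w : ℕ} (htr : Algebra.trdeg k K = w) {y : Fin (n + 1) → K}
    (hgen : Algebra.IsAlgebraic (coords k y) K) (hmem : ∀ e, val y (F e) = 0)
    (hC : ¬ HasNest k s h N w K) {H : MvPolynomial (Fin (n + 1)) k} (hHf : IsForm H)
    (hGm : VanGm F H) : val y H = 0 := by
  rcases hF with h' | h'
  · obtain ⟨v, hv, hl⟩ := waring_n' h' hN hgen htr hmem hC
    exact van_line hv hl hHf hGm
  · obtain ⟨b, i, i', hi, hi', hb, hwc⟩ := sparse_n' (fun e => (h' e).2) hN hgen htr hmem hC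
    exact van_wt (fun e => (h' e).1) ⟨b, i, i', hi, hi', hb, hwc⟩ hGm

/-- **Subvarieties.** -/
theorem sub_van' (hΨ : ∀ e, IsForm (Ψ e)) (hB : Mor Ψ F B) (hG : Mor Ψ Φ G)
    (hon : Onto Ψ Φ G) {r s N h : ℕ} (hfib : FibresLe Ψ G r) (hF : HighTowers s N h F)
    (hN : 8 * (r * ((n + 1) * ((h + 1) * (2 * s + 1) ^ 5))) ≤ N) {K : Type} [Field K]
    [Algebra k K] {w : ℕ} {z : Fin (M + 1) → K} (hw : 1 ≤ w) (hz : SubVar Φ K w z)
    (hgt : ¬ GeneralType k K w) {H : MvPolynomial (Fin (M + 1)) k} (hHf : IsForm H)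
    (hH : ∀ x ∈ Cone Ψ, im B x ∈ SpGm F → val (im G x) H = 0) : val z H = 0 := by
  obtain ⟨E, i1, i2, i3, i4, i5, u, i0, c, hrk, hu0, huΨ, hc0, hcz, htop⟩ :=
    lift_point hΨ hG hon hfib hz.ne hz.mem
  have hu : u ≠ 0 := by
    intro h0
    rw [h0] at hu0
    exact zero_ne_one hu0
  obtain ⟨hy, hyF⟩ := hB.mem hu huΨ
  have halg := lift_alg (G := G) hΨ hB hz.gen hu0 huΨ hc0 hcz htop
  have htr : Algebra.trdeg k E = w := by rw [trdeg_alg (E := K), hz.dim]
  have hwn : w ≤ n := Pool.Agent.W602.GT.dim_le hy halg htr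
  have hr1 : 1 ≤ r := one_le_rank (L := K) (K' := E) hrk
  obtain ⟨hb1, hb2⟩ := bound_le hr1 hwn hN
  have hC : ¬ HasNest k s h N w E := by
    intro hC
    exact hgt (general_below' hw hrk hC hb1)
  refine val_prop hcz hHf (van_im hB hH hu0 huΨ fun H' hH' hGm => ?_)
  exact van_nest hF hb2 htr halg hyF hC hH' hGm

/-- The image under `G` of the inverse image under `B` of the closure of the union of the images of
the multiplicative group in `{F = 0}`. -/
def CovGm (Ψ : κ → MvPolynomial (Fin (m + 1)) k) (F : ι → MvPolynomial (Fin (n + 1)) k)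
    (B : Fin (n + 1) → MvPolynomial (Fin (m + 1)) k)
    (G : Fin (M + 1) → MvPolynomial (Fin (m + 1)) k) : Set (Fin (M + 1) → k) :=
  im G '' {x | x ∈ Cone Ψ ∧ im B x ∈ SpGm F}

/-- **Covers and their images.** -/
theorem alg_cover' (hΨ : ∀ e, IsForm (Ψ e)) (hB : Mor Ψ F B) (hG : Mor Ψ Φ G)
    (hon : Onto Ψ Φ G) {r s N h : ℕ} (hfib : FibresLe Ψ G r) (hF : HighTowers s N h F)
    (hN : 8 * (r * ((n + 1) * ((h + 1) * (2 * s + 1) ^ 5))) ≤ N) :
    SpAlg Φ ⊆ CovGm Ψ F B G := by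
  rintro q ⟨hq, h⟩
  obtain ⟨x, hx, hBx, hxq⟩ := closed_im hΨ hB hG hq.1 fun H hH hx => h H hH
    fun K _ _ w z hw hz hgt => sub_van' hΨ hB hG hon hfib hF hN hw hz hgt hH hx
  exact ⟨x, ⟨hx, hBx⟩, hxq⟩

theorem im_X' {K : Type} [Field K] [Algebra k K] (x : Fin (n + 1) → K) :
    im (fun i => (MvPolynomial.X i : MvPolynomial (Fin (n + 1)) k)) x = x := by
  funext i
  exact MvPolynomial.aeval_X _ i

theorem mor_X' : Mor F F fun i => MvPolynomial.X i :=
  ⟨⟨1, le_rfl, fun j => MvPolynomial.isHomogeneous_X k j⟩, fun x hx => by rw [im_X']; exact hx⟩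

/-- **Images.** -/
theorem alg_im' {G : Fin (M + 1) → MvPolynomial (Fin (n + 1)) k} (hΦ : ∀ e, IsForm (Φ e))
    (hG : Mor F Φ G) (hon : Onto F Φ G) {r s N h : ℕ} (hfib : FibresLe F G r)
    (hF : HighTowers s N h F) (hN : 8 * (r * ((n + 1) * ((h + 1) * (2 * s + 1) ^ 5))) ≤ N) :
    SpAlg Φ = SpGm Φ ∧ SpGm Φ = im G '' SpGm F := by
  have h3 := alg_cover' (B := fun i => MvPolynomial.X i) hF.form mor_X' hG hon hfib hF hN
  have h4 : CovGm F F (fun i => MvPolynomial.X i) G ⊆ im G '' SpGm F := by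
    rintro _ ⟨x, ⟨hx, hBx⟩, rfl⟩
    rw [im_X'] at hBx
    exact ⟨x, hBx, rfl⟩
  have h5 : im G '' SpGm F ⊆ SpGm Φ := by
    rintro _ ⟨x, hx, rfl⟩
    exact spgm_im hF.form hG hx
  have h7 : SpGm Φ ⊆ SpAlg Φ := gm_sub_alg hΦ
  exact ⟨Set.Subset.antisymm ((h3.trans h4).trans h5) h7,
    Set.Subset.antisymm (h7.trans (h3.trans h4)) h5⟩

theorem gm_empty' (h : ∀ P, ¬ GmCurve F P) : SpGm F = ∅ := by
  rw [Set.eq_empty_iff_forall_notMem]
  rintro x ⟨-, hx⟩
  have h1 := hx 1 ⟨0, MvPolynomial.isHomogeneous_one _ _⟩ fun P hP => absurd hP (h P)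
  have h2 : val x (1 : MvPolynomial (Fin (n + 1)) k) = 1 := map_one _
  rw [h2] at h1
  exact one_ne_zero h1

/-- subvarieties outside the algebraic special set -/
theorem strong_of' (hΦ : ∀ e, IsForm (Φ e)) {L : Type} [Field L] [Algebra k L] {w : ℕ}
    {z : Fin (M + 1) → L} (hw : 1 ≤ w) (hz : SubVar Φ L w z) (h : ¬ VarPts k z ⊆ SpAlg Φ) :
    GeneralType k L w ∧ StronglyGeneral k z := by
  have hT : ∃ H : MvPolynomial (Fin (M + 1)) k, IsForm H ∧ (∀ (K : Type) [Field K] [Algebra k K] (w : ℕ)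
      (y : Fin (M + 1) → K), 1 ≤ w → SubVar Φ K w y → ¬ GeneralType k K w → val y H = 0) ∧
      val z H ≠ 0 := by
    by_contra hcon
    push Not at hcon
    refine h fun x hx => ⟨⟨hx.1, fun e => hx.2 _ (hΦ e) (hz.mem e)⟩, fun H hH hPH =>
      hx.2 H hH (hcon H hH hPH)⟩
  obtain ⟨H, hH, hPH, hne⟩ := hT
  constructor
  · by_contra hgt
    exact hne (hPH L w z hw hz hgt)
  · refine ⟨H, hH, hne, fun E _ _ w' z' hz' hne' hw' htr => ?_⟩
    by_contra hgt
    exact hne' (hPH E w' z' hw' ⟨hz'.ne, fun e => hz'.spec _ (hΦ e) (hz.mem e), hz'.gen, htr⟩ hgt)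

end Pool.Agent.X333.DN
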