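import Pool.Agent.X333.DN.Gate

/-!
Specialisations which preserve the small ratios of the leaves preserve nested sums of high powers.
-/

set_option autoImplicit false
set_option linter.unusedSectionVars false

open FF MvPolynomial Pool.Agent.W603.LV Pool.Agent.W602.GT Pool.Agent.TH466.QG
  Pool.Agent.TH710.ND Pool.Agent.W603.GX Pool.Agent.W603.GY

namespace Pool.Agent.X333.DN

variable {k K : Type} [Field k] [Field K] [Algebra k K] {σ ι : Type}
  {M : Type} [CommRing M] [Algebra k M] [Algebra K M] [IsScalarTower k K M]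
  {y : σ → K} {x : σ → M} {Lf : MvPolynomial σ k → Prop} {N s c : ℕ}

/-- **Gates.** -/
theorem gate_lf (hN2 : 2 ≤ N) (hz : ∀ p, Lf p → aeval y p = 0 → aeval x p = 0)
    (hlf : ∀ A : CFam k K, GoodF N s c A → ∀ p q, Lf p → Lf q → aeval y p ≠ 0 →
      aeval y q ≠ 0 → Sm N A (aeval y p / aeval y q) →
      aeval x p * algebraMap K M (aeval y q) = algebraMap K M (aeval y p) * aeval x q)
    (L : List (ℕ × ℕ)) : Big N s L →
    (L.length * (s * s) ≤ c → ∀ p, GateL Lf L p → aeval y p = 0 → aeval x p = 0) ∧
    (∀ (c' : ℕ) (A : CFam k K), GoodF N s c' A → c' + L.length * (s * s) ≤ c →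
      ∀ p q, GateL Lf L p → GateL Lf L q → aeval y p ≠ 0 → aeval y q ≠ 0 →
        Sm N A (aeval y p / aeval y q) →
        aeval x p * algebraMap K M (aeval y q) = algebraMap K M (aeval y p) * aeval x q) := by
  induction L with
  | nil =>
    intro _
    exact ⟨fun _ p hp => hz p hp, fun c' A hA hc p q hp hq h1 h2 h3 =>
      hlf A (hA.mono (by simpa using hc)) p q hp hq h1 h2 h3⟩
  | cons ke L ih =>
    intro hL
    obtain ⟨hks, hN, he0⟩ := hL.head
    obtain ⟨ihz, ihp⟩ := ih hL.tail
    constructor
    · rintro hc p ⟨a, g, hg, rfl⟩ h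
      rw [List.length_cons] at hc
      have hc1 : 0 + s * s + L.length * (s * s) ≤ c := by nlinarith
      have hc2 : L.length * (s * s) ≤ c := by nlinarith
      rw [aeval_sum_pow] at h ⊢
      have h1 := pow_terms' (empty_good N s) hN2 hN
        (fun i => algebraMap k K (a i)) g x h
        (by rw [Fintype.card_fin]; omega) (fun j _ => Sm.of_const N _ _)
        (fun j hj => ihz hc2 (g j) (hg j) hj)
        (fun B hB i j hi hj hl => ihp _ B hB (by nlinarith) (g i) (g j) (hg i) (hg j) hi hj hl)
      simp only [← IsScalarTower.algebraMap_apply] at h1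
      exact h1
    · rintro c' A hA hc p q hp hq hp0 hq0 hl
      obtain ⟨a, g, hg, hpe⟩ := hp
      obtain ⟨b, g', hg', hqe⟩ := hq
      rw [List.length_cons] at hc
      have hc1 : c' + s * s + L.length * (s * s) ≤ c := by nlinarith
      have hc2 : L.length * (s * s) ≤ c := by nlinarith
      set lam : K := aeval y p / aeval y q with hlam
      have hlam0 : lam ≠ 0 := div_ne_zero hp0 hq0
      let G : Fin ke.1 ⊕ Fin ke.1 → MvPolynomial σ k := Sum.elim g g'
      have hG : ∀ i, GateL Lf L (G i) := by
        rintro (i | i)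
        · exact hg i
        · exact hg' i
      let κ : Fin ke.1 ⊕ Fin ke.1 → K :=
        Sum.elim (fun i => algebraMap k K (a i)) (fun i => -lam * algebraMap k K (b i))
      have hval : ∑ i, κ i * aeval y (G i) ^ ke.2 = aeval y p - lam * aeval y q := by
        rw [hpe, hqe, aeval_sum_pow, aeval_sum_pow, Fintype.sum_sum_type, Finset.mul_sum,
          sub_eq_add_neg, ← Finset.sum_neg_distrib]
        congr 1
        exact Finset.sum_congr rfl fun i _ => by
          simp only [κ, G, Sum.elim_inr]; ring
      have hval' : ∑ i, algebraMap K M (κ i) * aeval x (G i) ^ ke.2 =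
          aeval x p - algebraMap K M lam * aeval x q := by
        rw [hpe, hqe, aeval_sum_pow, aeval_sum_pow, Fintype.sum_sum_type, Finset.mul_sum,
          sub_eq_add_neg, ← Finset.sum_neg_distrib]
        congr 1
        · exact Finset.sum_congr rfl fun i _ => by
            simp only [κ, G, Sum.elim_inl]
            rw [← IsScalarTower.algebraMap_apply]
        · exact Finset.sum_congr rfl fun i _ => by
            simp only [κ, G, Sum.elim_inr]
            rw [map_mul, map_neg, ← IsScalarTower.algebraMap_apply]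
            ring
      have h1 := pow_terms' hA hN2 hN κ G x
        (by rw [hval, hlam, div_mul_cancel₀ _ hq0, sub_self])
        (by rw [Fintype.card_sum, Fintype.card_fin]; omega)
        (by
          rintro (i | i) hi
          · exact Sm.of_const N _ _
          · change -lam * algebraMap k K (b i) ≠ 0 at hi
            have hb' : algebraMap k K (b i) ≠ 0 := right_ne_zero_of_mul hi
            refine ⟨fun P => ?_, fun W hR hAW => ?_⟩
            · change (N : ℤ) * |P.ord (-lam * algebraMap k K (b i))| ≤ _
              rw [P.ord_mul (neg_ne_zero.2 hlam0) hb', P.ord_neg, ord_alg P hb', add_zero]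
              exact hl.1 P
            · exact mul_mem (neg_mem (hl.2 W hR hAW)) (W.algebraMap_mem _))
        (fun j hj => ihz hc2 (G j) (hG j) hj)
        (fun B hB i j hi hj hl' => ihp _ B hB (by nlinarith) (G i) (G j) (hG i) (hG j) hi hj hl')
      rw [hval', sub_eq_zero, hlam] at h1
      rw [h1, mul_right_comm, ← map_mul, div_mul_cancel₀ _ hq0]

/-- **Nested sums.** -/
theorem nested_lf {F : MvPolynomial σ k} {s h : ℕ} (hF : NestedIn Lf s N h F) (hN : 2 ≤ N)
    (hmem : aeval y F = 0) (hz : ∀ p, Lf p → aeval y p = 0 → aeval x p = 0)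
    (hlf : ∀ A : CFam k K, GoodF N (2 * s) ((h + 1) * (2 * s * (2 * s))) A → ∀ p q, Lf p →
      Lf q → aeval y p ≠ 0 → aeval y q ≠ 0 → Sm N A (aeval y p / aeval y q) →
      aeval x p * algebraMap K M (aeval y q) = algebraMap K M (aeval y p) * aeval x q) :
    aeval x F = 0 := by
  obtain ⟨r, e, L, c, g, hr, he, hL1, hL2, hg, hFe⟩ := hF
  have hbig : Big N (2 * s) L := by
    intro ke hke
    obtain ⟨h1, h2, h3⟩ := hL2 ke hke
    exact ⟨by omega, h3, by omega⟩
  have hlen : 0 + 2 * s * (2 * s) + L.length * (2 * s * (2 * s)) ≤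
      (h + 1) * (2 * s * (2 * s)) := by
    nlinarith [Nat.mul_le_mul_right (2 * s * (2 * s)) hL1]
  have hlen' : L.length * (2 * s * (2 * s)) ≤ (h + 1) * (2 * s * (2 * s)) :=
    Nat.mul_le_mul_right _ (by omega)
  obtain ⟨ihz, ihp⟩ := gate_lf hN hz hlf L hbig
  have h4 := pow_terms' (empty_good N (2 * s)) hN he
    (fun i => algebraMap k K (c i)) g x (by
      rw [hFe, aeval_sum_pow] at hmem
      exact hmem) (by rw [Fintype.card_fin]; omega) (fun j _ => Sm.of_const N _ _)
    (fun j hj => ihz hlen' (g j) (hg j) hj)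
    (fun B hB i j hi hj hl => ihp _ B hB hlen (g i) (g j) (hg i) (hg j) hi hj hl)
  simp only [← IsScalarTower.algebraMap_apply] at h4
  rw [hFe, aeval_sum_pow]
  exact h4

end Pool.Agent.X333.DN
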