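import Pool.Agent.X333.DN.Img
import Pool.Agent.TH710.ND.Gate
import Pool.Agent.TH710.ND.Dich
import Pool.Agent.Y221.BD.Ana

/-!
Nested sums of powers and Borel's lemma.
-/

set_option autoImplicit false
set_option linter.unusedSectionVars false
set_option linter.overlappingInstances false

open FF MvPolynomial IntermediateField Pool.Agent.W603.LV

namespace Pool.Agent.X333.DN

open Pool.Agent.TH710.ND

section gate

variable {k K : Type} [Field k] [Field K] [Algebra k K] {σ : Type} {M : Type} [CommRing M]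
  [Algebra k M] [Algebra K M] [IsScalarTower k K M]

/-- Borel's lemma for sums of at most `s` powers with exponents at least `N` and coefficients in
`W`: the sums over the classes of the terms with ratios in `W` vanish. -/
def BorW (W : IntermediateField k K) (s N : ℕ) : Prop :=
  ∀ (J : Type) [Fintype J], Fintype.card J ≤ s → ∀ e, N ≤ e → ∀ (κ u : J → K),
    (∀ j, u j ≠ 0) → (∀ j, κ j ∈ W) → ∑ j, κ j * u j ^ e = 0 →
    ∀ (j0 : J) (A : Finset J), (∀ j, j ∈ A ↔ u j0 / u j ∈ W) → ∑ j ∈ A, κ j * u j ^ e = 0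

variable {W : IntermediateField k K} {s N : ℕ}

theorem pow_sum (hB : BorW W s N) {e : ℕ} (he : N ≤ e) (he0 : 0 < e) {J : Type} [Fintype J]
    (hJ : Fintype.card J ≤ s) (κ u : J → K) (X : J → M) (hκ : ∀ j, κ j ∈ W)
    (h0 : ∀ j, u j = 0 → X j = 0)
    (hrel : ∀ i j, u i ≠ 0 → u j ≠ 0 → u i / u j ∈ W →
      X i * algebraMap K M (u j) = algebraMap K M (u i) * X j)
    (hsum : ∑ j, κ j * u j ^ e = 0) : ∑ j, algebraMap K M (κ j) * X j ^ e = 0 := by
  classical
  obtain ⟨T, hT⟩ : ∃ T : J → K, ∀ j, T j = κ j * u j ^ e := ⟨_, fun _ => rfl⟩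
  have hT0 : ∀ j, T j = 0 → algebraMap K M (κ j) * X j ^ e = 0 := by
    intro j hj
    rw [hT] at hj
    rcases mul_eq_zero.1 hj with h | h
    · rw [h, map_zero, zero_mul]
    · rw [h0 j ((pow_eq_zero_iff he0.ne').1 h), zero_pow he0.ne', mul_zero]
  have hu : ∀ j : {j // T j ≠ 0}, u j.1 ≠ 0 := by
    intro j hj
    apply j.2
    rw [hT, hj, zero_pow he0.ne', mul_zero]
  rw [← sum_sub T (fun j => algebraMap K M (κ j) * X j ^ e) hT0]
  have hTs : ∑ j : {j // T j ≠ 0}, κ j.1 * u j.1 ^ e = 0 := by
    refine (Finset.sum_congr rfl fun j _ => (hT j.1).symm).trans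
      ((sum_sub T T fun _ h => h).trans ?_)
    rw [← hsum]
    exact Finset.sum_congr rfl fun j _ => hT j
  refine class_zero (fun i j : {j // T j ≠ 0} => u i.1 / u j.1 ∈ W) ⟨fun i => ?_, ?_, ?_⟩
    (fun j : {j // T j ≠ 0} => κ j.1 * u j.1 ^ e) (fun j => by rw [← hT]; exact j.2) _ ?_ ?_
  · rw [div_self (hu i)]
    exact one_mem W
  · intro i j h
    have h1 := W.inv_mem h
    rwa [inv_div] at h1
  · intro i j l h h'
    have h1 := W.mul_mem h h'
    rwa [div_mul_div_cancel₀ (hu j)] at h1
  · intro i j hij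
    exact pow_rel (hrel i.1 j.1 (hu i) (hu j) hij)
  · intro j0 A hA
    exact hB _ ((Fintype.card_subtype_le _).trans hJ) e he (fun j : {j // T j ≠ 0} => κ j.1)
      (fun j => u j.1) hu (fun j => hκ j.1) hTs j0 A hA

/-- **Gates.** -/
theorem gate_w (hB : BorW W s N) {Lf : MvPolynomial σ k → Prop} {y : σ → K} {x : σ → M}
    (hE : Env W Lf y x) (L : List (ℕ × ℕ)) : Big N s L →
    (∀ p, GateL Lf L p → aeval y p = 0 → aeval x p = 0) ∧
    (∀ p q, GateL Lf L p → GateL Lf L q → aeval y p ≠ 0 → aeval y q ≠ 0 →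
      aeval y p / aeval y q ∈ W →
        aeval x p * algebraMap K M (aeval y q) = algebraMap K M (aeval y p) * aeval x q) := by
  induction L with
  | nil => exact fun _ => ⟨hE.z, hE.p⟩
  | cons ke L ih =>
    intro hL
    obtain ⟨h2s, he, he0⟩ := hL.head
    obtain ⟨ih1, ih2⟩ := ih hL.tail
    refine ⟨?_, ?_⟩
    · rintro p ⟨c, g, hg, rfl⟩ hp
      rw [aeval_sum_pow] at hp ⊢
      have h1 := pow_sum (M := M) hB he he0 (J := Fin ke.1) (by rw [Fintype.card_fin]; omega)
        (fun i => algebraMap k K (c i)) (fun i => aeval y (g i)) (fun i => aeval x (g i))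
        (fun i => W.algebraMap_mem _) (fun i h => ih1 _ (hg i) h)
        (fun i j hi hj hij => ih2 _ _ (hg i) (hg j) hi hj hij) hp
      rw [← h1]
      refine Finset.sum_congr rfl fun i _ => ?_
      rw [← IsScalarTower.algebraMap_apply k K M]
    · rintro p q ⟨c, g, hg, rfl⟩ ⟨d, f, hf, rfl⟩ hp hq hpq
      obtain ⟨ω, hω⟩ : ∃ ω, ω = aeval y (∑ i, C (c i) * g i ^ ke.2) /
        aeval y (∑ i, C (d i) * f i ^ ke.2) := ⟨_, rfl⟩
      rw [← hω] at hpq
      have hpω : aeval y (∑ i, C (c i) * g i ^ ke.2) =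
          ω * aeval y (∑ i, C (d i) * f i ^ ke.2) := by
        rw [hω, div_mul_cancel₀ _ hq]
      have h1 := pow_sum (M := M) hB he he0 (J := Fin ke.1 ⊕ Fin ke.1) (by
          rw [Fintype.card_sum, Fintype.card_fin]
          omega)
        (Sum.elim (fun i => algebraMap k K (c i)) fun i => -ω * algebraMap k K (d i))
        (Sum.elim (fun i => aeval y (g i)) fun i => aeval y (f i))
        (Sum.elim (fun i => aeval x (g i)) fun i => aeval x (f i))
        (by
          rintro (i | i)
          · exact W.algebraMap_mem _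
          · exact W.mul_mem (W.neg_mem hpq) (W.algebraMap_mem _))
        (by
          rintro (i | i) h
          · exact ih1 _ (hg i) h
          · exact ih1 _ (hf i) h)
        (by
          rintro (i | i) (j | j) hi hj hij
          · exact ih2 _ _ (hg i) (hg j) hi hj hij
          · exact ih2 _ _ (hg i) (hf j) hi hj hij
          · exact ih2 _ _ (hf i) (hg j) hi hj hij
          · exact ih2 _ _ (hf i) (hf j) hi hj hij)
        (by
          rw [Fintype.sum_sum_type]
          simp only [Sum.elim_inl, Sum.elim_inr]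
          rw [aeval_sum_pow, aeval_sum_pow] at hpω
          rw [hpω, Finset.mul_sum, ← Finset.sum_add_distrib]
          refine Finset.sum_eq_zero fun i _ => ?_
          ring)
      have h2 : aeval x (∑ i, C (c i) * g i ^ ke.2) =
          algebraMap K M ω * aeval x (∑ i, C (d i) * f i ^ ke.2) := by
        rw [Fintype.sum_sum_type] at h1
        simp only [Sum.elim_inl, Sum.elim_inr] at h1
        rw [aeval_sum_pow, aeval_sum_pow]
        have h3 : ∑ i, algebraMap K M (algebraMap k K (c i)) * aeval x (g i) ^ ke.2 =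
            ∑ i, algebraMap k M (c i) * aeval x (g i) ^ ke.2 :=
          Finset.sum_congr rfl fun i _ => by rw [← IsScalarTower.algebraMap_apply k K M]
        have h4 : ∑ i, algebraMap K M (-ω * algebraMap k K (d i)) * aeval x (f i) ^ ke.2 =
            -(algebraMap K M ω * ∑ i, algebraMap k M (d i) * aeval x (f i) ^ ke.2) := by
          rw [Finset.mul_sum, ← Finset.sum_neg_distrib]
          refine Finset.sum_congr rfl fun i _ => ?_
          rw [map_mul, map_neg, ← IsScalarTower.algebraMap_apply k K M]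
          ring
        rw [h3, h4] at h1
        linear_combination h1
      rw [h2, hpω, map_mul]
      ring

/-- **Nested sums.** -/
theorem nested_w {s' h : ℕ} (hB : BorW W (2 * s') N) (hN : 1 ≤ N) {Lf : MvPolynomial σ k → Prop}
    {F : MvPolynomial σ k} (hF : NestedIn Lf s' N h F) {y : σ → K} (hy : aeval y F = 0)
    {x : σ → M} (hE : Env W Lf y x) : aeval x F = 0 := by
  obtain ⟨r, e, L, c, g, hr, he, -, hL, hg, rfl⟩ := hF
  refine (gate_w hB hE ((r, e) :: L) ?_).1 _ ⟨c, g, hg, rfl⟩ hy
  intro ke hke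
  rcases List.mem_cons.1 hke with rfl | h
  · exact ⟨by omega, he, by omega⟩
  · obtain ⟨h1, h2, h3⟩ := hL ke h
    exact ⟨by omega, h3, by omega⟩

end gate

end Pool.Agent.X333.DN
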