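import Pool.Agent.X333.DN.Gate
import Pool.Agent.TH710.ND.Proj
import Pool.Agent.TH710.ND.Sp
import Pool.Agent.TH466.QG.Top

/-!
Varieties dominated by varieties with a generically finite map to a projective variety given by
nested sums of high powers.
-/

set_option autoImplicit false
set_option linter.unusedSectionVars false
set_option linter.overlappingInstances false

open FF MvPolynomial IntermediateField Pool.Agent.W603.LV Pool.Agent.W603.PV Pool.Agent.W603.GR
  Pool.Agent.W602.GT Pool.Agent.W603.GW Pool.Agent.W603.GX Pool.Agent.W603.GY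
  Pool.Agent.TH710.ND

namespace Pool.Agent.X333.DN

variable {k : Type} [Field k] {n : ℕ} {ι : Type}

/-- the family over an algebraic extension -/
noncomputable def cup {K K' : Type} [Field K] [Field K'] [Algebra k K] [Algebra k K']
    [Algebra K K'] [IsScalarTower k K K'] (A : CFam k K) : CFam k K' where
  I := A.I
  fin := A.fin
  m := A.m
  T := fun i j => algebraMap K K' (A.T i j)
  ne := fun i j => by
    rw [Ne, map_eq_zero]
    exact A.ne i j
  sum := fun i => by rw [← map_sum, A.sum i, map_zero]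
  lin := fun i => (A.lin i).map' (IsScalarTower.toAlgHom k K K').toLinearMap
    (LinearMap.ker_eq_bot.2 (algebraMap K K').injective)

theorem HasFam.up {K K' : Type} [Field K] [Field K'] [Algebra k K] [Algebra k K']
    [Algebra K K'] [IsScalarTower k K K'] [Algebra.IsAlgebraic K K'] {s c N w : ℕ}
    (h : HasFam k s c N w K) : HasFam k s c N w K' := by
  obtain ⟨A, q, a, b, p, u, hq, hbas, hcard, hms, hdich, hgen, hbd⟩ := h
  let _ : Fintype A.I := A.fin
  have hgap : ∀ (w : Place k K') (P : Place k K) (e : ℕ), Over w P e →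
      cgap (cup (K' := K') A) w = e * cgap A P := by
    intro w P e h
    have h1 : cgap A P = ∑ i, gap (A.T i) P := rfl
    have h2 : cgap (cup (K' := K') A) w =
      ∑ i, gap (fun j => algebraMap K K' (A.T i j)) w := rfl
    rw [h1, h2, Finset.mul_sum]
    exact Finset.sum_congr rfl fun i _ => gap_over (A.T i) h
  refine ⟨cup A, q, a, b, p, fun l => algebraMap K K' (u l), hq, ?_, hcard, hms, ?_, ?_, ?_⟩
  · have h1 := hbas.algebraMap_comp (A := K')
    convert h1 using 1
    funext i
    simp only [Function.comp, map_div₀]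
    rfl
  · intro w
    by_cases htriv : ∀ x : K, w.ord (algebraMap K K' x) = 0
    · left
      intro i j l
      change w.ord (algebraMap K K' (A.T i j)) = w.ord (algebraMap K K' (A.T i l))
      rw [htriv, htriv]
    · push Not at htriv
      obtain ⟨e, P, hP⟩ := exists_over (K := K) w htriv
      rcases hdich P with h1 | ⟨i, j, l, h1⟩
      · left
        intro i j l
        change w.ord (algebraMap K K' (A.T i j)) = w.ord (algebraMap K K' (A.T i l))
        rw [hP.2, hP.2, h1 i j l]
      · right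
        refine ⟨i, j, l, ?_⟩
        change (N : ℤ) ≤ |w.ord (algebraMap K K' (A.T i j)) - w.ord (algebraMap K K' (A.T i l))|
        rw [hP.2, hP.2, ← mul_sub, abs_mul, Nat.abs_cast]
        have h2 : (1 : ℤ) ≤ e := by exact_mod_cast hP.1
        have h3 : 0 ≤ |P.ord (A.T i j) - P.ord (A.T i l)| := abs_nonneg _
        nlinarith
  · intro i a b
    have h1 : ∀ x ∈ IntermediateField.adjoin k (Set.range u), algebraMap K K' x ∈
        IntermediateField.adjoin k (Set.range fun l => algebraMap K K' (u l)) := by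
      intro x hx
      have h2 : IntermediateField.adjoin k (Set.range u) ≤
          (IntermediateField.adjoin k (Set.range fun l => algebraMap K K' (u l))).comap
            (IsScalarTower.toAlgHom k K K') := by
        rw [IntermediateField.adjoin_le_iff]
        rintro _ ⟨l, rfl⟩
        exact IntermediateField.subset_adjoin k _ ⟨l, rfl⟩
      exact h2 hx
    have h2 := h1 _ (hgen i a b)
    rw [map_div₀] at h2
    exact h2
  · intro w l
    by_cases htriv : ∀ x : K, w.ord (algebraMap K K' x) = 0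
    · rw [htriv, abs_zero, mul_zero]
      exact cgap_nonneg _ _
    · push Not at htriv
      obtain ⟨e, P, hP⟩ := exists_over (K := K) w htriv
      rw [hgap w P e hP, hP.2, abs_mul, Nat.abs_cast]
      have h1 := mul_le_mul_of_nonneg_left (hbd P l) (Nat.cast_nonneg (α := ℤ) e)
      calc (N : ℤ) * (e * |P.ord (u l)|) = e * (N * |P.ord (u l)|) := by ring
        _ ≤ _ := h1

/-- the bound -/
theorem bound_le {n s h r N w : ℕ} (hr : 1 ≤ r) (hw : w ≤ n)
    (hN : 8 * (r * ((n + 1) * ((h + 1) * (2 * s + 1) ^ 5))) ≤ N) :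
    8 * (r * (w * ((h + 1) * (2 * s * (2 * s))) * ((2 * s + 1) * tn (2 * s - 1)))) ≤ N ∧
      2 ≤ N := by
  have h1 : tn (2 * s - 1) ≤ (2 * s + 1) ^ 2 := by
    rw [Pool.Agent.TH466.QG.tn_eq]
    refine (Nat.div_le_self _ _).trans ?_
    rw [pow_two]
    exact Nat.mul_le_mul (by omega) (by omega)
  have hX : 1 ≤ (2 * s + 1) ^ 5 := Nat.one_le_pow _ _ (by omega)
  have h2 : 2 * s * (2 * s) * ((2 * s + 1) * tn (2 * s - 1)) ≤ (2 * s + 1) ^ 5 := by
    calc 2 * s * (2 * s) * ((2 * s + 1) * tn (2 * s - 1))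
        ≤ (2 * s + 1) * (2 * s + 1) * ((2 * s + 1) * (2 * s + 1) ^ 2) :=
          Nat.mul_le_mul (Nat.mul_le_mul (by omega) (by omega)) (Nat.mul_le_mul le_rfl h1)
      _ = (2 * s + 1) ^ 5 := by ring
  have h3 : w * ((h + 1) * (2 * s * (2 * s))) * ((2 * s + 1) * tn (2 * s - 1)) ≤
      (n + 1) * ((h + 1) * (2 * s + 1) ^ 5) := by
    calc w * ((h + 1) * (2 * s * (2 * s))) * ((2 * s + 1) * tn (2 * s - 1)) =
          w * ((h + 1) * (2 * s * (2 * s) * ((2 * s + 1) * tn (2 * s - 1)))) := by ring
      _ ≤ (n + 1) * ((h + 1) * (2 * s + 1) ^ 5) :=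
          Nat.mul_le_mul (by omega) (Nat.mul_le_mul_left _ h2)
  refine ⟨(Nat.mul_le_mul_left 8 (Nat.mul_le_mul_left r h3)).trans hN, ?_⟩
  refine le_trans ?_ hN
  have h4 : 1 ≤ r * ((n + 1) * ((h + 1) * (2 * s + 1) ^ 5)) :=
    Nat.one_le_iff_ne_zero.2 (by positivity)
  omega

section dich

variable [CharZero k] [IsAlgClosed k] {F : ι → MvPolynomial (Fin (n + 1)) k} {s N h : ℕ}
  {K : Type} [Field K] [Algebra k K] {w : ℕ} {y : Fin (n + 1) → K}

/-- the families for nested sums -/
def HasNest (k : Type) [Field k] (s h N w : ℕ) (K : Type) [Field K] [Algebra k K] : Prop :=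
  HasFam k (2 * s) (w * ((h + 1) * (2 * s * (2 * s)))) N w K

/-- **Lines.** -/
theorem waring_n' (hF : ∀ i, IsNested s N h (F i)) (hN : 2 ≤ N)
    (halg : Algebra.IsAlgebraic (coords k y) K) (hdim : Algebra.trdeg k K = w)
    (hmem : ∀ i, val y (F i) = 0) (hC : ¬ HasNest k s h N w K) :
    ∃ v : Fin (n + 1) → K, (∃ i j, y i * v j - y j * v i ≠ 0) ∧
      ∀ (c c' : K) i, val (fun l => c * y l + c' * v l) (F i) = 0 := by
  obtain ⟨D, hD0, hD⟩ := der_of_not' (Lf := IsLin) (fun i => hF i) hN hdim hmem hC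
  refine ⟨fun i => D (y i), moves halg hD0, fun c c' i => hD K _ ⟨?_, ?_⟩ i⟩
  · rintro p ⟨a, rfl⟩ h
    rw [aeval_lin] at h ⊢
    rw [lin_add_smul, lin_der, h, map_zero, mul_zero, mul_zero, add_zero]
  · rintro p q ⟨a, rfl⟩ ⟨b, rfl⟩ hp hq hW
    rw [aeval_lin] at hp hq
    rw [aeval_lin, aeval_lin] at hW
    rw [aeval_lin, aeval_lin, aeval_lin, aeval_lin, lin_add_smul, lin_add_smul, lin_der, lin_der]
    have h1 : D (lin a y / lin b y) = 0 := hW
    rw [D.leibniz_div] at h1
    rw [smul_eq_zero, or_iff_right (pow_ne_zero 2 (inv_ne_zero hq))] at h1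
    simp only [smul_eq_mul] at h1
    change (c * lin a y + c' * D (lin a y)) * lin b y = lin a y * (c * lin b y + c' * D (lin b y))
    linear_combination c' * h1

/-- **Tori.** -/
theorem sparse_n' (hF : ∀ i, NestedIn IsMono s N h (F i)) (hN : 2 ≤ N)
    (halg : Algebra.IsAlgebraic (coords k y) K) (hdim : Algebra.trdeg k K = w)
    (hmem : ∀ i, val y (F i) = 0) (hC : ¬ HasNest k s h N w K) :
    ∃ (b : Fin (n + 1) → ℤ) (i i' : Fin (n + 1)), y i ≠ 0 ∧ y i' ≠ 0 ∧ b i ≠ b i' ∧
      ∀ e v, val y (wc b v (F e)) = 0 := by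
  have hK : CharZero K := charZero_of_injective_algebraMap (algebraMap k K).injective
  have hinf : Infinite K := inferInstance
  obtain ⟨D, hD0, hD⟩ := der_of_not' hF hN hdim hmem hC
  obtain ⟨i, i', hii⟩ := moves halg hD0
  have hyi : y i ≠ 0 := by
    intro h0
    apply hii
    rw [h0, map_zero]
    ring
  have hyi' : y i' ≠ 0 := by
    intro h0
    apply hii
    rw [h0, map_zero]
    ring
  have hlam : D (y i) / y i ≠ D (y i') / y i' := by
    intro h0
    apply hii
    field_simp at h0
    linear_combination -h0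
  obtain ⟨b, hb, hb2⟩ := int_weights (fun j => D (y j) / y j) hlam
  refine ⟨b, i, i', hyi, hyi', hb, fun e v => ?_⟩
  obtain ⟨M, R, hR1, -, hR3⟩ := orbit_poly (k := k) y b (F e)
  refine hR3 (poly_zero fun t ht => ?_) v
  rw [hR1 t ht]
  have h1 : val (fun j => t ^ b j * y j) (F e) = 0 := by
    refine hD K _ ⟨?_, ?_⟩ e
    · rintro p ⟨α, a, rfl⟩ h
      rw [aeval_mono] at h ⊢
      rw [torus_mono y b ht, mul_left_comm, h, mul_zero]
    · rintro p q ⟨α, a, rfl⟩ ⟨β, c, rfl⟩ hp hq hW
      rw [aeval_mono] at hp hq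
      rw [aeval_mono, aeval_mono] at hW
      have h2 : D (algebraMap k K a * ∏ j, y j ^ α j) * (algebraMap k K c * ∏ j, y j ^ β j) =
          (algebraMap k K a * ∏ j, y j ^ α j) * D (algebraMap k K c * ∏ j, y j ^ β j) := by
        have h1 : D ((algebraMap k K a * ∏ j, y j ^ α j) /
          (algebraMap k K c * ∏ j, y j ^ β j)) = 0 := hW
        rw [D.leibniz_div] at h1
        rw [smul_eq_zero, or_iff_right (pow_ne_zero 2 (inv_ne_zero hq))] at h1
        simp only [smul_eq_mul] at h1
        linear_combination h1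
      rw [der_mon D hp, der_mon D hq] at h2
      have h4 : ∑ j, (α j : K) * (D (y j) / y j) = ∑ j, (β j : K) * (D (y j) / y j) := by
        apply mul_left_cancel₀ (mul_ne_zero hp hq)
        linear_combination h2
      have h5 := hb2 (fun j => (α j : ℤ) - (β j : ℤ)) (by
        push_cast
        simp only [sub_mul, Finset.sum_sub_distrib]
        rw [h4, sub_self])
      simp only [sub_mul, Finset.sum_sub_distrib] at h5
      rw [aeval_mono, aeval_mono, aeval_mono, aeval_mono, torus_mono y b ht, torus_mono y b ht,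
        sub_eq_zero.1 h5]
      change algebraMap k K a * (t ^ (∑ j, (β j : ℤ) * b j) * ∏ j, y j ^ α j) *
        (algebraMap k K c * ∏ j, y j ^ β j) = algebraMap k K a * (∏ j, y j ^ α j) *
        (algebraMap k K c * (t ^ (∑ j, (β j : ℤ) * b j) * ∏ j, y j ^ β j))
      ring
  rw [h1, mul_zero]

/-- **The dichotomy for components.** -/
theorem fam_or_ruled (hF : HighTowers s N h F) (hN : 2 ≤ N) (hy : SubVar F K w y)
    (hcomp : IsComponent F y) (hC : ¬ HasNest k s h N w K) :
    ∃ (C : IntermediateField k K) (σ : K), Transcendental C σ ∧ C⟮σ⟯ = ⊤ := by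
  have hgen : Algebra.IsAlgebraic (coords k y) K := by
    rw [hy.gen]
    infer_instance
  rcases hF with h | h
  · obtain ⟨D, hD0, hD⟩ := der_of_not' (Lf := IsLin) (fun i => h i) hN hy.dim hy.mem hC
    obtain ⟨i0, hi0'⟩ := Function.ne_iff.1 hy.ne
    have hi0 : y i0 ≠ 0 := hi0'
    have hyQ : SubVarQ F (Empty.elim : Empty → MvPolynomial (Fin (n + 1)) k) K w y :=
      ⟨hy.ne, hy.mem, fun j => j.elim, hy.gen, hy.dim⟩
    have hcompQ : IsComponentQ F (Empty.elim : Empty → MvPolynomial (Fin (n + 1)) k) y := by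
      obtain ⟨H, h1, h2, h3⟩ := hcomp
      exact ⟨H, h1, h2, fun x hx => h3 x ⟨hx.1, hx.2.1⟩⟩
    have hG' : Good F (Empty.elim : Empty → MvPolynomial (Fin (n + 1)) k) y (PrD D y)
        Empty.elim :=
      ⟨fun p hp => ⟨hp.1, hp.2.1⟩, fun M _ _ _ _ x hx i =>
        hD M x (env_of_inV (W := consts D) hx) i, fun j => j.elim, fun M _ _ _ _ x _ j => j.elim⟩
    obtain ⟨C, c, τ, z, e, hfd, h1, h2, h3, h4⟩ := flow_of_der (fun j => j.elim) hyQ hcompQ hD0
      hG' (ls := Pi.single i0 1) (by rw [lin_single]; exact hi0)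
    exact ⟨C, τ, hfd.trans, hfd.top⟩
  · obtain ⟨b, i, i', hi, hi', hb, hwc⟩ := sparse_n' (fun e => (h e).2) hN hgen hy.dim hy.mem hC
    have hyU : SubVarU ∅ F K w y :=
      ⟨hy.ne, fun j hj => absurd hj (Set.notMem_empty j), hy.mem, hy.gen, hy.dim⟩
    have hcompU : IsComponentU ∅ F y := by
      obtain ⟨H, hH, hHy, hcone⟩ := hcomp
      exact ⟨H, hH, hHy, fun x hx hxH => hcone x (mem_cone_empty hx) hxH⟩
    obtain ⟨δ, σ, -, -, hσ0, hσ, htop, -⟩ := exists_delta hy.gen b hi hi' hb
      (fun G hG h0 v => ideal_hom hyU hcompU hwc G hG h0 v)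
    refine ⟨consts δ, σ, ?_, htop⟩
    intro halg
    have h1 : Algebra.IsAlgebraic (consts δ) K := by
      have h2 : Algebra.IsAlgebraic (consts δ) (consts δ)⟮σ⟯ :=
        IntermediateField.isAlgebraic_adjoin_simple halg.isIntegral
      constructor
      intro z
      have h3 := h2.isAlgebraic (⟨z, by rw [htop]; exact IntermediateField.mem_top⟩ : (consts δ)⟮σ⟯)
      exact h3.algebraMap (A := K)
    have h2 : Algebra.IsAlgebraic (IntermediateField.adjoin k (consts δ : Set K)) K := by
      rw [IntermediateField.adjoin_self]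
      exact h1
    have h3 := der_eq_zero δ _ h2 (fun s hs => hs)
    rw [h3] at hσ
    exact hσ0 hσ.symm

end dich

end Pool.Agent.X333.DN
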