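import Pool.Agent.X333.DN.Mot
import Pool.Agent.Y221.FQ.Gen

/-!
Entire curves in the images, under finite morphisms, of projective varieties given by nested sums of
high powers.
-/

set_option autoImplicit false
set_option maxHeartbeats 400000
set_option linter.overlappingInstances false
set_option linter.unusedSectionVars false

open FF IntermediateField Pool.Agent.W603.LV Filter

namespace Pool.Agent.X333.DN

open Pool.Agent.W602.GT Pool.Agent.TH466.QG Pool.Agent.TH710.ND Pool.Agent.Y221.FQ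
open Pool.Agent.Y221.AB Pool.Agent.TH143.EL Pool.Agent.Y221.BD

section ana

variable {E : Type} [Field E] [Algebra MK E] [Algebra ℂ E] [IsScalarTower ℂ MK E]
  [FiniteDimensional MK E] {n : ℕ} {ι : Type} {F : ι → MvPolynomial (Fin (n + 1)) ℂ}

/-- Borel's lemma for algebroid functions -/
theorem bor_bot {r s N : ℕ} (hfin : Module.finrank MK E ≤ r) (hN : NB r s ≤ N) :
    BorW (⊥ : IntermediateField ℂ E) s N := by
  intro J _ hJ e he κ u hu hκ hsum j0 A hA
  choose c hc using fun j => IntermediateField.mem_bot.1 (hκ j)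
  have h1 : ∀ j, κ j * u j ^ e = c j • u j ^ e := fun j => by rw [← hc, Algebra.smul_def]
  have h2 : ∑ j, c j • u j ^ e = 0 := by
    rw [← hsum]
    exact Finset.sum_congr rfl fun j _ => (h1 j).symm
  rw [Finset.sum_congr rfl fun j _ => h1 j]
  refine bor_cls hfin hJ (hN.trans he) hu c h2 j0 A fun j => (hA j).trans ?_
  rw [IntermediateField.mem_bot]
  constructor
  · rintro ⟨a, ha⟩
    refine ⟨a, ?_, ?_⟩
    · rintro rfl
      rw [map_zero] at ha
      exact div_ne_zero (hu j0) (hu j) ha.symm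
    · rw [ha, div_mul_cancel₀ _ (hu j)]
  · rintro ⟨a, -, ha⟩
    refine ⟨a, ?_⟩
    rw [ha, mul_div_cancel_right₀ _ (hu j)]

/-- **Algebroid points.** -/
theorem ana_nest {r s N h : ℕ} (hfin : Module.finrank MK E ≤ r) (hN : NB r (2 * s) ≤ N)
    (hF : HighTowers s N h F) {y : Fin (n + 1) → E} {i0 : Fin (n + 1)} (hi0 : y i0 ≠ 0)
    (hyF : ∀ e, val y (F e) = 0) : Cst i0 y ∨ LnMv F y ∨ WtMv F y := by
  by_cases hc : Cst i0 y
  · exact Or.inl hc
  right
  obtain ⟨D, i1, hi1⟩ := exists_vec hi0 hc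
  refine mv_of_bor hF ((one_le_NB r _).trans hN) (bor_bot hfin hN) hyF
    (D := D) bot_le ⟨i0, i1, fun h0 => hi1 ?_⟩
  rw [D.leibniz_div]
  simp only [smul_eq_mul]
  rw [h0, mul_zero]

end ana

variable {m n M : ℕ} {ι κ μ : Type}
  {Ψ : κ → MvPolynomial (Fin (m + 1)) ℂ} {F : ι → MvPolynomial (Fin (n + 1)) ℂ}
  {Φ : μ → MvPolynomial (Fin (M + 1)) ℂ} {G : Fin (M + 1) → MvPolynomial (Fin (m + 1)) ℂ}
  {B : Fin (n + 1) → MvPolynomial (Fin (m + 1)) ℂ}

/-- **Entire curves.** -/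
theorem entire_van' (hΨ : ∀ e, IsForm (Ψ e)) (hB : Mor Ψ F B) (hG : Mor Ψ Φ G)
    (hon : Onto Ψ Φ G) {r s N h : ℕ} (hfib : FibresLe Ψ G r) (hF : HighTowers s N h F)
    (hN : NB r (2 * s) ≤ N) {f : ℂ → Fin (M + 1) → ℂ} (hf : Entire Φ f)
    {H : MvPolynomial (Fin (M + 1)) ℂ} (hHf : IsForm H)
    (hH : ∀ x ∈ Cone Ψ, im B x ∈ SpGm F → val (im G x) H = 0) (t : ℂ) : val (f t) H = 0 := by
  classical
  obtain ⟨f', hf'⟩ : ∃ f' : Fin (M + 1) → ℂ → ℂ, ∀ i t, f' i t = f t i := ⟨_, fun _ _ => rfl⟩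
  have hff : ∀ t, (fun i => f' i t) = f t := fun t => funext fun i => hf' i t
  have hhol : ∀ i, Differentiable ℂ (f' i) := by
    intro i
    have : f' i = fun t => f t i := funext (hf' i)
    rw [this]
    exact hf.hol i
  have hmer : ∀ i, Meromorphic (f' i) := fun i t =>
    ((hhol i).analyticAt t).meromorphicAt
  obtain ⟨z, hzdef⟩ : ∃ z : Fin (M + 1) → MK, z = fun i => cl (f' i) (hmer i) := ⟨_, rfl⟩
  have hcont : ∀ T : MvPolynomial (Fin (M + 1)) ℂ,
      Continuous fun t => MvPolynomial.eval (fun i => f' i t) T := fun T =>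
    (MvPolynomial.continuous_eval T).comp (continuous_pi fun i => (hhol i).continuous)
  have hvz : ∀ T : MvPolynomial (Fin (M + 1)) ℂ, val z T = 0 ↔ ∀ t, val (f t) T = 0 := by
    intro T
    rw [hzdef, val_cl hmer T, cl_eq_zero]
    have h1 : ∀ t, MvPolynomial.eval (fun i => f' i t) T = val (f t) T := by
      intro t
      rw [hff]
      unfold Pool.Agent.W602.GT.val
      rw [MvPolynomial.aeval_eq_eval]
    constructor
    · intro h t
      rw [← h1]
      exact eq_of_codis (g := fun _ => 0) h (hcont T).continuousAt continuousAt_const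
    · intro h
      exact Eventually.of_forall fun t => (h1 t).trans (h t)
  have hzj : ∀ (a : ℂ) i j, z i = algebraMap ℂ MK a * z j → ∀ t, f t i = a * f t j := by
    intro a i j h t
    have h1 := (hvz (MvPolynomial.X i - MvPolynomial.C a * MvPolynomial.X j)).1 (by
      unfold Pool.Agent.W602.GT.val
      rw [map_sub, map_mul, MvPolynomial.aeval_X, MvPolynomial.aeval_X, MvPolynomial.aeval_C, h,
        sub_self]) t
    unfold Pool.Agent.W602.GT.val at h1
    rw [map_sub, map_mul, MvPolynomial.aeval_X, MvPolynomial.aeval_X, MvPolynomial.aeval_C,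
      sub_eq_zero] at h1
    exact h1
  have hz : z ≠ 0 := by
    intro h0
    apply (hf.mem 0).1
    funext i
    have h1 := hzj 0 i i (by rw [h0]; simp) 0
    rw [h1, zero_mul]
    rfl
  have hzΦ : ∀ e, val z (Φ e) = 0 := fun e => (hvz _).2 fun t => (hf.mem t).2 e
  obtain ⟨E, i1, i2, i3, i4, i5, u, i0, c, hrk, hu0, huΨ, hc0, hcz, -⟩ :=
    lift_point hΨ hG hon hfib hz hzΦ
  have hu : u ≠ 0 := by
    intro h0
    rw [h0] at hu0
    exact zero_ne_one hu0
  obtain ⟨hy, hyF⟩ := hB.mem hu huΨ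
  obtain ⟨j1, hj1'⟩ := Function.ne_iff.1 hy
  have hj1 : im B u j1 ≠ 0 := hj1'
  -- the constant case
  have hcst : ¬ Cst j1 (im B u) := by
    intro hc
    have h1 := coords_cst hj1 hc
    have h2 : ∀ i, ∃ a : ℂ, algebraMap ℂ E a = u i := by
      intro i
      have h3 := fin_alg hΨ hB (i0 := i0) (by rw [hu0]; exact one_ne_zero) huΨ i
      rw [h1, hu0, div_one] at h3
      exact alg_mem h3
    choose a ha using h2
    have h3 : ∀ j, im G u j = algebraMap ℂ E (im G a j) := by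
      intro j
      have h4 := val_map (Algebra.ofId ℂ E) (G j) a
      have h5 : (fun i => (Algebra.ofId ℂ E) (a i)) = u := funext ha
      rw [h5] at h4
      exact h4.symm
    obtain ⟨b, hb'⟩ := Function.ne_iff.1 hz
    have hb : z b ≠ 0 := hb'
    have hbE : algebraMap MK E (z b) ≠ 0 := by
      rw [Ne, map_eq_zero]
      exact hb
    have hub : im G a b ≠ 0 := by
      intro h0
      have h4 := hcz b
      rw [h3, h0, map_zero, mul_zero] at h4
      exact hbE h4
    have h4 : ∀ j, z j = algebraMap ℂ MK (im G a j / im G a b) * z b := by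
      intro j
      apply (algebraMap MK E).injective
      have hub' : algebraMap ℂ E (im G a b) ≠ 0 := by
        rw [Ne, map_eq_zero]
        exact hub
      rw [map_mul, ← IsScalarTower.algebraMap_apply ℂ MK E, hcz, hcz, h3, h3, map_div₀]
      field_simp
    obtain ⟨t1, t2, hli⟩ := hf.nonconst
    rw [LinearIndependent.pair_iff] at hli
    have h5 : ∀ t i, f t i = im G a i / im G a b * f t b := fun t i => hzj _ _ _ (h4 i) t
    have h6 := hli (f t2 b) (-(f t1 b)) (by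
      funext i
      simp only [Pi.add_apply, Pi.smul_apply, smul_eq_mul, Pi.zero_apply]
      rw [h5 t1 i, h5 t2 i]
      ring)
    apply (hf.mem t2).1
    funext i
    rw [h5 t2 i, h6.1, mul_zero]
    rfl
  have hvan : ∀ H', IsForm H' → VanGm F H' → val (im B u) H' = 0 := by
    intro H' hH' hGm
    rcases ana_nest hrk hN hF hj1 hyF with h1 | ⟨v, hv, hl⟩ | h1
    · exact absurd h1 hcst
    · exact van_line hv hl hH' hGm
    · exact van_wt hF.form h1 hGm
  have h1 := van_im hB hH hu0 huΨ hvan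
  exact (hvz H).1 (val_prop hcz hHf h1) t

/-! ### the bounds -/

theorem pow_five_le (s : ℕ) : 2 * (2 * s + 1) ^ 5 ≤ 5 * 10 ^ (2 * s) := by
  induction s with
  | zero => norm_num
  | succ s ih =>
    rcases Nat.lt_or_ge s 1 with h | h
    · have : s = 0 := by omega
      subst this
      norm_num
    · have h1 : (2 * (s + 1) + 1) ^ 5 ≤ 100 * (2 * s + 1) ^ 5 := by
        have h2 : 2 * (s + 1) + 1 ≤ 2 * (2 * s + 1) := by omega
        calc (2 * (s + 1) + 1) ^ 5 ≤ (2 * (2 * s + 1)) ^ 5 := Nat.pow_le_pow_left h2 5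
          _ = 32 * (2 * s + 1) ^ 5 := by ring
          _ ≤ 100 * (2 * s + 1) ^ 5 := Nat.mul_le_mul_right _ (by norm_num)
      calc 2 * (2 * (s + 1) + 1) ^ 5 ≤ 2 * (100 * (2 * s + 1) ^ 5) := Nat.mul_le_mul_left _ h1
        _ = 100 * (2 * (2 * s + 1) ^ 5) := by ring
        _ ≤ 100 * (5 * 10 ^ (2 * s)) := Nat.mul_le_mul_left _ ih
        _ = 5 * 10 ^ (2 * (s + 1)) := by ring

theorem four_le (r : ℕ) : 20 * r ≤ 4 * (r + 1) ^ 7 := by
  rcases Nat.eq_zero_or_pos r with rfl | h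
  · norm_num
  · have h1 : 2 ^ 6 ≤ (r + 1) ^ 6 := Nat.pow_le_pow_left (by omega) 6
    calc 20 * r ≤ 4 * (2 ^ 6 * (r + 1)) := by omega
      _ ≤ 4 * ((r + 1) ^ 6 * (r + 1)) := Nat.mul_le_mul_left _ (Nat.mul_le_mul_right _ h1)
      _ = 4 * (r + 1) ^ 7 := by ring

/-- the bound -/
theorem bound_alg {n h r s N : ℕ}
    (hN : (n + 1) * ((h + 1) * (4 * 10 ^ (2 * s) * (r + 1) ^ 7)) ≤ N) :
    8 * (r * ((n + 1) * ((h + 1) * (2 * s + 1) ^ 5))) ≤ N := by
  refine le_trans ?_ hN
  have h1 : 8 * (r * (2 * s + 1) ^ 5) ≤ 4 * 10 ^ (2 * s) * (r + 1) ^ 7 := by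
    calc 8 * (r * (2 * s + 1) ^ 5) = 4 * r * (2 * (2 * s + 1) ^ 5) := by ring
      _ ≤ 4 * r * (5 * 10 ^ (2 * s)) := Nat.mul_le_mul_left _ (pow_five_le s)
      _ = 20 * r * 10 ^ (2 * s) := by ring
      _ ≤ 4 * (r + 1) ^ 7 * 10 ^ (2 * s) := Nat.mul_le_mul_right _ (four_le r)
      _ = 4 * 10 ^ (2 * s) * (r + 1) ^ 7 := by ring
  calc 8 * (r * ((n + 1) * ((h + 1) * (2 * s + 1) ^ 5))) =
        (n + 1) * ((h + 1) * (8 * (r * (2 * s + 1) ^ 5))) := by ring
    _ ≤ _ := Nat.mul_le_mul_left _ (Nat.mul_le_mul_left _ h1)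

end Pool.Agent.X333.DN
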