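import Pool.Agent.X333.DN.Gal
import Pool.Agent.TH710.ND.Rel

/-!
Families of circuits with jumps whose ratios lie in fields generated by elements of small orders.
-/

set_option autoImplicit false
set_option linter.unusedSectionVars false

open FF Pool.Agent.W603.LV Pool.Agent.W602.GT Pool.Agent.TH466.QG Pool.Agent.TH710.ND

namespace Pool.Agent.X333.DN

variable {k K : Type} [Field k] [Field K] [Algebra k K]

theorem cgap_nonneg (A : CFam k K) (P : Place k K) : 0 ≤ cgap A P := by
  unfold cgap
  exact Finset.sum_nonneg fun i _ => gap_nonneg (A.T i) P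

theorem cgap_const {A : CFam k K} {P : Place k K} (h : A.Const P) : cgap A P = 0 := by
  unfold cgap
  refine Finset.sum_eq_zero fun i _ => gap_zero fun j => ?_
  obtain ⟨j', hj'⟩ := exists_mu (A.T i) P
  rw [← hj', h i j j']

theorem cgap_sigma {J : Type} [Fintype J] (A : J → CFam k K) (P : Place k K) :
    cgap (CFam.sigma A) P = ∑ j, cgap (A j) P := by
  unfold cgap
  exact @Fintype.sum_sigma J (fun j => (A j).I) ℤ _ (fun j => (A j).fin) _ _

theorem cgap_le_sigma {J : Type} [Fintype J] (A : J → CFam k K) (P : Place k K) (j : J) :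
    cgap (A j) P ≤ cgap (CFam.sigma A) P := by
  rw [cgap_sigma]
  exact Finset.single_le_sum (f := fun j => cgap (A j) P) (fun i _ => cgap_nonneg (A i) P)
    (Finset.mem_univ j)

theorem cgap_ext {A : CFam k K} {J : Type} {T : J → K} {hT : ∀ j, T j ≠ 0} {Pr : Type}
    [Fintype Pr] {C : Pr → CD k T} (P : Place k K) :
    cgap (A.ext T hT C) P = cgap A P + ∑ p, gap (fun l => (C p).c l • T ((C p).e l)) P := by
  unfold CFam.ext
  rw [cgap_sigma, Fintype.sum_option]
  congr 1
  refine Finset.sum_congr rfl fun p _ => ?_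
  unfold cgap
  exact Fintype.sum_unique (ι := Unit) _

/-- The ratios of `A` lie in the field generated by the elements of `U`, which have small
orders. -/
structure Fine (N : ℕ) (A : CFam k K) (U : Set K) : Prop where
  fin : U.Finite
  mem : ∀ i a b, A.T i a / A.T i b ∈ IntermediateField.adjoin k U
  bd : ∀ P : Place k K, ∀ u ∈ U, (N : ℤ) * |P.ord u| ≤ cgap A P

/-- the good families -/
def GoodF (N s c : ℕ) (A : CFam k K) : Prop :=
  A.Ok (fun _ => False) N s c ∧ ∃ U : Set K, Fine N A U

/-- `κ` has small order and lies in the fields, closed under roots, which contain the ratios. -/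
def Sm (N : ℕ) (A : CFam k K) (κ : K) : Prop :=
  (∀ P : Place k K, (N : ℤ) * |P.ord κ| ≤ cgap A P) ∧
    ∀ W : IntermediateField k K, Root W → A.In W → κ ∈ W

theorem Sm.of_const (N : ℕ) (A : CFam k K) (a : k) : Sm N A (algebraMap k K a) := by
  refine ⟨fun P => ?_, fun W _ _ => W.algebraMap_mem _⟩
  by_cases h : algebraMap k K a = 0
  · rw [h, P.ord_zero, abs_zero, mul_zero]
    exact cgap_nonneg A P
  · rw [P.ord_const fun h0 => h (by rw [h0, map_zero]), abs_zero, mul_zero]
    exact cgap_nonneg A P

theorem empty_good (N s : ℕ) : GoodF N s 0 (CFam.empty k K) :=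
  ⟨CFam.empty_ok, ∅, Set.finite_empty, fun i => i.elim, fun _ u hu => absurd hu
    (Set.notMem_empty u)⟩

/-- the thresholds between the orders of two equivalent elements are crossed by circuits -/
theorem eqv_bound {J Pr : Type} [Fintype Pr] (v : J → ℤ) (mu' g' : Pr → ℤ)
    (R0 : J → J → Prop)
    (h0 : ∀ i j, R0 i j → ∃ p, (mu' p ≤ v i ∧ v i ≤ mu' p + g' p) ∧
      (mu' p ≤ v j ∧ v j ≤ mu' p + g' p)) (hg : ∀ p, 0 ≤ g' p) {i j : J}
    (h : Relation.EqvGen R0 i j) : |v i - v j| ≤ ∑ p, g' p := by
  classical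
  have key : ∀ i j, Relation.EqvGen R0 i j → v j - v i ≤ ∑ p, g' p := by
    intro i j h
    have h1 : ((Finset.Ioc (v i) (v j)).card : ℤ) ≤ ∑ p, g' p := by
      have hsub : Finset.Ioc (v i) (v j) ⊆
          Finset.univ.biUnion fun p => Finset.Ioc (mu' p) (mu' p + g' p) := by
        intro t ht
        rw [Finset.mem_Ioc] at ht
        by_contra hcon
        rw [Finset.mem_biUnion] at hcon
        push Not at hcon
        have h2 : ∀ a b, R0 a b → (v a < t ↔ v b < t) := by
          intro a b hab
          obtain ⟨p, ⟨h3, h4⟩, h5, h6⟩ := h0 a b hab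
          have h7 := hcon p (Finset.mem_univ p)
          rw [Finset.mem_Ioc] at h7
          push Not at h7
          by_cases h8 : mu' p < t
          · have h9 := h7 h8
            constructor <;> intro _ <;> omega
          · constructor <;> intro _ <;> omega
        have h3 : ∀ a b, Relation.EqvGen R0 a b → (v a < t ↔ v b < t) := by
          intro a b hab
          induction hab with
          | rel a b h => exact h2 a b h
          | refl a => exact Iff.rfl
          | symm a b _ ih => exact ih.symm
          | trans a b c _ _ ih1 ih2 => exact ih1.trans ih2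
        have h4 := (h3 i j h).1 ht.1
        omega
      have h2 := (Finset.card_le_card hsub).trans Finset.card_biUnion_le
      have h3 : ∀ p, ((Finset.Ioc (mu' p) (mu' p + g' p)).card : ℤ) = g' p := by
        intro p
        rw [Int.card_Ioc]
        have := hg p
        omega
      calc ((Finset.Ioc (v i) (v j)).card : ℤ) ≤
            ((∑ p, (Finset.Ioc (mu' p) (mu' p + g' p)).card : ℕ) : ℤ) := by exact_mod_cast h2
        _ = ∑ p, g' p := by
          push_cast
          exact Finset.sum_congr rfl fun p _ => h3 p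
    rw [Int.card_Ioc] at h1
    omega
  rw [abs_le]
  have h1 := key i j h
  have h2 := key j i (h.symm _ _)
  constructor <;> linarith

theorem rel_classes' {N s c' e : ℕ}
    {A : CFam k K} (hA : A.Ok (fun _ => False) N s c') (he : N ≤ e) {J : Type} [Fintype J]
    (T : J → K) (hT : ∀ j, T j ≠ 0) (hsum : ∑ j, T j = 0) (hcard : Fintype.card J ≤ s)
    (hdiv : ∀ P, A.Const P → ∀ i j, (e : ℤ) ∣ P.ord (T i) - P.ord (T j)) :
    ∃ (R : J → J → Prop) (Pr : Type) (_ : Fintype Pr) (C : Pr → CD k T), Equivalence R ∧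
      (A.ext T hT C).Ok (fun _ => False) N s (c' + s * s) ∧
      (∀ p a b, R ((C p).e a) ((C p).e b)) ∧
      (∀ W : IntermediateField k K, (A.ext T hT C).In W → ∀ i j, R i j → T i / T j ∈ W) ∧
      (∀ (P : Place k K) i j, R i j →
        |P.ord (T i) - P.ord (T j)| ≤ cgap (A.ext T hT C) P - cgap A P) ∧
      ∀ (j0 : J) (S : Finset J), (∀ j, j ∈ S ↔ R j0 j) → ∑ j ∈ S, T j = 0 := by
  classical
  let R0 : J → J → Prop := fun i j => ∃ (C : CD k T) (a b : Fin (C.m + 1)),
    C.e a = i ∧ C.e b = j
  let Pr : Type := {p : J × J // R0 p.1 p.2}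
  have hPr : ∀ p : Pr, R0 p.1.1 p.1.2 := fun p => p.2
  choose C a b ha hb using hPr
  have hsz : ∀ p : Pr, (C p).m + 1 ≤ s := fun p => by
    have := Fintype.card_le_of_injective _ (C p).he
    simp only [Fintype.card_fin] at this
    exact this.trans hcard
  have hBok : (A.ext T hT C).Ok (fun _ => False) N s (c' + s * s) := by
    refine ⟨?_, ?_, fun P hP => ?_⟩
    · unfold CFam.ext
      rw [CFam.sigma_card, Fintype.sum_option]
      refine Nat.add_le_add hA.card ?_
      have h1 : ∀ p : Pr, @Fintype.card ((some p).elim A fun p =>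
          CFam.single (fun l => (C p).c l • T ((C p).e l))
            (fun l => smul_ne_zero ((C p).hc l) (hT _)) (C p).rel (C p).lin).I
          ((some p).elim A fun p =>
          CFam.single (fun l => (C p).c l • T ((C p).e l))
            (fun l => smul_ne_zero ((C p).hc l) (hT _)) (C p).rel (C p).lin).fin = 1 :=
        fun p => rfl
      rw [Finset.sum_congr rfl fun p _ => h1 p, Finset.sum_const, Finset.card_univ, smul_eq_mul,
        mul_one]
      refine (Fintype.card_subtype_le _).trans ?_
      rw [Fintype.card_prod]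
      exact Nat.mul_le_mul hcard hcard
    · rintro ⟨o, i⟩
      cases o with
      | none => exact hA.sz i
      | some p => exact hsz p
    · rcases hA.dich P hP with hAc | hAj
      · by_cases hall : ∀ (p : Pr) (j l : Fin ((C p).m + 1)),
            P.ord ((C p).c j • T ((C p).e j)) = P.ord ((C p).c l • T ((C p).e l))
        · left
          unfold CFam.ext
          rw [CFam.sigma_const]
          intro o
          cases o with
          | none => exact hAc
          | some p => exact fun _ j l => hall p j l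
        · right
          push Not at hall
          obtain ⟨p, j, l, hjl⟩ := hall
          refine CFam.sigma_jump.2 ⟨some p, (), j, l, ?_⟩
          change (N : ℤ) ≤ |P.ord ((C p).c j • T ((C p).e j)) -
            P.ord ((C p).c l • T ((C p).e l))|
          rw [ord_smul' P ((C p).hc _), ord_smul' P ((C p).hc _)] at hjl ⊢
          have h1 := hdiv P hAc ((C p).e j) ((C p).e l)
          have h2 : (e : ℤ) ≤ |P.ord (T ((C p).e j)) - P.ord (T ((C p).e l))| :=
            Int.le_of_dvd (abs_pos.2 (sub_ne_zero.2 hjl)) ((dvd_abs _ _).2 h1)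
          refine le_trans ?_ h2
          exact_mod_cast he
      · exact Or.inr (CFam.sigma_jump.2 ⟨none, hAj⟩)
  have hBD : ∀ W : IntermediateField k K, (A.ext T hT C).In W → ∀ p : Pr,
      T p.1.1 / T p.1.2 ∈ W := by
    intro W hW p
    have h1 := CFam.ext_mem hW p (a p) (b p)
    rwa [ha, hb] at h1
  refine ⟨Relation.EqvGen R0, Pr, inferInstance, C, Relation.EqvGen.is_equivalence R0, hBok,
    ?_, ?_, ?_, ?_⟩
  · intro p a b
    exact Relation.EqvGen.rel _ _ ⟨C p, a, b, rfl, rfl⟩
  · intro W hW i j hij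
    induction hij with
    | rel i j h => exact hBD W hW ⟨(i, j), h⟩
    | refl i =>
      rw [div_self (hT i)]
      exact one_mem _
    | symm i j _ ih =>
      rw [← inv_div]
      exact inv_mem ih
    | trans i j l _ _ ih1 ih2 =>
      have h1 : T i / T l = (T i / T j) * (T j / T l) := by
        have := hT j
        field_simp
      rw [h1]
      exact mul_mem ih1 ih2
  · intro P i j hij
    rw [cgap_ext, add_sub_cancel_left]
    refine eqv_bound (fun j => P.ord (T j)) (fun p => mu (fun l => (C p).c l • T ((C p).e l)) P)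
      (fun p => gap (fun l => (C p).c l • T ((C p).e l)) P) R0 (fun i j hij => ?_)
      (fun p => gap_nonneg _ P) hij
    have h2 : ∀ (p : Pr) (l : Fin ((C p).m + 1)),
        mu (fun l => (C p).c l • T ((C p).e l)) P ≤ P.ord (T ((C p).e l)) ∧
        P.ord (T ((C p).e l)) ≤ mu (fun l => (C p).c l • T ((C p).e l)) P +
          gap (fun l => (C p).c l • T ((C p).e l)) P := by
      intro p l
      have h3 := mu_le (fun l => (C p).c l • T ((C p).e l)) P l
      rw [ord_smul' P ((C p).hc _)] at h3
      refine ⟨h3, ?_⟩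
      obtain ⟨l', hl'⟩ := exists_mu (fun l => (C p).c l • T ((C p).e l)) P
      have h4 := le_gap (fun l => (C p).c l • T ((C p).e l)) P l l'
      rw [hl', ord_smul' P ((C p).hc _)] at h4
      have h5 := (abs_le.1 h4).2
      linarith
    refine ⟨⟨(i, j), hij⟩, ?_, ?_⟩
    · have h3 := h2 ⟨(i, j), hij⟩ (a ⟨(i, j), hij⟩)
      rw [ha] at h3
      exact h3
    · have h3 := h2 ⟨(i, j), hij⟩ (b ⟨(i, j), hij⟩)
      rw [hb] at h3
      exact h3
  · intro j0 S hS
    have key := class_sum (k := k) T (Relation.EqvGen R0) (Relation.EqvGen.is_equivalence R0)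
      (by
        intro m em hem c hc hrel hlin i j
        exact Relation.EqvGen.rel _ _ ⟨⟨m, em, hem, c, hc, hrel, hlin⟩, i, j, rfl, rfl⟩)
      (Finset.univ.filter fun j => (fun _ : J => (1 : k)) j ≠ 0).card (fun _ => 1) le_rfl
      (by simpa using hsum) j0
    simp only [one_smul] at key
    rw [← key]
    exact Finset.sum_congr (by ext j; simp [hS]) (fun _ _ => rfl)

/-- **The classes of a relation between powers with small coefficients.** -/
theorem classes' {N s c' e : ℕ} {A : CFam k K} (hA : GoodF N s c' A) (hN : 2 ≤ N) (he : N ≤ e)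
    {J : Type} [Fintype J] (κ g : J → K) (hκ : ∀ j, κ j ≠ 0) (hg : ∀ j, g j ≠ 0)
    (hsm : ∀ j, Sm N A (κ j)) (hsum : ∑ j, κ j * g j ^ e = 0) (hcard : Fintype.card J ≤ s) :
    ∃ (R : J → J → Prop) (B : CFam k K), Equivalence R ∧ GoodF N s (c' + s * s) B ∧
      (∀ W : IntermediateField k K, B.In W → A.In W) ∧
      (∀ P : Place k K, cgap A P ≤ cgap B P) ∧
      (∀ i j, R i j → Sm N B (g i / g j)) ∧
      ∀ (j0 : J) (S : Finset J), (∀ j, j ∈ S ↔ R j0 j) → ∑ j ∈ S, κ j * g j ^ e = 0 := by
  classical
  obtain ⟨hAok, U, hU⟩ := hA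
  have hT : ∀ j, κ j * g j ^ e ≠ 0 := fun j => mul_ne_zero (hκ j) (pow_ne_zero _ (hg j))
  have hordT : ∀ (P : Place k K) j, P.ord (κ j * g j ^ e) = P.ord (κ j) + e * P.ord (g j) :=
    fun P j => by rw [P.ord_mul (hκ j) (pow_ne_zero _ (hg j)), P.ord_pow]
  have hNz : (0 : ℤ) < N := by
    have : 0 < N := by omega
    exact_mod_cast this
  obtain ⟨R, Pr, _, C, h1, h2, h3, h4, h5, h6⟩ := rel_classes' hAok he
    (fun j => κ j * g j ^ e) hT hsum hcard (fun P hP i j => by
      have h0 : ∀ j, P.ord (κ j) = 0 := by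
        intro j
        have := (hsm j).1 P
        rw [cgap_const hP] at this
        have h7 : |P.ord (κ j)| ≤ 0 := by
          by_contra hcon
          push Not at hcon
          have := mul_pos hNz hcon
          linarith
        exact abs_nonpos_iff.1 h7
      rw [hordT, hordT, h0, h0]
      exact ⟨P.ord (g i) - P.ord (g j), by ring⟩)
  set B := A.ext (fun j => κ j * g j ^ e) hT C with hB
  have hAB : ∀ P : Place k K, cgap A P ≤ cgap B P := by
    intro P
    rw [hB, cgap_ext]
    have : 0 ≤ ∑ p, gap (fun l => (C p).c l • (κ ((C p).e l) * g ((C p).e l) ^ e)) P :=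
      Finset.sum_nonneg fun p _ => gap_nonneg _ P
    linarith
  have hordg : ∀ (P : Place k K) i j, R i j → (N : ℤ) * |P.ord (g i / g j)| ≤ cgap B P := by
    intro P i j hij
    rw [P.ord_div (hg i) (hg j)]
    have h7 := h5 P i j hij
    change |P.ord (κ i * g i ^ e) - P.ord (κ j * g j ^ e)| ≤ cgap B P - cgap A P at h7
    rw [hordT, hordT] at h7
    have h8 := (hsm i).1 P
    have h9 := (hsm j).1 P
    have h10 := cgap_nonneg A P
    have h11 := hAB P
    have he' : (N : ℤ) ≤ e := by exact_mod_cast he
    have hN2 : (2 : ℤ) ≤ N := by exact_mod_cast hN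
    have h12 : (e : ℤ) * |P.ord (g i) - P.ord (g j)| ≤
        (cgap B P - cgap A P) + |P.ord (κ i)| + |P.ord (κ j)| := by
      have h13 : (e : ℤ) * |P.ord (g i) - P.ord (g j)| =
          |(e : ℤ) * (P.ord (g i) - P.ord (g j))| := by
        rw [abs_mul, Nat.abs_cast]
      rw [h13]
      have h14 : (e : ℤ) * (P.ord (g i) - P.ord (g j)) =
          (P.ord (κ i) + e * P.ord (g i) - (P.ord (κ j) + e * P.ord (g j))) -
            P.ord (κ i) + P.ord (κ j) := by ring
      rw [h14]
      calc |(P.ord (κ i) + e * P.ord (g i) - (P.ord (κ j) + e * P.ord (g j))) -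
            P.ord (κ i) + P.ord (κ j)| ≤
            |(P.ord (κ i) + e * P.ord (g i) - (P.ord (κ j) + e * P.ord (g j))) -
              P.ord (κ i)| + |P.ord (κ j)| := abs_add_le _ _
        _ ≤ |P.ord (κ i) + e * P.ord (g i) - (P.ord (κ j) + e * P.ord (g j))| +
              |P.ord (κ i)| + |P.ord (κ j)| := by
            have := abs_sub (P.ord (κ i) + e * P.ord (g i) - (P.ord (κ j) + e * P.ord (g j)))
              (P.ord (κ i))
            linarith
        _ ≤ _ := by linarith
    have h15 : (e : ℤ) * ((N : ℤ) * |P.ord (g i) - P.ord (g j)|) ≤ e * cgap B P := by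
      have h16 := mul_le_mul_of_nonneg_left h12 hNz.le
      have h17 : (N : ℤ) * (cgap B P - cgap A P) ≤ e * (cgap B P - cgap A P) :=
        mul_le_mul_of_nonneg_right he' (by linarith)
      have h18 : 2 * cgap A P ≤ e * cgap A P := mul_le_mul_of_nonneg_right (by linarith) h10
      nlinarith
    have hepos : (0 : ℤ) < e := by linarith
    exact le_of_mul_le_mul_left h15 hepos
  have hWg : ∀ i j, R i j → ∀ W : IntermediateField k K, Root W → B.In W → g i / g j ∈ W := by
    intro i j hij W hroot hW
    have h7 := h4 W hW i j hij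
    have hWA : A.In W := CFam.ext_in hW
    have h8 : (g i / g j) ^ e = (κ i * g i ^ e / (κ j * g j ^ e)) * κ j * (κ i)⁻¹ := by
      have := hκ i
      have := hκ j
      have := hg j
      rw [div_pow]
      field_simp
    refine hroot _ e (by omega) ?_
    rw [h8]
    exact mul_mem (mul_mem h7 ((hsm j).2 W hroot hWA)) (inv_mem ((hsm i).2 W hroot hWA))
  refine ⟨R, B, h1, ⟨h2, U ∪ (Set.range κ ∪ {x | ∃ i j, R i j ∧ x = g i / g j}), ?_, ?_, ?_⟩,
    fun W h => CFam.ext_in h, hAB, fun i j hij => ⟨fun P => hordg P i j hij, hWg i j hij⟩, h6⟩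
  · refine hU.fin.union ((Set.finite_range κ).union ?_)
    refine (Set.finite_range fun p : J × J => g p.1 / g p.2).subset ?_
    rintro x ⟨i, j, -, rfl⟩
    exact ⟨(i, j), rfl⟩
  · have hUle : IntermediateField.adjoin k U ≤ IntermediateField.adjoin k
        (U ∪ (Set.range κ ∪ {x | ∃ i j, R i j ∧ x = g i / g j})) :=
      IntermediateField.adjoin.mono k _ _ Set.subset_union_left
    rintro ⟨o, i⟩ a b
    cases o with
    | none => exact hUle (hU.mem i a b)
    | some p =>
      change ((C p).c a • (κ ((C p).e a) * g ((C p).e a) ^ e)) /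
        ((C p).c b • (κ ((C p).e b) * g ((C p).e b) ^ e)) ∈ _
      rw [mem_smul ((C p).hc _) ((C p).hc _)]
      have h7 : κ ((C p).e a) * g ((C p).e a) ^ e / (κ ((C p).e b) * g ((C p).e b) ^ e) =
          κ ((C p).e a) * (κ ((C p).e b))⁻¹ * (g ((C p).e a) / g ((C p).e b)) ^ e := by
        have := hκ ((C p).e b)
        have := hg ((C p).e b)
        rw [div_pow]
        field_simp
      rw [h7]
      refine mul_mem (mul_mem ?_ (inv_mem ?_)) (pow_mem ?_ _)
      · exact IntermediateField.subset_adjoin k _ (Or.inr (Or.inl ⟨_, rfl⟩))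
      · exact IntermediateField.subset_adjoin k _ (Or.inr (Or.inl ⟨_, rfl⟩))
      · exact IntermediateField.subset_adjoin k _ (Or.inr (Or.inr ⟨_, _, h3 p a b, rfl⟩))
  · rintro P x (hx | ⟨j, rfl⟩ | ⟨i, j, hij, rfl⟩)
    · exact (hU.bd P x hx).trans (hAB P)
    · exact ((hsm j).1 P).trans (hAB P)
    · exact hordg P i j hij

end Pool.Agent.X333.DN
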