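import Pool.Agent.X333.DN.Gen
import Pool.Agent.TH466.QG.Gal
import Pool.Agent.TH710.ND.Fam

/-!
Passage to the Galois closure: fields below a field with a family of circuits with jumps.
-/

set_option autoImplicit false
set_option linter.overlappingInstances false
set_option linter.unusedSectionVars false

open FF IntermediateField Pool.Agent.W603.LV Pool.Agent.TH466.QG Pool.Agent.TH710.ND

namespace Pool.Agent.X333.DN

open Pool.Agent.W602.GT (GeneralType tn)
open Pool.Agent.W619.PQ (Inert)

/-- the subfield on which two embeddings agree -/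
def eqF {k K L : Type} [Field k] [Field K] [Algebra k K] [Field L] [Algebra k L]
    (φ ψ : K →ₐ[k] L) : IntermediateField k K :=
  { AlgHom.equalizer φ ψ with
    inv_mem' := fun x hx => by
      have h1 : φ x = ψ x := hx
      change φ x⁻¹ = ψ x⁻¹
      rw [map_inv₀, map_inv₀, h1] }

/-- the sum of the gaps of the circuits of a family -/
noncomputable def cgap {k K : Type} [Field k] [Field K] [Algebra k K] (A : CFam k K)
    (P : Place k K) : ℤ :=
  letI := A.fin
  ∑ i, gap (A.T i) P

/-- `K` has a family of at most `c` circuits with at most `s` members with jumps at least `N`, the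
ratios in which generate a field over which `K` is algebraic; the ratios lie in the field generated
by elements `u` whose orders are small compared to the jumps. -/
def HasFam (k : Type) [Field k] (s c N n : ℕ) (K : Type) [Field K] [Algebra k K] : Prop :=
  ∃ (A : CFam k K) (q : Fin n → A.I) (a b : ∀ l, Fin (A.m (q l) + 1)) (p : ℕ)
    (u : Fin (p + 1) → K), Function.Injective q ∧
    IsTranscendenceBasis k (fun l => A.T (q l) (a l) / A.T (q l) (b l)) ∧
    @Fintype.card A.I A.fin ≤ c ∧ (∀ i, A.m i + 1 ≤ s) ∧
    (∀ P : Place k K, A.Const P ∨ A.Jump P N) ∧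
    (∀ i a b, A.T i a / A.T i b ∈ IntermediateField.adjoin k (Set.range u)) ∧
    ∀ (P : Place k K) l, (N : ℤ) * |P.ord (u l)| ≤ cgap A P

section

variable {k M F K : Type} [Field k] [CharZero k] [IsAlgClosed k] [Field M] [Field F] [Field K]
  [Algebra k M] [Algebra k F] [Algebra k K] [Algebra F K] [Algebra F M] [Algebra K M]
  [IsScalarTower k F K] [IsScalarTower k F M] [IsScalarTower k K M] [IsScalarTower F K M]

omit [CharZero k] [IsAlgClosed k] in
theorem mu_over {m : ℕ} (T : Fin (m + 1) → K) {w : Place k M} {P : Place k K} {e : ℕ}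
    (h : Over w P e) : mu (fun j => algebraMap K M (T j)) w = e * mu T P := by
  have he : (0 : ℤ) ≤ e := by positivity
  apply le_antisymm
  · obtain ⟨j, hj⟩ := exists_mu T P
    have h1 := mu_le (fun j => algebraMap K M (T j)) w j
    rw [h.2, hj] at h1
    exact h1
  · obtain ⟨j, hj⟩ := exists_mu (fun j => algebraMap K M (T j)) w
    rw [← hj, h.2]
    exact mul_le_mul_of_nonneg_left (mu_le T P j) he

omit [CharZero k] [IsAlgClosed k] in
theorem gap_over {m : ℕ} (T : Fin (m + 1) → K) {w : Place k M} {P : Place k K} {e : ℕ}
    (h : Over w P e) : gap (fun j => algebraMap K M (T j)) w = e * gap T P := by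
  unfold gap
  rw [Finset.mul_sum]
  refine Finset.sum_congr rfl fun j _ => ?_
  rw [h.2, mu_over T h]
  ring

omit [CharZero k] [IsAlgClosed k] in
theorem gap_triv {m : ℕ} (T : Fin (m + 1) → K) {w : Place k M}
    (h : ∀ x : K, w.ord (algebraMap K M x) = 0) : gap (fun j => algebraMap K M (T j)) w = 0 := by
  refine gap_zero fun j => ?_
  obtain ⟨j', hj'⟩ := exists_mu (fun j => algebraMap K M (T j)) w
  rw [← hj', h, h]

/-- **The theorem on subfields of a field with a family of circuits**, when a Galois closure is
given. -/
theorem general_galois' [FiniteDimensional F M] [IsGalois F M] [FiniteDimensional F K]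
    {s c N n r : ℕ} (hn1 : 1 ≤ n) (hr : Module.finrank F K ≤ r) (hC : HasFam k s c N n K)
    (hN : 8 * (r * (c * ((s + 1) * tn (s - 1)))) ≤ N) : GeneralType k F n := by
  classical
  obtain ⟨A, q, a, b, p, u, hq, hbas, hcard, hms, hdich, hgen, hbd⟩ := hC
  let _ : Fintype A.I := A.fin
  have hfin : Finite (fixg k M F) := fixg_finite
  have halg : Algebra.IsAlgebraic K M := by
    have : Algebra.IsAlgebraic F M := inferInstance
    exact Algebra.IsAlgebraic.tower_top (K := F) K
  have hbas' := hbas.algebraMap_comp (A := M)
  have hMn : Algebra.trdeg k M = n := by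
    have := hbas'.cardinalMk_eq_trdeg
    rw [← this]
    simp
  obtain ⟨e⟩ := exists_equiv (k := k) (M := M) (F := F)
  refine general_of_equiv e ?_
  set H := fixK k M F K with hHdef
  have hHr : H.index ≤ r := index_le.trans hr
  have hinj := (algebraMap K M).injective
  have hHfix : ∀ h ∈ H, ∀ x : K, (h : M ≃ₐ[k] M) (algebraMap K M x) = algebraMap K M x :=
    fun h hh x => hh x
  obtain ⟨γ, hγ⟩ := exists_generic (Γ := fixg k M F) (fun j => algebraMap K M (u j))
  set z : M := ∑ j, γ j • algebraMap K M (u j) with hz
  have hzH : ∀ h ∈ H, (h : M ≃ₐ[k] M) z = z := by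
    intro h hh
    rw [hz, map_sum]
    refine Finset.sum_congr rfl fun j _ => ?_
    rw [map_smul, hHfix h hh]
  obtain ⟨Y, hYc, hYm, hY⟩ := exists_rep z H hzH
  let T : ∀ i, Fin (A.m i + 1) → M := fun i j => algebraMap K M (A.T i j)
  let ν : Place k M → ℤ := fun w =>
    ((Finset.univ.sup fun j => (w.ord (algebraMap K M (u j))).natAbs : ℕ) : ℤ)
  have hWt : Wt A.m ≤ c * ((s + 1) * tn (s - 1)) := by
    unfold Wt
    calc ∑ i, (A.m i + 2) * tn (A.m i) ≤ ∑ _i : A.I, (s + 1) * tn (s - 1) := by
          refine Finset.sum_le_sum fun i _ => Nat.mul_le_mul ?_ (tn_mono ?_)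
          · have := hms i
            omega
          · have := hms i
            omega
      _ = Fintype.card A.I * ((s + 1) * tn (s - 1)) := by simp
      _ ≤ c * ((s + 1) * tn (s - 1)) := Nat.mul_le_mul_right _ hcard
  have hN8 : 8 * (r * Wt A.m) ≤ N :=
    (Nat.mul_le_mul_left 8 (Nat.mul_le_mul_left r hWt)).trans hN
  have hνle : ∀ (w : Place k M) j, |w.ord (algebraMap K M (u j))| ≤ ν w := by
    intro w j
    have h1 : (w.ord (algebraMap K M (u j))).natAbs ≤
        Finset.univ.sup fun j => (w.ord (algebraMap K M (u j))).natAbs :=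
      Finset.le_sup (f := fun j => (w.ord (algebraMap K M (u j))).natAbs) (Finset.mem_univ j)
    change |w.ord (algebraMap K M (u j))| ≤ ((Finset.univ.sup fun j =>
      (w.ord (algebraMap K M (u j))).natAbs : ℕ) : ℤ)
    rw [Int.abs_eq_natAbs]
    exact_mod_cast h1
  have hνex : ∀ w : Place k M, ∃ j, ν w = |w.ord (algebraMap K M (u j))| := by
    intro w
    obtain ⟨j, -, hj⟩ := Finset.exists_mem_eq_sup Finset.univ Finset.univ_nonempty
      (fun j => (w.ord (algebraMap K M (u j))).natAbs)
    refine ⟨j, ?_⟩
    change ((Finset.univ.sup fun j => (w.ord (algebraMap K M (u j))).natAbs : ℕ) : ℤ) = _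
    rw [hj, Int.abs_eq_natAbs]
  have hgapw : ∀ (w : Place k M) (P : Place k K) (e : ℕ), Over w P e →
      ∑ i, gap (T i) w = e * cgap A P := by
    intro w P e h
    have h1 : cgap A P = ∑ i, gap (A.T i) P := rfl
    rw [h1, Finset.mul_sum]
    exact Finset.sum_congr rfl fun i _ => gap_over (A.T i) h
  have htrans : ∀ i, IsTranscendenceBasis k (fun l => A.T (q l) (a l) / A.T (q l) (b l)) →
      Transcendental k (A.T (q i) (a i) / A.T (q i) (b i)) := fun i h => h.1.transcendental i
  have hS : NSys T z Y ν r H :=
    { ne := fun i j => by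
        change algebraMap K M (A.T i j) ≠ 0
        rw [Ne, map_eq_zero]
        exact A.ne i j
      sum := fun i => by
        change ∑ j, algebraMap K M (A.T i j) = 0
        rw [← map_sum, A.sum i, map_zero]
      lin := fun i => by
        exact (A.lin i).map' (IsScalarTower.toAlgHom k K M).toLinearMap
          (LinearMap.ker_eq_bot.2 hinj)
      gen := by
        intro g hg i a b
        have h1 : ∀ j, (g : M ≃ₐ[k] M) (algebraMap K M (u j)) = algebraMap K M (u j) :=
          hγ g hg
        have h2 : IntermediateField.adjoin k (Set.range u) ≤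
            eqF (((g : M ≃ₐ[k] M) : M →ₐ[k] M).comp (IsScalarTower.toAlgHom k K M))
              (IsScalarTower.toAlgHom k K M) := by
          rw [IntermediateField.adjoin_le_iff]
          rintro _ ⟨j, rfl⟩
          exact h1 j
        have h3 : (g : M ≃ₐ[k] M) (algebraMap K M (A.T i a / A.T i b)) =
            algebraMap K M (A.T i a / A.T i b) := h2 (hgen i a b)
        change (g : M ≃ₐ[k] M) (algebraMap K M (A.T i a) / algebraMap K M (A.T i b)) =
          algebraMap K M (A.T i a) / algebraMap K M (A.T i b)
        rw [← map_div₀]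
        exact h3
      hr := hHr
      Yc := hYc.trans hHr
      hY := fun g hg => hY g hg
      Ym := fun τ hτ => hYm τ hτ
      ν0 := fun w => by positivity
      νz := fun w => by
        rw [hz]
        refine Ge.sum _ _ fun j _ => ?_
        rw [Algebra.smul_def]
        have h1 : Ge w (-ν w) (algebraMap K M (u j)) := by
          right
          have h2 := hνle w j
          have h3 := neg_abs_le (w.ord (algebraMap K M (u j)))
          linarith
        simpa using (Ge.const (P := w) (γ j)).mul h1
      νg := fun w => by
        by_cases htriv : ∀ x : K, w.ord (algebraMap K M x) = 0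
        · have h1 : ∑ i, gap (T i) w = 0 :=
            Finset.sum_eq_zero fun i _ => gap_triv (A.T i) htriv
          obtain ⟨j, hj⟩ := hνex w
          rw [h1, hj, htriv, abs_zero, mul_zero]
        · push Not at htriv
          obtain ⟨e, P, hP⟩ := exists_over (K := K) w htriv
          obtain ⟨j, hj⟩ := hνex w
          rw [hgapw w P e hP, hj, hP.2, abs_mul]
          have h1 := hbd P j
          have h2 : ((8 * (r * Wt A.m) : ℕ) : ℤ) * |P.ord (u j)| ≤ N * |P.ord (u j)| :=
            mul_le_mul_of_nonneg_right (by exact_mod_cast hN8) (abs_nonneg _)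
          have h3 : (0 : ℤ) ≤ e := by positivity
          rw [abs_of_nonneg h3]
          calc ((8 * (r * Wt A.m) : ℕ) : ℤ) * (e * |P.ord (u j)|) =
              e * (((8 * (r * Wt A.m) : ℕ) : ℤ) * |P.ord (u j)|) := by ring
            _ ≤ e * cgap A P := mul_le_mul_of_nonneg_left (h2.trans h1) h3
      jump := by
        rintro w J hJ ⟨i, j, hij⟩
        by_cases htriv : ∀ x : K, w.ord (algebraMap K M x) = 0
        · exfalso
          apply hij
          obtain ⟨j', hj'⟩ := exists_mu (T i) w
          rw [← hj']
          change w.ord (algebraMap K M (A.T i j)) = w.ord (algebraMap K M (A.T i j'))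
          rw [htriv, htriv]
        · push Not at htriv
          obtain ⟨e, P, hP⟩ := exists_over (K := K) w htriv
          have hnc : ¬ A.Const P := by
            intro hc
            apply hij
            obtain ⟨j', hj'⟩ := exists_mu (T i) w
            rw [← hj']
            change w.ord (algebraMap K M (A.T i j)) = w.ord (algebraMap K M (A.T i j'))
            rw [hP.2, hP.2, hc i j j']
          obtain ⟨i1, j1, l1, h1⟩ := (hdich P).resolve_left hnc
          have h2 : (N : ℤ) ≤ cgap A P := by
            refine h1.trans ((le_gap (A.T i1) P j1 l1).trans ?_)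
            exact Finset.single_le_sum (f := fun i => gap (A.T i) P)
              (fun i _ => gap_nonneg (A.T i) P) (Finset.mem_univ i1)
          have h3 : ((Nat.card (J ⊓ H : Subgroup (fixg k M F)) : ℕ) : ℤ) ≤ e := by
            obtain ⟨x, hx0, hx⟩ := P.surj
            have h4 : ((Nat.card (J ⊓ H : Subgroup (fixg k M F)) : ℕ) : ℤ) ∣
                w.ord (algebraMap K M x) :=
              dvd_of_fixed (J := J ⊓ H) (fun g hg => hJ g (Subgroup.mem_inf.1 hg).1)
                (by rwa [Ne, map_eq_zero]) fun g hg => hHfix g (Subgroup.mem_inf.1 hg).2 x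
            rw [hP.2, hx, mul_one] at h4
            exact Int.le_of_dvd (by exact_mod_cast hP.1) h4
          rw [hgapw w P e hP]
          have h5 : ((2 * (r * Wt A.m) : ℕ) : ℤ) ≤ N := by
            have : 2 * (r * Wt A.m) ≤ N := by omega
            exact_mod_cast this
          have h6 : (0 : ℤ) ≤ e := by positivity
          calc ((2 * (r * Wt A.m) : ℕ) : ℤ) * ((Nat.card (J ⊓ H : Subgroup (fixg k M F)) : ℕ) : ℤ)
              ≤ ((2 * (r * Wt A.m) : ℕ) : ℤ) * e :=
                mul_le_mul_of_nonneg_left h3 (by positivity)
            _ ≤ N * e := mul_le_mul_of_nonneg_right h5 h6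
            _ ≤ cgap A P * e := mul_le_mul_of_nonneg_right h2 h6
            _ = e * cgap A P := mul_comm _ _
      hW := by
        unfold Wt
        have h1 : 0 < (A.m (q ⟨0, hn1⟩) + 2) * tn (A.m (q ⟨0, hn1⟩)) := by
          refine Nat.mul_pos (by omega) (tn_pos ?_)
          exact two_le (A.ne _) (A.sum _) (htrans ⟨0, hn1⟩ hbas)
        exact lt_of_lt_of_le h1
          (Finset.single_le_sum (f := fun i => (A.m i + 2) * tn (A.m i)) (fun i _ => Nat.zero_le _)
            (Finset.mem_univ _)) }
  refine general_of_nsys hMn hS hq a b ?_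
  convert hbas' using 1
  funext i
  simp only [Function.comp, map_div₀]
  rfl

end

/-- **The theorem on subfields of a field with a family of circuits.** -/
theorem general_below' {k F K : Type} [Field k] [CharZero k] [IsAlgClosed k] [Field F] [Field K]
    [Algebra k F] [Algebra k K] [Algebra F K] [IsScalarTower k F K] [FiniteDimensional F K]
    {s c N n r : ℕ} (hn1 : 1 ≤ n) (hr : Module.finrank F K ≤ r) (hC : HasFam k s c N n K)
    (hN : 8 * (r * (c * ((s + 1) * tn (s - 1)))) ≤ N) : GeneralType k F n := by
  have hF : CharZero F := charZero_of_injective_algebraMap (algebraMap k F).injective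
  let L := AlgebraicClosure K
  have h1 : IsScalarTower F K L := inferInstance
  have h2 : IsScalarTower k K L := inferInstance
  have h3 : IsScalarTower k F L := IsScalarTower.of_algebraMap_eq fun x => by
    rw [IsScalarTower.algebraMap_apply k K L, IsScalarTower.algebraMap_apply F K L,
      IsScalarTower.algebraMap_apply k F K]
  have hLF : Algebra.IsAlgebraic F L := by
    have : Algebra.IsAlgebraic F K := inferInstance
    have : Algebra.IsAlgebraic K L := inferInstance
    exact Algebra.IsAlgebraic.trans F K L
  have hLn : Normal F L := by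
    have : IsAlgClosure F L := ⟨inferInstance, hLF⟩
    exact IsAlgClosure.normal F L
  let M := normalClosure F K L
  have hMn : Normal F M := inferInstance
  have hMf : FiniteDimensional F M := inferInstance
  have hMg : IsGalois F M := ⟨⟩
  have h4 : IsScalarTower k F M := inferInstance
  have h5 : IsScalarTower F K M := inferInstance
  have h6 : IsScalarTower k K M := IsScalarTower.of_algebraMap_eq fun x => by
    rw [IsScalarTower.algebraMap_apply k F M, IsScalarTower.algebraMap_apply F K M,
      IsScalarTower.algebraMap_apply k F K]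
  exact general_galois' (M := M) hn1 hr hC hN

end Pool.Agent.X333.DN
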