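import Pool.Agent.X333.DN.Fam
import Pool.Agent.TH710.ND.Dich

/-!
The dichotomy for nested sums of high powers over a field: a good family whose ratios contain a
transcendence basis, or a vector field such that all specialisations which preserve the constant
ratios of the leaves preserve the equations.
-/

set_option autoImplicit false
set_option linter.unusedSectionVars false

open FF MvPolynomial Pool.Agent.W603.LV Pool.Agent.W602.GT Pool.Agent.TH466.QG
  Pool.Agent.TH710.ND Pool.Agent.W603.GX Pool.Agent.W603.GY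

namespace Pool.Agent.X333.DN

variable {k K : Type} [Field k] [Field K] [Algebra k K] {σ ι : Type}

theorem GoodF.mono {N s c c' : ℕ} {A : CFam k K} (h : GoodF N s c A) (hc : c ≤ c') :
    GoodF N s c' A := ⟨h.1.mono hc, h.2⟩

section rel

variable {M : Type} [CommRing M] [Algebra k M] [Algebra K M] [IsScalarTower k K M]
  {y : σ → K} {x : σ → M} {Lf : MvPolynomial σ k → Prop} {W : IntermediateField k K}
  {N s c : ℕ}

omit [IsScalarTower k K M] in
/-- the power terms with small coefficients -/
theorem pow_terms' {c' e : ℕ} {A : CFam k K} (hA : GoodF N s c' A) (hN : 2 ≤ N) (he : N ≤ e)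
    {J : Type} [Fintype J] (κ : J → K) (g : J → MvPolynomial σ k) (x : σ → M)
    (hsum : ∑ j, κ j * aeval y (g j) ^ e = 0) (hcard : Fintype.card J ≤ s)
    (hκ : ∀ j, κ j ≠ 0 → Sm N A (κ j))
    (h0 : ∀ j, aeval y (g j) = 0 → aeval x (g j) = 0)
    (hrel : ∀ B : CFam k K, GoodF N s (c' + s * s) B →
      ∀ i j, aeval y (g i) ≠ 0 → aeval y (g j) ≠ 0 → Sm N B (aeval y (g i) / aeval y (g j)) →
        aeval x (g i) * algebraMap K M (aeval y (g j)) =
          algebraMap K M (aeval y (g i)) * aeval x (g j)) :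
    ∑ j, algebraMap K M (κ j) * aeval x (g j) ^ e = 0 := by
  classical
  have he0 : 0 < e := by omega
  let S : Type := {j : J // κ j * aeval y (g j) ^ e ≠ 0}
  have h1 : ∀ a : S, κ a.1 ≠ 0 ∧ aeval y (g a.1) ≠ 0 := fun a => mul_pow_ne he0 a.2
  obtain ⟨R, B, hR, hB, -, -, hRs, hcl⟩ := classes' hA hN he (fun a : S => κ a.1)
    (fun a : S => aeval y (g a.1)) (fun a => (h1 a).1) (fun a => (h1 a).2)
    (fun a => hκ _ (h1 a).1)
    ((sum_sub (fun j => κ j * aeval y (g j) ^ e) (fun j => κ j * aeval y (g j) ^ e)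
      fun _ h => h).trans hsum) ((Fintype.card_subtype_le _).trans hcard)
  rw [← sum_sub (fun j => κ j * aeval y (g j) ^ e)
    (fun j => algebraMap K M (κ j) * aeval x (g j) ^ e) (fun j hj => by
      rcases mul_eq_zero.1 hj with h | h
      · rw [h, map_zero, zero_mul]
      · rw [h0 j (pow_eq_zero_iff he0.ne' |>.1 h), zero_pow he0.ne', mul_zero])]
  refine class_zero R hR (fun a : S => κ a.1 * aeval y (g a.1) ^ e)
    (fun a => a.2) (fun a : S => algebraMap K M (κ a.1) * aeval x (g a.1) ^ e)
    (fun i j hij => ?_) hcl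
  exact pow_rel (hrel B hB i.1 j.1 (h1 i).2 (h1 j).2 (hRs i j hij))

/-- **Gates.** -/
theorem gate_rel' (hroot : Root W) (hW : ∀ A, GoodF N s c A → A.In W) (hN2 : 2 ≤ N)
    (hE : Env W Lf y x) (L : List (ℕ × ℕ)) : Big N s L →
    (L.length * (s * s) ≤ c → ∀ p, GateL Lf L p → aeval y p = 0 → aeval x p = 0) ∧
    (∀ (c' : ℕ) (A : CFam k K), GoodF N s c' A → c' + L.length * (s * s) ≤ c →
      ∀ p q, GateL Lf L p → GateL Lf L q → aeval y p ≠ 0 → aeval y q ≠ 0 →
        Sm N A (aeval y p / aeval y q) →
        aeval x p * algebraMap K M (aeval y q) = algebraMap K M (aeval y p) * aeval x q) := by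
  induction L with
  | nil =>
    intro _
    exact ⟨fun _ p hp => hE.z p hp, fun c' A hA hc p q hp hq h1 h2 h3 =>
      hE.p p q hp hq h1 h2 (h3.2 W hroot (hW A (hA.mono (by simpa using hc))))⟩
  | cons ke L ih =>
    intro hL
    obtain ⟨hks, hN, he0⟩ := hL.head
    obtain ⟨ihz, ihp⟩ := ih hL.tail
    constructor
    · rintro hc p ⟨a, g, hg, rfl⟩ h
      rw [List.length_cons] at hc
      have hc1 : 0 + s * s + L.length * (s * s) ≤ c := by nlinarith
      have hc2 : L.length * (s * s) ≤ c := by nlinarith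
      rw [aeval_sum_pow] at h ⊢
      have h1 := pow_terms' (empty_good N s) hN2 hN
        (fun i => algebraMap k K (a i)) g x h
        (by rw [Fintype.card_fin]; omega) (fun j _ => Sm.of_const N _ _)
        (fun j hj => ihz hc2 (g j) (hg j) hj)
        (fun B hB i j hi hj hl => ihp _ B hB (by nlinarith) (g i) (g j) (hg i) (hg j) hi hj hl)
      simp only [← IsScalarTower.algebraMap_apply] at h1
      exact h1
    · rintro c' A hA hc p q hp hq hp0 hq0 hl
      obtain ⟨a, g, hg, hpe⟩ := hp
      obtain ⟨b, g', hg', hqe⟩ := hq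
      rw [List.length_cons] at hc
      have hc1 : c' + s * s + L.length * (s * s) ≤ c := by nlinarith
      have hc2 : L.length * (s * s) ≤ c := by nlinarith
      set lam : K := aeval y p / aeval y q with hlam
      have hlam0 : lam ≠ 0 := div_ne_zero hp0 hq0
      let G : Fin ke.1 ⊕ Fin ke.1 → MvPolynomial σ k := Sum.elim g g'
      have hG : ∀ i, GateL Lf L (G i) := by
        rintro (i | i)
        · exact hg i
        · exact hg' i
      let κ : Fin ke.1 ⊕ Fin ke.1 → K :=
        Sum.elim (fun i => algebraMap k K (a i)) (fun i => -lam * algebraMap k K (b i))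
      have hval : ∑ i, κ i * aeval y (G i) ^ ke.2 = aeval y p - lam * aeval y q := by
        rw [hpe, hqe, aeval_sum_pow, aeval_sum_pow, Fintype.sum_sum_type, Finset.mul_sum,
          sub_eq_add_neg, ← Finset.sum_neg_distrib]
        congr 1
        exact Finset.sum_congr rfl fun i _ => by
          simp only [κ, G, Sum.elim_inr]; ring
      have hval' : ∑ i, algebraMap K M (κ i) * aeval x (G i) ^ ke.2 =
          aeval x p - algebraMap K M lam * aeval x q := by
        rw [hpe, hqe, aeval_sum_pow, aeval_sum_pow, Fintype.sum_sum_type, Finset.mul_sum,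
          sub_eq_add_neg, ← Finset.sum_neg_distrib]
        congr 1
        · exact Finset.sum_congr rfl fun i _ => by
            simp only [κ, G, Sum.elim_inl]
            rw [← IsScalarTower.algebraMap_apply]
        · exact Finset.sum_congr rfl fun i _ => by
            simp only [κ, G, Sum.elim_inr]
            rw [map_mul, map_neg, ← IsScalarTower.algebraMap_apply]
            ring
      have h1 := pow_terms' hA hN2 hN κ G x
        (by rw [hval, hlam, div_mul_cancel₀ _ hq0, sub_self])
        (by rw [Fintype.card_sum, Fintype.card_fin]; omega)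
        (by
          rintro (i | i) hi
          · exact Sm.of_const N _ _
          · change -lam * algebraMap k K (b i) ≠ 0 at hi
            have hb' : algebraMap k K (b i) ≠ 0 := right_ne_zero_of_mul hi
            refine ⟨fun P => ?_, fun W hR hAW => ?_⟩
            · change (N : ℤ) * |P.ord (-lam * algebraMap k K (b i))| ≤ _
              rw [P.ord_mul (neg_ne_zero.2 hlam0) hb', P.ord_neg, ord_alg P hb', add_zero]
              exact hl.1 P
            · exact mul_mem (neg_mem (hl.2 W hR hAW)) (W.algebraMap_mem _))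
        (fun j hj => ihz hc2 (G j) (hG j) hj)
        (fun B hB i j hi hj hl' => ihp _ B hB (by nlinarith) (G i) (G j) (hG i) (hG j) hi hj hl')
      rw [hval', sub_eq_zero, hlam] at h1
      rw [h1, mul_right_comm, ← map_mul, div_mul_cancel₀ _ hq0]

end rel

/-- **The dichotomy for families.** -/
theorem dich_fam [IsAlgClosed k] [CharZero k] {w : ℕ} (htr : Algebra.trdeg k K = w)
    {N s c : ℕ} :
    HasFam k s (w * c) N w K ∨ ∃ D : Derivation k K K, D ≠ 0 ∧
      ∀ A : CFam k K, GoodF N s c A → ∀ i a b, D (A.T i a / A.T i b) = 0 := by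
  classical
  let S : Set K := {x | ∃ A : CFam k K, GoodF N s c A ∧ ∃ i a b, x = A.T i a / A.T i b}
  obtain ⟨x0, hx0⟩ := basis_of_trdeg htr
  by_cases halg : Algebra.IsAlgebraic (IntermediateField.adjoin k S) K
  · left
    have halg' := alg_adjoin halg
    obtain ⟨B, hB, hBb⟩ := exists_isTranscendenceBasis_subset (R := k) (A := K) S
    have hcard := hx0.lift_cardinalMk_eq hBb
    rw [Cardinal.mk_fin] at hcard
    obtain ⟨φ⟩ : Nonempty (Fin w ≃ B) := by
      rw [← Cardinal.eq, Cardinal.mk_fin]
      have := hcard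
      simpa using this
    set t : Fin w → K := fun i => (φ i : K) with ht
    have htb : IsTranscendenceBasis k t := hBb.comp_equiv φ
    have hmem : ∀ i, t i ∈ S := fun i => hB (φ i).2
    choose A hA i a b hab using hmem
    choose hAok U hU using hA
    let F : CFam k K := CFam.sigma A
    have hF : F.Ok (fun _ => False) N s (∑ _j : Fin w, c) := CFam.sigma_ok hAok
    have hfin : (⋃ j, U j).Finite := Set.finite_iUnion fun j => (hU j).fin
    obtain ⟨p, u0, hu0⟩ : ∃ (p : ℕ) (u0 : Fin p → K), Set.range u0 = ⋃ j, U j := by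
      have := hfin.fintype
      refine ⟨Fintype.card (⋃ j, U j : Set K),
        fun l => ((Fintype.equivFin (⋃ j, U j : Set K)).symm l).1, ?_⟩
      ext x
      constructor
      · rintro ⟨l, rfl⟩
        exact ((Fintype.equivFin (⋃ j, U j : Set K)).symm l).2
      · intro hx
        exact ⟨Fintype.equivFin (⋃ j, U j : Set K) ⟨x, hx⟩, by simp⟩
    let u : Fin (p + 1) → K := Fin.cons 1 u0
    refine ⟨F, fun j => ⟨j, i j⟩, a, b, p, u, fun j j' h => congrArg Sigma.fst h, ?_, ?_, hF.sz,
      fun P => hF.dich P (fun h => h), ?_, ?_⟩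
    · have h1 : (fun l => F.T ⟨l, i l⟩ (a l) / F.T ⟨l, i l⟩ (b l)) = t :=
        funext fun l => (hab l).symm
      rw [h1]
      exact htb
    · have h1 := hF.card
      simpa using h1
    · rintro ⟨j, x⟩ a b
      have h1 : IntermediateField.adjoin k (U j) ≤ IntermediateField.adjoin k (Set.range u) := by
        refine IntermediateField.adjoin.mono k _ _ fun z hz => ?_
        have h2 : z ∈ ⋃ j, U j := Set.mem_iUnion.2 ⟨j, hz⟩
        rw [← hu0] at h2
        obtain ⟨l, rfl⟩ := h2
        exact ⟨l.succ, rfl⟩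
      exact h1 ((hU j).mem x a b)
    · intro P l
      refine Fin.cases ?_ (fun l => ?_) l
      · change (N : ℤ) * |P.ord 1| ≤ _
        rw [P.ord_one, abs_zero, mul_zero]
        exact cgap_nonneg _ _
      · change (N : ℤ) * |P.ord (u0 l)| ≤ _
        have h2 : u0 l ∈ ⋃ j, U j := by
          rw [← hu0]
          exact ⟨l, rfl⟩
        obtain ⟨j, hj⟩ := Set.mem_iUnion.1 h2
        exact ((hU j).bd P _ hj).trans (cgap_le_sigma A P j)
  · right
    obtain ⟨D, hD0, hD⟩ := exists_der_over S halg
    exact ⟨D, hD0, fun A hA i a b => hD _ ⟨A, hA, i, a, b, rfl⟩⟩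

/-- **The dichotomy.** -/
theorem der_of_not' [IsAlgClosed k] [CharZero k] {Lf : MvPolynomial σ k → Prop}
    {F : ι → MvPolynomial σ k} {s N h : ℕ} (hF : ∀ i, NestedIn Lf s N h (F i)) {w : ℕ}
    (hN : 2 ≤ N) {y : σ → K}
    (hdim : Algebra.trdeg k K = w) (hmem : ∀ i, aeval y (F i) = 0)
    (hC : ¬ HasFam k (2 * s) (w * ((h + 1) * (2 * s * (2 * s)))) N w K) :
    ∃ D : Derivation k K K, D ≠ 0 ∧
      ∀ (M : Type) [CommRing M] [Algebra k M] [Algebra K M] [IsScalarTower k K M] (x : σ → M),
        Env (consts D) Lf y x → ∀ i, aeval x (F i) = 0 := by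
  classical
  obtain ⟨D, h3, h1⟩ := (dich_fam hdim).resolve_left hC
  refine ⟨D, h3, ?_⟩
  intro M _ _ _ _ x hE i
  have hroot : Root (consts D) := fun z d hd h => consts_root D z d hd h
  have hW : ∀ A, GoodF N (2 * s) ((h + 1) * (2 * s * (2 * s))) A → A.In (consts D) :=
    fun A hA i a b => h1 A hA i a b
  obtain ⟨r, e, L, c, g, hr, he, hL1, hL2, hg, hFe⟩ := hF i
  have hbig : Big N (2 * s) L := by
    intro ke hke
    obtain ⟨h1, h2, h3⟩ := hL2 ke hke
    exact ⟨by omega, h3, by omega⟩
  have hlen : 0 + 2 * s * (2 * s) + L.length * (2 * s * (2 * s)) ≤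
      (h + 1) * (2 * s * (2 * s)) := by
    nlinarith [Nat.mul_le_mul_right (2 * s * (2 * s)) hL1]
  have hlen' : L.length * (2 * s * (2 * s)) ≤ (h + 1) * (2 * s * (2 * s)) :=
    Nat.mul_le_mul_right _ (by omega)
  obtain ⟨ihz, ihp⟩ := gate_rel' hroot hW hN hE L hbig
  have h4 := pow_terms' (empty_good N (2 * s)) hN he
    (fun i => algebraMap k K (c i)) g x (by
      have h2 := hmem i
      rw [hFe, aeval_sum_pow] at h2
      exact h2) (by rw [Fintype.card_fin]; omega) (fun j _ => Sm.of_const N _ _)
    (fun j hj => ihz hlen' (g j) (hg j) hj)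
    (fun B hB i j hi hj hl => ihp _ B hB hlen (g i) (g j) (hg i) (hg j) hi hj hl)
  simp only [← IsScalarTower.algebraMap_apply] at h4
  rw [hFe, aeval_sum_pow]
  exact h4

end Pool.Agent.X333.DN
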