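import Pool.Agent.X333.DN.Kdn
import Pool.Agent.Y216.SV.Afl

/-!
Negative logarithmic Kodaira dimension and affine lines, for nested sums of high powers of
monomials.
-/

set_option autoImplicit false
set_option linter.unusedSectionVars false

open FF MvPolynomial IntermediateField Pool.Agent.W603.LV Pool.Agent.W602.GT
  Pool.Agent.TH710.ND Pool.Agent.X333.MS Pool.Agent.X333.NM

namespace Pool.Agent.X333.DN

open Pool.Agent.Y216.SV (AffineFamily not_kod_of_affine)

variable {k : Type} [Field k] [CharZero k] [IsAlgClosed k] {n : ℕ} {ι : Type}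
  {F : ι → MvPolynomial (Fin (n + 1)) k} {s N h : ℕ} {K : Type} [Field K] [Algebra k K]
  {U : Set (Fin (n + 1))} {w : ℕ}

/-- **Contractions** give families of affine lines. -/
theorem affine_of_contracts {y : Fin (n + 1) → K} (hyU : ∀ j ∈ U, y j ≠ 0)
    (hgen : coords k y = ⊤) (htr : Algebra.trdeg k K = w) {b : Fin (n + 1) → ℕ}
    (h : Contracts U k y b) : AffineFamily U (k := k) y (w - 1) := by
  classical
  have hK : CharZero K := charZero_of_injective_algebraMap (algebraMap k K).injective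
  obtain ⟨i, hi, hbi⟩ := h.fixed
  obtain ⟨i', hi', hbi'⟩ := h.moved
  obtain ⟨δ, σ, g, b', hσ0, hσ, htop, hg, hb', hz⟩ := exists_delta hgen (fun j => (b j : ℤ)) hi hi'
    (by
      simp only [hbi]
      intro h0
      exact hbi' (by exact_mod_cast h0.symm))
    (fun G hG h0 v => hom_of_contracts hyU h G hG h0 v)
  have hb0 : ∀ j, y j ≠ 0 → 0 ≤ b' j := by
    intro j hj
    have h1 := hb' j hj
    simp only [hbi, Nat.cast_zero, sub_zero] at h1
    by_contra hcon
    push Not at hcon
    have h2 : g * b' j < 0 := mul_neg_of_pos_of_neg hg hcon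
    have h3 : (0 : ℤ) ≤ b j := Int.natCast_nonneg _
    omega
  have hbU : ∀ j, y j ≠ 0 → b j = 0 → b' j = 0 := by
    intro j hj hbj
    have h1 := hb' j hj
    simp only [hbi, hbj, Nat.cast_zero, sub_zero] at h1
    exact (mul_eq_zero.1 h1.symm).resolve_left hg.ne'
  have hz' : ∀ j, ∃ z : K, δ z = 0 ∧ (y j ≠ 0 → z ≠ 0) ∧
      y j / y i = z * σ ^ (b' j).toNat := by
    intro j
    by_cases hj : y j = 0
    · exact ⟨0, map_zero _, fun h => absurd hj h, by rw [hj, zero_div, zero_mul]⟩
    · obtain ⟨z, hz0, hδ, h1⟩ := hz j hj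
      refine ⟨z, hδ, fun _ => hz0, ?_⟩
      rw [h1, ← zpow_natCast, Int.toNat_of_nonneg (hb0 j hj)]
  choose z hδz hz0 hzy using hz'
  let M : IntermediateField k K := IntermediateField.adjoin k (Set.range z)
  have hzM : ∀ j, z j ∈ M := fun j => IntermediateField.subset_adjoin k _ ⟨j, rfl⟩
  have hMδ : M ≤ consts δ := by
    rw [IntermediateField.adjoin_le_iff]
    rintro _ ⟨j, rfl⟩
    exact hδz j
  have hσt : Transcendental M σ := by
    intro hal
    have h1 : IsAlgebraic (consts δ) σ := by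
      obtain ⟨q, hq0, hq⟩ := hal
      let φ : M →+* consts δ := (IntermediateField.inclusion hMδ).toRingHom
      refine ⟨q.map φ, (Polynomial.map_ne_zero_iff φ.injective).2 hq0, ?_⟩
      rw [Polynomial.aeval_def, Polynomial.eval₂_map]
      rw [Polynomial.aeval_def] at hq
      exact hq
    have h2 := der_of_alg δ h1
    rw [hσ] at h2
    exact hσ0 h2
  have hMtop : IntermediateField.adjoin M {σ} = ⊤ := by
    have h1 : coords k y ≤ (IntermediateField.adjoin M {σ}).restrictScalars k := by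
      unfold coords
      rw [IntermediateField.adjoin_le_iff]
      rintro _ ⟨a, c, hc, rfl⟩
      have h2 : ∀ l, y l / y i ∈ IntermediateField.adjoin M {σ} := by
        intro l
        rw [hzy l]
        refine mul_mem ?_ (pow_mem (IntermediateField.mem_adjoin_simple_self _ σ) _)
        exact (IntermediateField.adjoin M {σ}).algebraMap_mem ⟨z l, hzM l⟩
      have h3 := div_mem (h2 a) (h2 c)
      have h4 : y a / y i / (y c / y i) = y a / y c := by field_simp
      rw [h4] at h3
      exact h3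
    rw [hgen] at h1
    rw [eq_top_iff]
    intro x _
    exact h1 (IntermediateField.mem_top (x := x))
  have hdim : Algebra.trdeg k M = ((w - 1 : ℕ) : Cardinal) := by
    have hb1 : IsTranscendenceBasis M (fun _ : Unit => σ) := by
      have h1 : AlgebraicIndependent M (fun _ : Unit => σ) :=
        (algebraicIndependent_unique_type_iff).2 hσt
      rw [h1.isTranscendenceBasis_iff_isAlgebraic]
      apply alg_adjoin
      have h2 : Set.range (fun _ : Unit => σ) = {σ} := by simp
      rw [h2, hMtop]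
      infer_instance
    have h1 : Algebra.trdeg M K = 1 := by
      have := hb1.lift_cardinalMk_eq_trdeg
      simpa using this.symm
    have h2 := trdeg_add_eq k M (A := K)
    rw [h1, htr] at h2
    have h3 : Algebra.trdeg k M < Cardinal.aleph0 := by
      refine lt_of_le_of_lt (self_le_add_right _ 1) ?_
      rw [h2]
      exact Cardinal.natCast_lt_aleph0
    obtain ⟨d, hd⟩ := Cardinal.lt_aleph0.1 h3
    rw [hd] at h2 ⊢
    have h4 : d + 1 = w := by exact_mod_cast h2
    rw [← h4, Nat.add_sub_cancel]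
  let f : Fin (n + 1) → Polynomial M := fun j =>
    Polynomial.C ⟨z j, hzM j⟩ * Polynomial.X ^ (b' j).toNat
  have hc0 : ∀ j, y j ≠ 0 → (⟨z j, hzM j⟩ : M) ≠ 0 := fun j hj h0 =>
    hz0 j hj (congrArg Subtype.val h0)
  have hfc : ∀ j, y j ≠ 0 → b j = 0 → f j = Polynomial.C ⟨z j, hzM j⟩ := by
    intro j hj hbj
    simp only [f]
    rw [hbU j hj hbj, Int.toNat_zero, pow_zero, mul_one]
  refine ⟨M, inferInstance, inferInstance, f, ⟨Set.range fun j => (⟨z j, hzM j⟩ : M),
    Set.finite_range _, ?_⟩, hdim, ?_, ⟨i', ?_⟩, fun j hj => ⟨⟨z j, hzM j⟩, hc0 j (hyU j hj),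
    hfc j (hyU j hj) (h.zero j hj)⟩, ?_⟩
  · have h1 := IntermediateField.lift_top k M
    apply IntermediateField.lift_injective M
    rw [IntermediateField.lift_top, IntermediateField.lift_adjoin]
    congr 1
    ext x
    simp
  · rw [Ideal.eq_top_iff_one]
    have h1 : f i ∈ Ideal.span (Set.range f) := Ideal.subset_span ⟨i, rfl⟩
    rw [hfc i hi hbi] at h1
    have h2 := Ideal.mul_mem_left _ (Polynomial.C (⟨z i, hzM i⟩ : M)⁻¹) h1
    rwa [← Polynomial.C_mul, inv_mul_cancel₀ (hc0 i hi), Polynomial.C_1] at h2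
  · simp only [f]
    rw [Polynomial.natDegree_C_mul_X_pow _ _ (hc0 i' hi')]
    have h1 := hb' i' hi'
    simp only [hbi, Nat.cast_zero, sub_zero] at h1
    have h2 : b' i' ≠ 0 := by
      intro h0
      rw [h0, mul_zero] at h1
      exact hbi' (by exact_mod_cast h1)
    have h3 := hb0 i' hi'
    omega
  · rintro G ⟨e, he⟩
    have h1 : (fun j => (Polynomial.aeval σ (f j) : K)) = fun j => y j / y i := by
      funext j
      simp only [f, map_mul, map_pow, Polynomial.aeval_C, Polynomial.aeval_X]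
      rw [hzy j]
      rfl
    have h3 : val y G = y i ^ e *
        Polynomial.aeval σ (MvPolynomial.aeval f G : Polynomial M) := by
      have h4 : Polynomial.aeval σ (MvPolynomial.aeval f G : Polynomial M) =
          val (fun j => (Polynomial.aeval σ (f j) : K)) G := by
        have h5 : ((Polynomial.aeval σ : Polynomial M →ₐ[M] K).restrictScalars k).comp
            (MvPolynomial.aeval f) = MvPolynomial.aeval (fun j => (Polynomial.aeval σ (f j) : K)) := by
          apply MvPolynomial.algHom_ext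
          intro j
          simp only [AlgHom.comp_apply, MvPolynomial.aeval_X]
          rfl
        unfold Pool.Agent.W602.GT.val
        rw [← h5]
        rfl
      rw [h4, h1, ← val_smul he]
      congr 1
      funext j
      field_simp
    rw [h3, mul_eq_zero, or_iff_right (pow_ne_zero _ hi)]
    constructor
    · intro h4
      by_contra hne
      exact hσt ⟨_, hne, h4⟩
    · intro h4
      rw [h4, map_zero]

/-- **Components.** -/
theorem kod_comp (hF : ∀ i, IsForm (F i) ∧ NestedIn IsMono s N h (F i)) (hN2 : 2 ≤ N)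
    (hN : bnd n s h ≤ N) {y : Fin (n + 1) → K} (hy : SubVarU U F K w y)
    (hcomp : IsComponentU U F y) :
    (∃ b, Contracts U k y b) ∨
    ∃ (h' p : ℕ) (b : Fin p → Fin (n + 1) → ℤ), h' + p = w ∧
      (∀ c : Fin p → ℤ, Acts U k y fun j => ∑ l, c l * b l j) ∧
      (∀ c : Fin p → ℤ, (∀ j j', y j ≠ 0 → y j' ≠ 0 →
        ∑ l, c l * b l j = ∑ l, c l * b l j') → c = 0) ∧
      KodGe k K w (OffU U y) h' ∧ ¬ KodGe k K w (OffU U y) (h' + 1) := by
  classical
  obtain ⟨i0, hi0⟩ := Function.ne_iff.1 hy.ne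
  have hi0' : y i0 ≠ 0 := hi0
  by_cases hL : LineU U F y
  · left
    obtain ⟨b, h1, h2, h3, h4⟩ := hL
    have hinf : Infinite k := inferInstance
    exact ⟨b, contracts_of_hom h1 h2 h3 (ideal_hom hy hcomp h4)⟩
  · right
    obtain ⟨h', p, jj, b, hhp, hjj, hb1, hb2, hb3, hkod⟩ := kod_nest hF hN2 hN (map_of_sub hy)
      hL hi0'
    refine ⟨h', p, b, hhp, fun c => acts_of_hom (ideal_hom hy hcomp (hb3 c)), fun c hc => ?_,
      hkod, fun hk => ?_⟩
    · funext q
      have h1 := hc (jj q) i0 (hjj q) hi0'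
      rw [← sub_eq_zero, ← Finset.sum_sub_distrib, Finset.sum_eq_single q] at h1
      · rw [← mul_sub] at h1
        exact (mul_eq_zero.1 h1).resolve_right (sub_ne_zero.2 (hb1 q))
      · intro l _ hl
        rw [hb2 l q hl.symm, sub_self]
      · intro h2
        exact absurd (Finset.mem_univ _) h2
    · have h1 := kod_le hy.unit hy.gen hy.dim b hi0' jj hjj hb1 hb2 (fun l => by
        refine ideal_hom hy hcomp fun e v => ?_
        have h2 := hb3 (Pi.single l 1) e v
        have h3 : (fun j => ∑ l', (Pi.single l 1 : Fin p → ℤ) l' * b l' j) = b l := by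
          funext j
          simp [Pi.single_apply]
        rwa [h3] at h2) hk
      omega

/-- **Negative logarithmic Kodaira dimension.** -/
theorem neg_tfae (hF : ∀ i, IsForm (F i) ∧ NestedIn IsMono s N h (F i)) (hN2 : 2 ≤ N)
    (hN : bnd n s h ≤ N) {y : Fin (n + 1) → K} (hy : SubVarU U F K w y)
    (hcomp : IsComponentU U F y) :
    [¬ KodGe k K w (OffU U y) 0, ¬ Psef k K w (OffU U y), AffineFamily U (k := k) y (w - 1),
      ∃ d, AffineFamily U (k := k) y d, ∃ b, Contracts U k y b].TFAE := by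
  tfae_have 1 → 5 := by
    intro h0
    rcases kod_comp hF hN2 hN hy hcomp with h1 | ⟨h', p, b, -, -, -, hk, -⟩
    · exact h1
    · exact absurd hk.zero h0
  tfae_have 5 → 2 := by
    rintro ⟨b, hb⟩
    exact contracts_not_psef hy.unit hy.gen hy.dim hb
  tfae_have 2 → 1 := fun h0 h1 => h0 (psef_of_kodGe h1)
  tfae_have 5 → 3 := by
    rintro ⟨b, hb⟩
    exact affine_of_contracts hy.unit hy.gen hy.dim hb
  tfae_have 3 → 4 := fun h0 => ⟨_, h0⟩
  tfae_have 4 → 1 := by
    rintro ⟨d, hd⟩
    exact not_kod_of_affine hy.ne hy.unit hy.gen hy.dim hd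
  tfae_finish

/-- **Generically finite maps.** -/
theorem kod_map (hF : ∀ i, IsForm (F i) ∧ NestedIn IsMono s N h (F i)) (hN2 : 2 ≤ N)
    (hN : bnd n s h ≤ N) {y : Fin (n + 1) → K} (hy : MapU U F K w y) {Bd : Place k K → Prop}
    (hBd : ∀ P, OffU U y P → Bd P) :
    (∃ b : Fin (n + 1) → ℕ, (∀ j ∈ U, b j = 0) ∧ (∃ j, y j ≠ 0 ∧ b j = 0) ∧
      (∃ j, y j ≠ 0 ∧ b j ≠ 0) ∧ ∀ t : K, t ≠ 0 → ∀ e, val (fun j => t ^ b j * y j) (F e) = 0) ∨
    ∃ (h' p : ℕ) (b : Fin p → Fin (n + 1) → ℤ), h' + p = w ∧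
      (∀ (c : Fin p → ℤ) (t : K), t ≠ 0 → ∀ e,
        val (fun j => t ^ (∑ l, c l * b l j) * y j) (F e) = 0) ∧
      (∀ c : Fin p → ℤ, (∀ j j', y j ≠ 0 → y j' ≠ 0 →
        ∑ l, c l * b l j = ∑ l, c l * b l j') → c = 0) ∧
      KodGe k K w Bd h' := by
  classical
  obtain ⟨i0, hi0⟩ := Function.ne_iff.1 hy.ne
  have hi0' : y i0 ≠ 0 := hi0
  by_cases hL : LineU U F y
  · left
    obtain ⟨b, h1, h2, h3, h4⟩ := hL
    refine ⟨b, h1, h2, h3, fun t ht e => ?_⟩
    have h5 := val_orbit (L := K) y (fun j => (b j : ℤ)) ht (F e) (h4 e)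
    simpa using h5
  · right
    obtain ⟨h', p, jj, b, hhp, hjj, hb1, hb2, hb3, hkod⟩ := kod_nest hF hN2 hN hy hL hi0'
    refine ⟨h', p, b, hhp, fun c t ht e => val_orbit (L := K) y _ ht (F e) (hb3 c e),
      fun c hc => ?_, kod_bd hBd hkod⟩
    funext q
    have h1 := hc (jj q) i0 (hjj q) hi0'
    rw [← sub_eq_zero, ← Finset.sum_sub_distrib, Finset.sum_eq_single q] at h1
    · rw [← mul_sub] at h1
      exact (mul_eq_zero.1 h1).resolve_right (sub_ne_zero.2 (hb1 q))
    · intro l _ hl
      rw [hb2 l q hl.symm, sub_self]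
    · intro h2
      exact absurd (Finset.mem_univ _) h2

end Pool.Agent.X333.DN
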