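import Pool.Agent.X333.DN.Kod
import Pool.Agent.X333.DN.Lf
import Pool.Agent.X333.MS.Main
import Pool.Agent.X333.NM.Alg

/-!
The logarithmic Kodaira dimension for nested sums of high powers of monomials.
-/

set_option autoImplicit false
set_option linter.unusedSectionVars false

open FF MvPolynomial IntermediateField Pool.Agent.W603.LV Pool.Agent.W602.GT
  Pool.Agent.TH710.ND Pool.Agent.X333.MS Pool.Agent.X333.NM

namespace Pool.Agent.X333.DN

variable {k : Type} [Field k] {n : ℕ} {ι : Type} {F : ι → MvPolynomial (Fin (n + 1)) k}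
  {s N h : ℕ} {K : Type} [Field K] [Algebra k K]

theorem Sm.of_smul {A : CFam k K} {a : k} (ha : a ≠ 0) {z : K}
    (h : Sm N A (algebraMap k K a * z)) : Sm N A z := by
  have ha' : algebraMap k K a ≠ 0 := by rwa [Ne, map_eq_zero]
  by_cases hz : z = 0
  · rw [hz, mul_zero] at h
    rw [hz]
    exact h
  refine ⟨fun P => ?_, fun W hR hW => ?_⟩
  · have h1 := h.1 P
    rwa [P.ord_mul ha' hz, P.ord_const ha, zero_add] at h1
  · have h1 := W.mul_mem (W.inv_mem (W.algebraMap_mem a)) (h.2 W hR hW)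
    rwa [inv_mul_cancel_left₀ ha'] at h1

/-- the characters with small orders -/
def Gam (s N h : ℕ) (y : Fin (n + 1) → K) (i0 : Fin (n + 1)) : Set (Fin (n + 1) → ℤ) :=
  {γ | ∑ l, γ l = 0 ∧ ∃ A : CFam k K, GoodF N (2 * s) ((h + 1) * (2 * s * (2 * s))) A ∧
    Sm N A (chi (rr y i0) γ)}

theorem chi_shift {y : Fin (n + 1) → K} {i0 : Fin (n + 1)} (hi0 : y i0 ≠ 0)
    (β : Fin (n + 1) → ℤ) (m : ℤ) :
    chi (rr y i0) (β - m • Pi.single i0 1) = chi (rr y i0) β := by
  have h1 : rr y i0 i0 = 1 := by rw [rr_on hi0, div_self hi0]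
  have h2 := chi_add (r := rr y i0) (rr_ne hi0) (β - m • Pi.single i0 1) (m • Pi.single i0 1)
  rw [sub_add_cancel, chi_smul, chi_single, h1, one_zpow, mul_one] at h2
  exact h2.symm

/-- diagonal one-parameter groups -/
theorem wc_of_gam [CharZero k] (hF : ∀ i, IsForm (F i) ∧ NestedIn IsMono s N h (F i))
    (hN : 2 ≤ N) {y : Fin (n + 1) → K} {i0 : Fin (n + 1)}
    (hi0 : y i0 ≠ 0) (hmem : ∀ i, val y (F i) = 0) {b : Fin (n + 1) → ℤ}
    (hb : ∀ γ ∈ Gam (k := k) s N h y i0, ∑ j, γ j * b j = 0) (e : ι) (v : ℤ) :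
    val y (wc b v (F e)) = 0 := by
  classical
  have hK : CharZero K := charZero_of_injective_algebraMap (algebraMap k K).injective
  have hinf : Infinite K := inferInstance
  rw [← val_nrm hi0 (wc_form (hF e).1 b v)]
  obtain ⟨M, R, hR1, -, hR3⟩ := orbit_poly (k := k) (nrm y i0) b (F e)
  refine hR3 (poly_zero fun t ht => ?_) v
  rw [hR1 t ht]
  let b' : Fin (n + 1) → ℤ := fun j => b j - b i0
  have h1 : val (fun j => t ^ b' j * nrm y i0 j) (F e) = 0 := by
    refine nested_lf (y := nrm y i0) (Lf := IsMono) (hF e).2 hN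
      ((val_nrm hi0 (hF e).1).2 (hmem e)) ?_ ?_
    · rintro p ⟨α, a, rfl⟩ h
      rw [aeval_mono] at h ⊢
      rw [torus_mono (nrm y i0) b' ht, mul_left_comm, h, mul_zero]
    · rintro A hA p q ⟨α, a, rfl⟩ ⟨β, c, rfl⟩ hp hq hW
      rw [aeval_mono] at hp hq
      rw [aeval_mono, aeval_mono] at hW
      have ha : algebraMap k K a ≠ 0 := left_ne_zero_of_mul hp
      have hc0 : algebraMap k K c ≠ 0 := left_ne_zero_of_mul hq
      have ha0 : a ≠ 0 := fun h0 => ha (by rw [h0, map_zero])
      have hcc : c ≠ 0 := fun h0 => hc0 (by rw [h0, map_zero])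
      have hsup : ∀ γ : Fin (n + 1) →₀ ℕ, ∏ j, nrm y i0 j ^ γ j ≠ 0 →
          ∏ j, nrm y i0 j ^ γ j = ∏ j, rr y i0 j ^ γ j := by
        intro γ hγ
        refine Finset.prod_congr rfl fun j hj => ?_
        by_cases h0 : y j = 0
        · have h2 := Finset.prod_ne_zero_iff.1 hγ j hj
          simp only [nrm, h0, zero_div] at h2 ⊢
          have h3 : γ j = 0 := by
            by_contra h3
            exact h2 (zero_pow h3)
          rw [h3, pow_zero, pow_zero]
        · rw [rr_on h0]
          rfl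
      obtain ⟨β', hβ'⟩ : ∃ β' : Fin (n + 1) → ℤ, β' = fun j => (α j : ℤ) - (β j : ℤ) := ⟨_, rfl⟩
      have h2 : chi (rr y i0) β' =
          (∏ j, rr y i0 j ^ α j) / ∏ j, rr y i0 j ^ β j := by
        rw [hβ']
        unfold chi
        rw [← Finset.prod_div_distrib]
        refine Finset.prod_congr rfl fun j _ => ?_
        rw [zpow_sub₀ (rr_ne hi0 j), zpow_natCast, zpow_natCast]
      have hsm : Sm N A (chi (rr y i0) β') := by
        refine Sm.of_smul (a := a / c) (div_ne_zero ha0 hcc) ?_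
        have h3 : algebraMap k K (a / c) * chi (rr y i0) β' =
            (algebraMap k K a * ∏ j, nrm y i0 j ^ α j) /
              (algebraMap k K c * ∏ j, nrm y i0 j ^ β j) := by
          rw [h2, ← hsup α (right_ne_zero_of_mul hp), ← hsup β (right_ne_zero_of_mul hq),
            map_div₀, div_mul_div_comm]
        rw [h3]
        exact hW
      have h5 := hb (β' - (∑ l, β' l) • Pi.single i0 1) ⟨by
        simp [Finset.sum_sub_distrib, Pi.single_apply], A, hA, by
        rw [chi_shift hi0]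
        exact hsm⟩
      have h7 : ∑ j, β' j * b' j = 0 := by
        rw [← h5]
        simp only [b', mul_sub, Pi.sub_apply, Pi.smul_apply, smul_eq_mul, sub_mul,
          Finset.sum_sub_distrib, Pi.single_apply, mul_ite, mul_one, mul_zero, ite_mul, zero_mul,
          Finset.sum_ite_eq', Finset.mem_univ, if_true, ← Finset.sum_mul]
      rw [hβ'] at h7
      simp only [sub_mul, Finset.sum_sub_distrib] at h7
      rw [aeval_mono, aeval_mono, aeval_mono, aeval_mono, torus_mono _ b' ht, torus_mono _ b' ht,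
        sub_eq_zero.1 h7]
      change algebraMap k K a * (t ^ (∑ j, (β j : ℤ) * b' j) * ∏ j, nrm y i0 j ^ α j) *
        (algebraMap k K c * ∏ j, nrm y i0 j ^ β j) = algebraMap k K a *
        (∏ j, nrm y i0 j ^ α j) *
        (algebraMap k K c * (t ^ (∑ j, (β j : ℤ) * b' j) * ∏ j, nrm y i0 j ^ β j))
      ring
  obtain ⟨d, hd⟩ := (hF e).1
  have h2 : (fun j => t ^ b j * nrm y i0 j) = fun j => t ^ b i0 * (t ^ b' j * nrm y i0 j) := by
    funext j
    rw [← mul_assoc, ← zpow_add₀ ht]
    congr 2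
    simp only [b']
    ring
  have h3 := val_smul (L := K) hd (t ^ b i0) (fun j => t ^ b' j * nrm y i0 j)
  rw [h2, h3, h1, mul_zero, mul_zero]

end Pool.Agent.X333.DN
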