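import Pool.Agent.X333.DN.Kdm
import Pool.Agent.W602.GT.KPsefS

/-!
The logarithmic Kodaira dimension for nested sums of high powers of monomials: the main theorem.
-/

set_option autoImplicit false
set_option linter.unusedSectionVars false

open FF MvPolynomial IntermediateField Pool.Agent.W603.LV Pool.Agent.W602.GT
  Pool.Agent.TH710.ND Pool.Agent.X333.MS Pool.Agent.X333.NM

namespace Pool.Agent.X333.DN

variable {k : Type} [Field k] [CharZero k] [IsAlgClosed k] {n : ℕ} {ι : Type}
  {F : ι → MvPolynomial (Fin (n + 1)) k} {s N h : ℕ} {K : Type} [Field K] [Algebra k K]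
  {U : Set (Fin (n + 1))} {w : ℕ}

theorem der_chi (D : Derivation k K K) {m : ℕ} {r : Fin m → K} (hr : ∀ j, r j ≠ 0)
    (β : Fin m → ℤ) : D (chi r β) / chi r β = ∑ j, (β j : K) * (D (r j) / r j) := by
  classical
  have hz : ∀ (x : K) (z : ℤ), x ≠ 0 → D (x ^ z) / x ^ z = z * (D x / x) := by
    intro x z hx
    rw [D.leibniz_zpow]
    simp only [zsmul_eq_mul, smul_eq_mul]
    rw [zpow_sub_one₀ hx]
    have := zpow_ne_zero z hx
    field_simp
  have hp : ∀ S : Finset (Fin m), D (∏ j ∈ S, r j ^ β j) / ∏ j ∈ S, r j ^ β j =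
      ∑ j ∈ S, (β j : K) * (D (r j) / r j) := by
    intro S
    induction S using Finset.induction_on with
    | empty => simp
    | insert i S hi ih =>
      rw [Finset.prod_insert hi, Finset.sum_insert hi, ← ih, ← hz _ _ (hr i), D.leibniz]
      have h1 := zpow_ne_zero (β i) (hr i)
      have h2 : ∏ j ∈ S, r j ^ β j ≠ 0 :=
        Finset.prod_ne_zero_iff.2 fun j _ => zpow_ne_zero _ (hr j)
      simp only [smul_eq_mul]
      field_simp
      ring
  exact hp Finset.univ

theorem ord_chi (P : Place k K) {m : ℕ} {r : Fin m → K} (hr : ∀ j, r j ≠ 0)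
    (β : Fin m → ℤ) : P.ord (chi r β) = ∑ j, β j * P.ord (r j) := by
  unfold chi
  rw [ord_prod' P _ _ fun j _ => zpow_ne_zero _ (hr j)]
  exact Finset.sum_congr rfl fun j _ => P.ord_zpow _ _

/-- **Contractions, for generically finite maps.** The one-parameter group with weights `b ≥ 0`,
zero on `U`, preserves the equations and moves `y`. -/
def LineU (U : Set (Fin (n + 1))) (F : ι → MvPolynomial (Fin (n + 1)) k) (y : Fin (n + 1) → K) :
    Prop :=
  ∃ b : Fin (n + 1) → ℕ, (∀ j ∈ U, b j = 0) ∧ (∃ j, y j ≠ 0 ∧ b j = 0) ∧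
    (∃ j, y j ≠ 0 ∧ b j ≠ 0) ∧ ∀ e v, val y (wc (fun j => (b j : ℤ)) v (F e)) = 0

/-- **The logarithmic Kodaira dimension.** -/
theorem kod_nest (hF : ∀ i, IsForm (F i) ∧ NestedIn IsMono s N h (F i)) (hN2 : 2 ≤ N)
    (hN : bnd n s h ≤ N) {y : Fin (n + 1) → K} (hy : MapU U F K w y)
    (hno : ¬ LineU U F y) {i0 : Fin (n + 1)} (hi0 : y i0 ≠ 0) :
    ∃ (h' p : ℕ) (jj : Fin p → Fin (n + 1)) (b : Fin p → Fin (n + 1) → ℤ), h' + p = w ∧
      (∀ l, y (jj l) ≠ 0) ∧ (∀ l, b l (jj l) ≠ b l i0) ∧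
      (∀ l m, m ≠ l → b l (jj m) = b l i0) ∧
      (∀ (c : Fin p → ℤ) (e : ι) (v : ℤ),
        val y (wc (fun j => ∑ l, c l * b l j) v (F e)) = 0) ∧
      KodGe k K w (OffU U y) h' := by
  classical
  have hK : CharZero K := charZero_of_injective_algebraMap (algebraMap k K).injective
  have hrr := rr_ne (y := y) hi0
  have hr0 : rr y i0 i0 = 1 := by rw [rr_on hi0, div_self hi0]
  obtain ⟨r, φ, hrn, hspan⟩ := span_pick
    (fun γ : Gam (k := k) s N h y i0 => γ.1) (fun γ => γ.2.1)
  have hφ : ∀ i, ∃ A : CFam k K, GoodF N (2 * s) ((h + 1) * (2 * s * (2 * s))) A ∧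
    Sm N A (chi (rr y i0) (φ i).1) := fun i => (φ i).2.2
  choose A hA hsm using hφ
  let G : CFam k K := CFam.sigma A
  have hG0 : G.Ok (fun _ => False) N (2 * s) (∑ _i : Fin r, (h + 1) * (2 * s * (2 * s))) :=
    CFam.sigma_ok fun i => (hA i).1
  have hG : G.Ok (OffU U y) N (2 * s) (r * ((h + 1) * (2 * s * (2 * s)))) :=
    ⟨by simpa using hG0.card, hG0.sz, fun P _ => hG0.dich P fun h => h⟩
  let Su : Set K := {z | ∃ j, y j ≠ 0 ∧ z = y j / y i0}
  have hNz : (0 : ℤ) < N := by
    have : 0 < N := by omega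
    exact_mod_cast this
  have hunit : ∀ P : Place k K, ¬ OffU U y P → G.Const P → ∀ u ∈ Su, P.ord u = 0 := by
    rintro P hP hc _ ⟨i1, hi1, rfl⟩
    by_contra hne
    apply hno
    -- the weights
    have hper : ∀ γ ∈ Gam (k := k) s N h y i0, ∑ j, γ j * P.ord (rr y i0 j) = 0 := by
      intro γ hγ
      refine hspan (fun j => P.ord (rr y i0 j)) (fun i => ?_) ⟨γ, hγ⟩
      have h1 := (hsm i).1 P
      rw [cgap_const (CFam.sigma_const.1 hc i)] at h1
      have h2 : |P.ord (chi (rr y i0) (φ i).1)| ≤ 0 := by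
        by_contra hcon
        push Not at hcon
        have := mul_pos hNz hcon
        linarith
      rw [← ord_chi P hrr]
      exact abs_nonpos_iff.1 h2
    obtain ⟨j0, hj0, hmin⟩ := Finset.exists_min_image (Finset.univ.filter fun j => y j ≠ 0)
      (fun j => P.ord (y j)) ⟨i0, by simpa using hi0⟩
    have hj0' : y j0 ≠ 0 := (Finset.mem_filter.1 hj0).2
    have hmin' : ∀ j, y j ≠ 0 → P.ord (y j0) ≤ P.ord (y j) := fun j hj =>
      hmin j (Finset.mem_filter.2 ⟨Finset.mem_univ _, hj⟩)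
    let b : Fin (n + 1) → ℕ := fun j =>
      (P.ord (rr y i0 j) + (P.ord (y i0) - P.ord (y j0))).toNat
    have hb : ∀ j, (b j : ℤ) = P.ord (rr y i0 j) + (P.ord (y i0) - P.ord (y j0)) := by
      intro j
      refine Int.toNat_of_nonneg ?_
      by_cases hj : y j = 0
      · rw [rr_off hj, P.ord_one]
        have := hmin' i0 hi0
        omega
      · rw [rr_on hj, P.ord_div hj hi0]
        have := hmin' j hj
        omega
    have hb' : ∀ j, y j ≠ 0 → (b j : ℤ) = P.ord (y j) - P.ord (y j0) := by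
      intro j hj
      rw [hb, rr_on hj, P.ord_div hj hi0]
      ring
    refine ⟨b, fun j hj => ?_, ⟨j0, hj0', ?_⟩, ?_, fun e v => ?_⟩
    · have h1 : P.ord (y j) ≤ P.ord (y j0) := by
        unfold OffU at hP
        push Not at hP
        exact hP j hj j0 hj0'
      have h2 := hb' j (hy.unit j hj)
      have h3 := hmin' j (hy.unit j hj)
      omega
    · have h2 := hb' j0 hj0'
      omega
    · by_contra hcon
      push Not at hcon
      apply hne
      have h1 := hb' i1 hi1
      have h2 := hb' i0 hi0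
      rw [hcon i1 hi1] at h1
      rw [hcon i0 hi0] at h2
      rw [P.ord_div hi1 hi0]
      push_cast at h1 h2
      omega
    · refine wc_of_gam hF hN2 hi0 hy.mem (fun γ hγ => ?_) e v
      have h1 : ∀ j, γ j * (b j : ℤ) = γ j * P.ord (rr y i0 j) +
          γ j * (P.ord (y i0) - P.ord (y j0)) := fun j => by rw [hb]; ring
      rw [Finset.sum_congr rfl fun j _ => h1 j, Finset.sum_add_distrib, hper γ hγ,
        ← Finset.sum_mul, hγ.1, zero_mul, add_zero]
  obtain ⟨h', p, t, u, hhp, hbasis, huS, hkill, hkod⟩ := kod_one hy.dim G hG (by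
      refine le_trans ?_ hN
      unfold bnd
      refine Nat.succ_le_succ ?_
      calc r * ((h + 1) * (2 * s * (2 * s))) * ((2 * s + 1) * tn (2 * s - 1)) ≤
          n * ((h + 1) * (2 * s * (2 * s))) * ((2 * s + 1) * tn (2 * s - 1)) :=
            Nat.mul_le_mul_right _ (Nat.mul_le_mul_right _ hrn)
        _ = n * ((h + 1) * (2 * s * (2 * s)) * ((2 * s + 1) * tn (2 * s - 1))) := by ring)
    Su (by
      rintro _ ⟨j, hj, rfl⟩
      exact div_ne_zero hj hi0) hunit (by
      intro D _ hD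
      have h1 : coords k y ≤ consts D := by
        unfold coords
        rw [IntermediateField.adjoin_le_iff]
        rintro _ ⟨i, j, hj, rfl⟩
        have h2 : ∀ l, y l ≠ 0 → y l / y i0 ∈ consts D := fun l hl => hD _ ⟨l, hl, rfl⟩
        by_cases hi : y i = 0
        · rw [hi, zero_div]
          exact zero_mem _
        · have h3 := div_mem (h2 i hi) (h2 j hj)
          have h4 : y i / y i0 / (y j / y i0) = y i / y j := by field_simp
          rwa [h4] at h3
      have h2 : Algebra.IsAlgebraic (consts D) K := alg_mono h1 hy.alg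
      ext z
      exact der_of_alg D (h2.isAlgebraic z))
  choose jj hjj hujj using huS
  have hu0 : ∀ l, u l ≠ 0 := fun l => by
    rw [hujj]
    exact div_ne_zero (hjj l) hi0
  -- the torus
  have hweights : ∀ q : Fin p, ∃ b : Fin (n + 1) → ℤ, b (jj q) ≠ b i0 ∧
      (∀ l, l ≠ q → b (jj l) = b i0) ∧
      ∀ γ ∈ Gam (k := k) s N h y i0, ∑ l, γ l * b l = 0 := by
    intro q
    obtain ⟨D, hD⟩ := exists_der (Sum.elim t u) hbasis
      (Sum.elim (fun _ => 0) (fun l => if l = q then u l else 0))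
    have hDt : ∀ i, D (t i) = 0 := fun i => hD (Sum.inl i)
    have hDu : ∀ l, D (u l) = if l = q then u l else 0 := fun l => hD (Sum.inr l)
    have hrj : ∀ l, rr y i0 (jj l) = u l := fun l => by rw [rr_on (hjj l), hujj]
    have hlam : ∀ l, D (rr y i0 (jj l)) / rr y i0 (jj l) = if l = q then 1 else 0 := by
      intro l
      rw [hrj, hDu]
      split_ifs with h1
      · rw [div_self (hu0 l)]
      · rw [zero_div]
    have hlam0 : D (rr y i0 i0) / rr y i0 i0 = 0 := by
      rw [hr0, D.map_one_eq_zero, zero_div]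
    obtain ⟨b, hb1, hb2⟩ := int_weights (fun j => D (rr y i0 j) / rr y i0 j) (i := jj q)
      (i' := i0) (by
      simp only [hlam0, hlam q, if_true]
      exact one_ne_zero)
    refine ⟨b, hb1, fun l hl => ?_, fun γ hγ => ?_⟩
    · have h1 := hb2 (fun j => (if j = jj l then 1 else 0) - (if j = i0 then 1 else 0)) (by
        have h2 := hlam l
        rw [if_neg hl] at h2
        simp only [Int.cast_sub, Int.cast_ite, Int.cast_one, Int.cast_zero, sub_mul, ite_mul,
          one_mul, zero_mul, Finset.sum_sub_distrib, Finset.sum_ite_eq', Finset.mem_univ, if_true]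
        rw [h2, hlam0, sub_self])
      simp only [sub_mul, ite_mul, one_mul, zero_mul, Finset.sum_sub_distrib, Finset.sum_ite_eq',
        Finset.mem_univ, if_true] at h1
      exact sub_eq_zero.1 h1
    · refine hspan b (fun i => ?_) ⟨γ, hγ⟩
      refine hb2 _ ?_
      rw [← der_chi D hrr]
      have h1 : chi (rr y i0) (φ i).1 ∈ consts D := (hsm i).2 (consts D)
        (fun z d hd h => Pool.Agent.W603.GY.consts_root D z d hd h) (fun i' a b => hkill D hDt ⟨i, i'⟩ a b)
      have h2 : D (chi (rr y i0) (φ i).1) = 0 := h1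
      rw [h2, zero_div]
  choose b hb1 hb2 hb3 using hweights
  refine ⟨h', p, jj, b, hhp, hjj, hb1, fun l m hm => hb2 l m hm,
    fun c e v => wc_of_gam hF hN2 hi0 hy.mem (fun γ hγ => ?_) e v, hkod⟩
  have h1 : ∀ j, γ j * ∑ l, c l * b l j = ∑ l, c l * (γ j * b l j) := fun j => by
    rw [Finset.mul_sum]
    exact Finset.sum_congr rfl fun l _ => by ring
  rw [Finset.sum_congr rfl fun j _ => h1 j, Finset.sum_comm]
  refine Finset.sum_eq_zero fun l _ => ?_
  rw [← Finset.mul_sum, hb3 l γ hγ, mul_zero]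

theorem kod_bd {Bd Bd' : Place k K → Prop} {w h : ℕ} (h1 : ∀ P, Bd P → Bd' P)
    (h2 : KodGe k K w Bd h) : KodGe k K w Bd' h := by
  obtain ⟨N, hN, ω, hω, h3⟩ := h2
  exact ⟨N, hN, ω, fun j => ⟨(hω j).1, (hω j).2.1, fun P hP hB =>
    (hω j).2.2 P hP fun h4 => hB (h1 P h4)⟩, h3⟩

end Pool.Agent.X333.DN
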