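import Pool.Agent.X333.DN.Gate
import Pool.Agent.TH710.ND.Kod
import Pool.Agent.W602.GT.KMain

/-!
Sections of the log canonical bundle from one family of circuits, and functions which are units
at the places where the orders of the circuits are constant.
-/

set_option autoImplicit false
set_option linter.unusedSectionVars false

open FF IntermediateField Pool.Agent.W603.LV Pool.Agent.W602.GT Pool.Agent.W603.GX
  Pool.Agent.W603.GY Pool.Agent.TH710.ND

namespace Pool.Agent.X333.DN

variable {k K : Type} [Field k] [Field K] [Algebra k K]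

/-- **Sections.** -/
theorem kod_one [IsAlgClosed k] [CharZero k] {w : ℕ} (htr : Algebra.trdeg k K = w)
    (F : CFam k K) {Bd : Place k K → Prop} {N s c : ℕ} (hF : F.Ok Bd N s c)
    (hN : c * ((s + 1) * tn (s - 1)) + 1 ≤ N)
    (Su : Set K) (hSu : ∀ u ∈ Su, u ≠ 0)
    (hunit : ∀ P : Place k K, ¬ Bd P → F.Const P → ∀ u ∈ Su, P.ord u = 0)
    (hker : ∀ D : Derivation k K K, (∀ i a b, D (F.T i a / F.T i b) = 0) →
      (∀ u ∈ Su, D u = 0) → D = 0) :
    ∃ (h p : ℕ) (t : Fin h → K) (u : Fin p → K), h + p = w ∧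
      IsTranscendenceBasis k (Sum.elim t u) ∧ (∀ i, u i ∈ Su) ∧
      (∀ D : Derivation k K K, (∀ i, D (t i) = 0) → ∀ i a b, D (F.T i a / F.T i b) = 0) ∧
      KodGe k K w Bd h := by
  classical
  let S1 : Set K := {x | ∃ i a, x = F.T i a / F.T i 0}
  have hS1 : ∀ D : Derivation k K K, (∀ z ∈ S1, D z = 0) →
      ∀ i a b, D (F.T i a / F.T i b) = 0 := by
    intro D hD i a b
    have h1 : F.T i a / F.T i b = (F.T i a / F.T i 0) / (F.T i b / F.T i 0) := by
      have := F.ne i 0
      have := F.ne i b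
      field_simp
    have h2 : F.T i a / F.T i 0 ∈ consts D := hD _ ⟨i, a, rfl⟩
    have h3 : F.T i b / F.T i 0 ∈ consts D := hD _ ⟨i, b, rfl⟩
    have h4 : F.T i a / F.T i b ∈ consts D := by
      rw [h1]
      exact div_mem h2 h3
    exact h4
  obtain ⟨h, p, t, u, rfl, ht, hu, hbasis, hkill⟩ := basis_pick htr S1 (S1 ∪ Su)
    (alg_of_ker htr _ fun D hD => hker D (hS1 D fun z hz => hD z (Or.inl hz))
      fun z hz => hD z (Or.inr hz))
  have huS : ∀ l, u l ∈ Su := by
    intro l
    rcases hu l with h1 | h1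
    · exfalso
      obtain ⟨D, hD⟩ := exists_der (Sum.elim t u) hbasis (Sum.elim (fun _ => 0) (fun _ => 1))
      have h2 := hkill D (fun i => hD (Sum.inl i)) _ h1
      have h3 := hD (Sum.inr l)
      simp only [Sum.elim_inr] at h3
      rw [h2] at h3
      exact zero_ne_one h3
    · exact h1
  choose i a hab using ht
  let _ : Fintype F.I := F.fin
  let y0 : F.I → K := fun x => F.T x 0
  let y1 : Fin h → F.I → K := fun q => Function.update y0 (i q) (F.T (i q) (a q))
  have hy0 : ∀ x, ∃ j, y0 x = F.T x j := fun x => ⟨0, rfl⟩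
  have hy1 : ∀ q x, ∃ j, y1 q x = F.T x j := by
    intro q x
    by_cases hx : x = i q
    · subst hx
      exact ⟨a q, by simp only [y1, Function.update_self]⟩
    · exact ⟨0, by simp only [y1, y0]; rw [Function.update_of_ne hx]⟩
  have hwt : wtI F.m + 1 ≤ N := by
    refine le_trans (Nat.succ_le_succ ?_) hN
    unfold wtI
    calc ∑ x, (F.m x + 2) * tn (F.m x) ≤ ∑ _x : F.I, (s + 1) * tn (s - 1) := by
          refine Finset.sum_le_sum fun x _ => ?_
          have h3 := hF.sz x
          exact Nat.mul_le_mul (by omega) (tn_mono (by omega))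
      _ = Fintype.card F.I * ((s + 1) * tn (s - 1)) := by simp
      _ ≤ c * ((s + 1) * tn (s - 1)) := Nat.mul_le_mul_right _ hF.card
  let x : Fin (h + p) → K := Sum.elim t u ∘ finSumFinEquiv.symm
  have hx : IsTranscendenceBasis k x := hbasis.comp_equiv finSumFinEquiv.symm
  have hx0 : ∀ q, x q ≠ 0 := by
    intro q
    simp only [x, Function.comp_apply]
    rcases finSumFinEquiv.symm q with l | l
    · simp only [Sum.elim_inl]
      rw [hab]
      exact div_ne_zero (F.ne _ _) (F.ne _ _)
    · exact hSu _ (huS l)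
  have hunitx : ∀ P : Place k K, ¬ Bd P → F.Const P → ∀ q, P.ord (x q) = 0 := by
    intro P hPU hall q
    simp only [x, Function.comp_apply]
    rcases finSumFinEquiv.symm q with l | l
    · simp only [Sum.elim_inl]
      rw [hab, P.ord_div (F.ne _ _) (F.ne _ _), hall (i l) (a l) 0, sub_self]
    · exact hunit P hPU hall _ (huS l)
  have hpr0 : ∏ z, y0 z ≠ 0 := Finset.prod_ne_zero_iff.2 fun z _ => F.ne z 0
  have hprod : ∀ q : Fin h, (∏ z, y1 q z) = (∏ z, y0 z) * t q := by
    intro q
    have hz : y1 q (i q) = F.T (i q) (a q) := by simp [y1]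
    have h5 := F.ne (i q) 0
    have e1 := Finset.mul_prod_erase (Finset.univ : Finset F.I) (y1 q) (Finset.mem_univ (i q))
    have e2 := Finset.mul_prod_erase (Finset.univ : Finset F.I) y0 (Finset.mem_univ (i q))
    have h4 : ∏ z ∈ (Finset.univ : Finset F.I).erase (i q), y1 q z =
        ∏ z ∈ (Finset.univ : Finset F.I).erase (i q), y0 z := by
      refine Finset.prod_congr rfl fun z hz => ?_
      have hne := Finset.ne_of_mem_erase hz
      simp only [y1]
      rw [Function.update_of_ne hne]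
    rw [← e1, ← e2, hz, hab q, h4]
    change _ = F.T (i q) 0 * _ * _
    field_simp
  obtain ⟨D, hD⟩ := exists_dual hx
  have hf : ∀ N c, form x N c D = c := fun N c => by
    unfold form
    rw [hD, Matrix.det_one, one_pow, mul_one]
  obtain ⟨Gf, hG0, hGc, hP⟩ := coreU F.T F.ne F.sum F.lin x hx0 hx
  have hdich : ∀ P : Place k K, ¬ Bd P → F.Const P ∨
      ∃ i j l, ((wtI F.m + 1 : ℕ) : ℤ) ≤ |P.ord (F.T i j) - P.ord (F.T i l)| := by
    intro P hP
    rcases hF.dich P hP with h1 | ⟨i, j, l, h1⟩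
    · exact Or.inl h1
    · exact Or.inr ⟨i, j, l, le_trans (by exact_mod_cast hwt) h1⟩
  -- the sections
  have hsect : ∀ v : F.I → K, (∀ i, ∃ j, v i = F.T i j) →
        LogSec k K (h + p) (wtI F.m + 1) Bd (form x (wtI F.m + 1) (1 * Gf v)) := by
    intro v hv
    refine ⟨form_pluri _ _ _, fun P _ => (hP x 1 hx0 (fun D => by rw [one_mul]) P v hv).1,
      fun P _ hPU => (hP x 1 hx0 (fun D => by rw [one_mul]) P v hv).2 ?_⟩
    rcases hdich P hPU with h4 | h4
    · exact Or.inl ⟨h4, hunitx P hPU h4, hunitx P hPU h4⟩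
    · exact Or.inr h4
  let Γ : Fin (h + 1) → F.I → K := Fin.cases y0 y1
  have hΓ : ∀ j i, ∃ l, Γ j i = F.T i l := by
    intro j
    refine Fin.cases hy0 (fun q => hy1 q) j
  refine ⟨h, p, t, u, rfl, hbasis, huS, fun D hD => hS1 D (hkill D hD), wtI F.m + 1,
    Nat.succ_pos _, fun j => form x (wtI F.m + 1) (1 * Gf (Γ j)), fun j => hsect _ (hΓ j), D, ?_,
    ?_⟩
  · change form x (wtI F.m + 1) (1 * Gf y0) D ≠ 0
    rw [hf, one_mul]
    exact hG0 _ hy0
  · have h1 : ∀ q : Fin h, 1 * Gf (Γ q.succ) / (1 * Gf (Γ 0)) = t q := by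
      intro q
      change 1 * Gf (y1 q) / (1 * Gf y0) = t q
      have h2 := hGc (y1 q) y0
      rw [hprod q] at h2
      rw [one_mul, one_mul, div_eq_iff (hG0 y0 hy0)]
      apply mul_right_cancel₀ hpr0
      rw [h2]
      ring
    simp only [hf, h1]
    exact hbasis.1.comp Sum.inl Sum.inl_injective

end Pool.Agent.X333.DN
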