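import Pool.Agent.X333.DN.Bor

/-!
Linear and diagonal motions of the points of the varieties given by nested sums of high powers.
-/

set_option autoImplicit false
set_option linter.unusedSectionVars false
set_option linter.overlappingInstances false

open FF MvPolynomial IntermediateField Pool.Agent.W603.LV Pool.Agent.W603.PV Pool.Agent.W603.GR
  Pool.Agent.W602.GT Pool.Agent.W603.GW Pool.Agent.W603.GX Pool.Agent.W603.GY
  Pool.Agent.TH710.ND

namespace Pool.Agent.X333.DN

open Pool.Agent.Y221.BD (WtMv)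

variable {k : Type} [Field k] {n : ℕ} {ι : Type} {F : ι → MvPolynomial (Fin (n + 1)) k}
  {K : Type} [Field K] [Algebra k K] {y : Fin (n + 1) → K} {D : Derivation k K K}

/-- a point which moves in a line -/
def LnMv (F : ι → MvPolynomial (Fin (n + 1)) k) (y : Fin (n + 1) → K) : Prop :=
  ∃ v : Fin (n + 1) → K, (∃ i j, y i * v j - y j * v i ≠ 0) ∧
    ∀ (c c' : K) i, val (fun l => c * y l + c' * v l) (F i) = 0

/-- **Lines.** -/
theorem line_of_env (hm : ∃ i j, y i * D (y j) - y j * D (y i) ≠ 0)
    (hD : ∀ x : Fin (n + 1) → K, Env (consts D) IsLin y x → ∀ i, aeval x (F i) = 0) :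
    LnMv F y := by
  refine ⟨fun i => D (y i), hm, fun c c' i => hD _ ⟨?_, ?_⟩ i⟩
  · rintro p ⟨a, rfl⟩ h
    rw [aeval_lin] at h ⊢
    rw [lin_add_smul, lin_der, h, map_zero, mul_zero, mul_zero, add_zero]
  · rintro p q ⟨a, rfl⟩ ⟨b, rfl⟩ hp hq hW
    rw [aeval_lin] at hp hq
    rw [aeval_lin, aeval_lin] at hW
    rw [aeval_lin, aeval_lin, aeval_lin, aeval_lin, lin_add_smul, lin_add_smul, lin_der, lin_der]
    have h1 : D (lin a y / lin b y) = 0 := hW
    rw [D.leibniz_div] at h1
    rw [smul_eq_zero, or_iff_right (pow_ne_zero 2 (inv_ne_zero hq))] at h1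
    simp only [smul_eq_mul] at h1
    change (c * lin a y + c' * D (lin a y)) * lin b y = lin a y * (c * lin b y + c' * D (lin b y))
    linear_combination c' * h1

variable [CharZero k]

/-- **Tori.** -/
theorem torus_of_env (hm : ∃ i j, y i * D (y j) - y j * D (y i) ≠ 0)
    (hD : ∀ x : Fin (n + 1) → K, Env (consts D) IsMono y x → ∀ i, aeval x (F i) = 0) :
    WtMv F y := by
  have hK : CharZero K := charZero_of_injective_algebraMap (algebraMap k K).injective
  have hinf : Infinite K := inferInstance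
  obtain ⟨i, i', hii⟩ := hm
  have hyi : y i ≠ 0 := by
    intro h0
    apply hii
    rw [h0, map_zero]
    ring
  have hyi' : y i' ≠ 0 := by
    intro h0
    apply hii
    rw [h0, map_zero]
    ring
  have hlam : D (y i) / y i ≠ D (y i') / y i' := by
    intro h0
    apply hii
    field_simp at h0
    linear_combination -h0
  obtain ⟨b, hb, hb2⟩ := int_weights (fun j => D (y j) / y j) hlam
  refine ⟨b, i, i', hyi, hyi', hb, fun e v => ?_⟩
  obtain ⟨M, R, hR1, -, hR3⟩ := orbit_poly (k := k) y b (F e)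
  refine hR3 (poly_zero fun t ht => ?_) v
  rw [hR1 t ht]
  have h1 : val (fun j => t ^ b j * y j) (F e) = 0 := by
    refine hD _ ⟨?_, ?_⟩ e
    · rintro p ⟨α, a, rfl⟩ h
      rw [aeval_mono] at h ⊢
      rw [torus_mono y b ht, mul_left_comm, h, mul_zero]
    · rintro p q ⟨α, a, rfl⟩ ⟨β, c, rfl⟩ hp hq hW
      rw [aeval_mono] at hp hq
      rw [aeval_mono, aeval_mono] at hW
      have h2 : D (algebraMap k K a * ∏ j, y j ^ α j) * (algebraMap k K c * ∏ j, y j ^ β j) =
          (algebraMap k K a * ∏ j, y j ^ α j) * D (algebraMap k K c * ∏ j, y j ^ β j) := by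
        have h1 : D ((algebraMap k K a * ∏ j, y j ^ α j) /
          (algebraMap k K c * ∏ j, y j ^ β j)) = 0 := hW
        rw [D.leibniz_div] at h1
        rw [smul_eq_zero, or_iff_right (pow_ne_zero 2 (inv_ne_zero hq))] at h1
        simp only [smul_eq_mul] at h1
        linear_combination h1
      rw [der_mon D hp, der_mon D hq] at h2
      have h4 : ∑ j, (α j : K) * (D (y j) / y j) = ∑ j, (β j : K) * (D (y j) / y j) := by
        apply mul_left_cancel₀ (mul_ne_zero hp hq)
        linear_combination h2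
      have h5 := hb2 (fun j => (α j : ℤ) - (β j : ℤ)) (by
        push_cast
        simp only [sub_mul, Finset.sum_sub_distrib]
        rw [h4, sub_self])
      simp only [sub_mul, Finset.sum_sub_distrib] at h5
      rw [aeval_mono, aeval_mono, aeval_mono, aeval_mono, torus_mono y b ht, torus_mono y b ht,
        sub_eq_zero.1 h5]
      change algebraMap k K a * (t ^ (∑ j, (β j : ℤ) * b j) * ∏ j, y j ^ α j) *
        (algebraMap k K c * ∏ j, y j ^ β j) = algebraMap k K a * (∏ j, y j ^ α j) *
        (algebraMap k K c * (t ^ (∑ j, (β j : ℤ) * b j) * ∏ j, y j ^ β j))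
      ring
  rw [h1, mul_zero]

omit [CharZero k] in
theorem Env.mono' {σ M : Type} [CommRing M] [Algebra k M] [Algebra K M]
    {W W' : IntermediateField k K} (h : W ≤ W') {Lf : MvPolynomial σ k → Prop} {y : σ → K}
    {x : σ → M} (hE : Env W' Lf y x) : Env W Lf y x :=
  ⟨hE.z, fun p q hp hq h1 h2 h3 => hE.p p q hp hq h1 h2 (h h3)⟩

/-- **Points over fields with Borel's lemma.** -/
theorem mv_of_bor {s N h : ℕ} (hF : HighTowers s N h F) (hN : 1 ≤ N) {W : IntermediateField k K}
    (hB : BorW W (2 * s) N) (hyF : ∀ e, val y (F e) = 0) (hW : W ≤ consts D)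
    (hm : ∃ i j, y i * D (y j) - y j * D (y i) ≠ 0) : LnMv F y ∨ WtMv F y := by
  rcases hF with h' | h'
  · left
    refine line_of_env hm fun x hx i => ?_
    exact nested_w hB hN (Lf := IsLin) (h' i) (hyF i) (Env.mono' hW hx)
  · right
    refine torus_of_env hm fun x hx i => ?_
    exact nested_w hB hN (Lf := IsMono) (h' i).2 (hyF i) (Env.mono' hW hx)

end Pool.Agent.X333.DN
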