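import Pool.Agent.TH466.QG.Gen

/-!
Quotients of varieties with families of circuits whose orders jump: the local estimate.
-/

set_option autoImplicit false
set_option linter.overlappingInstances false
set_option linter.unusedSectionVars false

open FF IntermediateField Pool.Agent.W603.LV Pool.Agent.TH466.QG

namespace Pool.Agent.X333.DN

open Pool.Agent.W619.PQ (Inert exists_inertia)
open Pool.Agent.W602.GT (IsPluri DerReg DerLog eta eta_log eta_aux eta_smul tn con con_apply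
  con_log con_t lmat form form_pluri exists_lam const_of_der wr_ne ge_div ge_ord ord_prod'
  GeneralType exists_der der_ext)

variable {k M : Type} [Field k] [Field M] [Algebra k M] {Γ : Subgroup (M ≃ₐ[k] M)} {n : ℕ}

/-- the sum of the differences of the orders and the minimal order -/
noncomputable def gap {m : ℕ} (T : Fin (m + 1) → M) (w : Place k M) : ℤ :=
  ∑ j, (w.ord (T j) - mu T w)

theorem gap_nonneg {m : ℕ} (T : Fin (m + 1) → M) (w : Place k M) : 0 ≤ gap T w :=
  Finset.sum_nonneg fun j _ => by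
    have := mu_le T w j
    linarith

theorem gap_zero {m : ℕ} {T : Fin (m + 1) → M} {w : Place k M}
    (h : ∀ j, w.ord (T j) = mu T w) : gap T w = 0 := by
  unfold gap
  refine Finset.sum_eq_zero fun j _ => ?_
  rw [h, sub_self]

theorem le_gap {m : ℕ} (T : Fin (m + 1) → M) (w : Place k M) (j l : Fin (m + 1)) :
    |w.ord (T j) - w.ord (T l)| ≤ gap T w := by
  have h1 : ∀ j, w.ord (T j) - mu T w ≤ gap T w := fun j =>
    Finset.single_le_sum (f := fun j => w.ord (T j) - mu T w)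
      (fun i _ => by
        have := mu_le T w i
        linarith) (Finset.mem_univ j)
  have h2 := h1 j
  have h3 := h1 l
  have h4 := mu_le T w j
  have h5 := mu_le T w l
  rw [abs_le]
  constructor <;> linarith

/-- the factor of one circuit -/
noncomputable def fT {m : ℕ} (T : Fin (m + 1) → M) (E : Derivation k M M) (c : Fin (m + 1)) : M :=
  eta E T ^ (m + 2) * (∏ j, T j) * T c

theorem fT_smul {m : ℕ} (T : Fin (m + 1) → M) (δ : M) (D : Derivation k M M)
    (c : Fin (m + 1)) : fT T (δ • D) c = δ ^ ((m + 2) * tn m) * fT T D c := by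
  unfold fT
  rw [eta_smul, mul_pow, ← pow_mul, mul_comm (m + 2)]
  unfold tn
  ring

theorem ge_fT {m : ℕ} {T : Fin (m + 1) → M} (hT : ∀ j, T j ≠ 0) {w : Place k M}
    {E : Derivation k M M} (hη : Ge w (-mu T w) (eta E T)) (c : Fin (m + 1)) :
    Ge w (gap T w) (fT T E c) := by
  unfold fT
  have h1 := ((hη.pow (m + 2)).mul (ge_ord w (∏ j, T j))).mul
    (Or.inr (mu_le T w c) : Ge w (mu T w) (T c))
  refine h1.mono ?_
  rw [ord_prod' w _ _ fun j _ => hT j]
  unfold gap
  rw [Finset.sum_sub_distrib]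
  simp only [Finset.sum_const, Finset.card_univ, Fintype.card_fin, nsmul_eq_mul]
  push_cast
  apply le_of_eq
  ring

/-- the logarithmic case -/
theorem eta_of_log {m : ℕ} {T : Fin (m + 1) → M} (hT : ∀ j, T j ≠ 0) (hsum : ∑ j, T j = 0)
    {w : Place k M} {E : Derivation k M M} (hE : ∀ x : M, Ge w 0 (E x / x)) :
    Ge w (-mu T w) (eta E T) := by
  obtain ⟨j, hj⟩ := exists_mu T w
  have h1 := eta_log (P := w) (E := E) (ε := 0) (fun x _ => by simpa using hE x) hT hsum j
  rw [hj, zero_mul, sub_zero] at h1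
  exact h1

/-- the unramified case -/
theorem eta_of_fixed {m : ℕ} {T : Fin (m + 1) → M} (hT : ∀ j, T j ≠ 0) (hsum : ∑ j, T j = 0)
    {w : Place k M} {E : Derivation k M M} (S : Set M) (hS : ∀ x ∈ S, Ge w 0 x)
    (hE : ∀ x ∈ S, E x ∈ S) (hmem : ∀ j, T j / T 0 ∈ S)
    (hall : ∀ j, w.ord (T j) = mu T w) : Ge w (-mu T w) (eta E T) := by
  have h0 : (fun l => T ((0 : Fin (m + 1)).succAbove l)) =
      fun l => T 0 * (T ((0 : Fin (m + 1)).succAbove l) / T 0) := by
    funext l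
    have := hT 0
    field_simp
  have h1 : wr E (fun l => T ((0 : Fin (m + 1)).succAbove l)) = T 0 ^ m *
      wr E (fun l => T ((0 : Fin (m + 1)).succAbove l) / T 0) := by
    rw [h0]
    have h2 := wr_change E 1 (T 0) (fun l => T ((0 : Fin (m + 1)).succAbove l) / T 0)
    rw [one_smul] at h2
    rw [h2]
    simp
  have hiter : ∀ (r : ℕ) (x : M), x ∈ S → (⇑E)^[r] x ∈ S := by
    intro r
    induction r with
    | zero => intro x hx; simpa using hx
    | succ r ih =>
      intro x hx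
      rw [Function.iterate_succ_apply']
      exact hE _ (ih x hx)
  have h2 : Ge w 0 (wr E (fun l => T ((0 : Fin (m + 1)).succAbove l) / T 0)) :=
    ge_det w _ _ (fun i r => 0) (fun i r => hS _ (hiter r _ (hmem _))) (fun σ => by simp)
  have h3 : Ge w (m * w.ord (T 0)) (wr E (fun l => T ((0 : Fin (m + 1)).succAbove l))) := by
    rw [h1]
    have := ((ge_ord w (T 0)).pow m).mul h2
    simpa using this
  have h4 := eta_aux hT hsum 0 h3
  convert h4 using 1
  rw [Finset.sum_congr rfl fun j _ => hall j, hall 0]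
  simp
  ring

/-- the weight -/
def Wt {I : Type} [Fintype I] (m : I → ℕ) : ℕ := ∑ i, (m i + 2) * tn (m i)

/-- the conjugates of `z` -/
noncomputable def Psi (Y : Finset Γ) (z : M) : M := ∏ τ ∈ Y, (z - (τ : M ≃ₐ[k] M) z)

/-- the product of the factors -/
noncomputable def GQ {I : Type} [Fintype I] {m : I → ℕ} (T : ∀ i, Fin (m i + 1) → M)
    (Y : Finset Γ) (z : M) (E : Derivation k M M) (c : ∀ i, Fin (m i + 1)) : M :=
  (∏ i, fT (T i) E (c i)) * Psi Y z ^ (2 * Wt m)

theorem GQ_smul {I : Type} [Fintype I] {m : I → ℕ} (T : ∀ i, Fin (m i + 1) → M)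
    (Y : Finset Γ) (z : M) (δ : M) (D : Derivation k M M) (c : ∀ i, Fin (m i + 1)) :
    GQ T Y z (δ • D) c = δ ^ Wt m * GQ T Y z D c := by
  unfold GQ Wt
  simp only [fT_smul]
  rw [Finset.prod_mul_distrib, Finset.prod_pow_eq_pow_sum]
  ring

/-- the balancing term -/
noncomputable def BB (Y : Finset Γ) (ν : Place k M → ℤ) (w : Place k M) : ℤ :=
  ∑ τ ∈ Y, (ν w - ν (w.comp (τ : M ≃ₐ[k] M)))

theorem sum_BB [Finite Γ] (Y : Finset Γ) (ν : Place k M → ℤ) (w : Place k M) :
    ∑ᶠ g : Γ, BB Y ν (w.comp (g : M ≃ₐ[k] M)) = 0 := by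
  have hft : Fintype Γ := Fintype.ofFinite Γ
  rw [finsum_eq_sum_of_fintype]
  unfold BB
  rw [Finset.sum_comm]
  refine Finset.sum_eq_zero fun τ _ => ?_
  rw [Finset.sum_sub_distrib, sub_eq_zero]
  refine (Fintype.sum_equiv (Equiv.mulRight τ) _ _ fun g => ?_).symm
  rfl

theorem ge_Psi {w : Place k M} {ν : Place k M → ℤ} {z : M} {Y : Finset Γ} {G : Γ → ℤ}
    (h : ∀ τ ∈ Y, Ge w (-ν w - ν (w.comp (τ : M ≃ₐ[k] M)) + G τ) (z - (τ : M ≃ₐ[k] M) z)) :
    Ge w (-(2 * Y.card * ν w) + BB Y ν w + ∑ τ ∈ Y, G τ) (Psi Y z) := by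
  unfold Psi BB
  have h1 := Ge.prod (P := w) Y _ _ h
  convert h1 using 1
  simp only [Finset.sum_add_distrib, Finset.sum_sub_distrib, Finset.sum_const, nsmul_eq_mul,
    Finset.sum_neg_distrib]
  ring

theorem ge_factor {ν : Place k M → ℤ} {z : M} (hz : ∀ w, Ge w (-ν w) z)
    (h0 : ∀ w, 0 ≤ ν w) (w : Place k M) (τ : Γ) :
    Ge w (-ν w - ν (w.comp (τ : M ≃ₐ[k] M))) (z - (τ : M ≃ₐ[k] M) z) := by
  have h1 : Ge w (-ν (w.comp (τ : M ≃ₐ[k] M))) ((τ : M ≃ₐ[k] M) z) :=
    (ge_comp w τ _ _).1 (hz _)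
  refine ((hz w).mono ?_).sub (h1.mono ?_)
  · have := h0 (w.comp (τ : M ≃ₐ[k] M))
    linarith
  · have := h0 w
    linarith

/-- A family of circuits with jumps, and an element `z` whose poles are small compared to the
jumps. -/
structure NSys {I : Type} [Fintype I] {m : I → ℕ} (T : ∀ i, Fin (m i + 1) → M) (z : M)
    (Y : Finset Γ) (ν : Place k M → ℤ) (r : ℕ) (H : Subgroup Γ) : Prop where
  ne : ∀ i j, T i j ≠ 0
  sum : ∀ i, ∑ j, T i j = 0
  lin : ∀ i, LinearIndependent k (fun l => T i ((Fin.last (m i)).succAbove l))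
  gen : ∀ g : Γ, (g : M ≃ₐ[k] M) z = z → ∀ i a b,
    (g : M ≃ₐ[k] M) (T i a / T i b) = T i a / T i b
  hr : H.index ≤ r
  Yc : Y.card + 1 ≤ r
  hY : ∀ g : Γ, (g : M ≃ₐ[k] M) z ≠ z → ∃ τ ∈ Y, (τ : M ≃ₐ[k] M) z = (g : M ≃ₐ[k] M) z
  Ym : ∀ τ ∈ Y, (τ : M ≃ₐ[k] M) z ≠ z
  ν0 : ∀ w, 0 ≤ ν w
  νz : ∀ w, Ge w (-ν w) z
  νg : ∀ w, (8 * (r * Wt m) : ℕ) * ν w ≤ ∑ i, gap (T i) w
  jump : ∀ (w : Place k M) (J : Subgroup Γ), (∀ g ∈ J, Inert w (g : M ≃ₐ[k] M)) →
    (∃ i j, w.ord (T i j) ≠ mu (T i) w) →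
    (2 * (r * Wt m) : ℕ) * (Nat.card (J ⊓ H : Subgroup Γ) : ℤ) ≤ ∑ i, gap (T i) w
  hW : 0 < Wt m

variable {I : Type} [Fintype I] {m : I → ℕ} {T : ∀ i, Fin (m i + 1) → M} {z : M}
  {Y : Finset Γ} {ν : Place k M → ℤ} {r : ℕ} {H : Subgroup Γ}

/-- the estimate for the product -/
theorem ge_GQ (hS : NSys T z Y ν r H) {w : Place k M} {E : Derivation k M M}
    (hη : ∀ i, Ge w (-mu (T i) w) (eta E (T i))) {G : ℤ}
    (hΨ : Ge w (-(2 * Y.card * ν w) + BB Y ν w + G) (Psi Y z)) (c : ∀ i, Fin (m i + 1)) :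
    Ge w (∑ i, gap (T i) w + (2 * Wt m : ℕ) * (-(2 * Y.card * ν w) + BB Y ν w + G))
      (GQ T Y z E c) := by
  unfold GQ
  exact (Ge.prod (P := w) Finset.univ _ _ fun i _ => ge_fT (hS.ne i) (hη i) (c i)).mul
    (hΨ.pow _)

section main

variable [CharZero k] [IsAlgClosed k] [Finite Γ]

/-- **The local estimate.** -/
theorem local_est (hn : Algebra.trdeg k M = n) (hS : NSys T z Y ν r H)
    {q : Fin n → I} {a b : ∀ l, Fin (m (q l) + 1)} {t : Fin n → M} {lam : Fin n → k}
    (ht : ∀ l, t l = T (q l) (a l) / T (q l) (b l))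
    {ω : (∀ i, Fin (m i + 1)) → (Fin n → Derivation k M M) → M}
    (hω : ∀ c, IsPluri (Wt m) (ω c))
    (hωv : ∀ c D', ω c D' = GQ T Y z (con t lam D') c)
    {v : Place k (fixedField Γ)} {w : Place k M} {e : ℕ} {J : Subgroup Γ} (hwv : Over w v e)
    (hcard : Nat.card J = e) (hJ : ∀ g ∈ J, Inert w (g : M ≃ₐ[k] M))
    {D : Fin n → Derivation k (fixedField Γ) (fixedField Γ)} {D' : Fin n → Derivation k M M}
    (hDD : ∀ i, Ext (D i) (D' i)) (hD : ∀ i, DerReg v (D i)) (c : ∀ i, Fin (m i + 1)) :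
    Ge w ((2 * Wt m : ℕ) * BB Y ν w) (ω c D') := by
  classical
  have hT := hS.ne
  have hΨ0 : Ge w (-(2 * Y.card * ν w) + BB Y ν w + 0) (Psi Y z) := by
    have := ge_Psi (w := w) (ν := ν) (z := z) (Y := Y) (G := fun _ => 0) fun τ _ => by
      rw [add_zero]
      exact ge_factor hS.νz hS.ν0 w τ
    simpa using this
  have hW0 : (0 : ℤ) ≤ Wt m := by positivity
  have hgap0 : 0 ≤ ∑ i, gap (T i) w := Finset.sum_nonneg fun i _ => gap_nonneg (T i) w
  have hYr : (Y.card : ℤ) ≤ r := by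
    have := hS.Yc
    have h2 : Y.card ≤ r := by omega
    exact_mod_cast h2
  -- the logarithmic estimate, with a gain, is enough
  have hmain : ∀ G : ℤ, Ge w (-(2 * Y.card * ν w) + BB Y ν w + G) (Psi Y z) →
      ((Wt m : ℤ) * e ≤ ∑ i, gap (T i) w + (2 * Wt m : ℕ) * (-(2 * Y.card * ν w) + G)) →
      Ge w ((2 * Wt m : ℕ) * BB Y ν w) (ω c D') := by
    intro G hG hgain
    have h1 := pivot hwv (hω c)
      (b := ∑ i, gap (T i) w + (2 * Wt m : ℕ) * (-(2 * Y.card * ν w) + BB Y ν w + G))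
      (fun D1 D1' hE hlog => by
        rw [hωv]
        refine ge_GQ hS (fun i => ?_) hG c
        refine eta_of_log (hT i) (hS.sum i) fun x => ?_
        exact con_log t lam D1' (fun l => log_ext hwv (hE l) (hlog l)) x) hDD hD
    refine h1.mono ?_
    have h2 : ((2 * Wt m : ℕ) : ℤ) * (-(2 * Y.card * ν w) + BB Y ν w + G) =
        (2 * Wt m : ℕ) * (-(2 * Y.card * ν w) + G) + (2 * Wt m : ℕ) * BB Y ν w := by ring
    rw [h2]
    linarith
  by_cases hord : ∀ i j, w.ord (T i j) = mu (T i) w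
  · have hgz : ∑ i, gap (T i) w = 0 := Finset.sum_eq_zero fun i _ => gap_zero (hord i)
    have hν : ν w = 0 ∨ ν w = 0 := by
      left
      have h1 := hS.νg w
      rw [hgz] at h1
      have h2 := hS.ν0 w
      have h3 : 0 < 8 * (r * Wt m) := by
        have := hS.hW
        have h4 := hS.Yc
        have h5 : 0 < r := by omega
        positivity
      have h4 : (0 : ℤ) < (8 * (r * Wt m) : ℕ) := by exact_mod_cast h3
      by_contra hne
      have h5 : 0 < ν w := lt_of_le_of_ne h2 (Ne.symm hne)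
      have := mul_pos h4 h5
      linarith
    have hν0 : ν w = 0 := hν.elim id id
    by_cases hfix : ∀ i a b, ∀ g ∈ J, (g : M ≃ₐ[k] M) (T i a / T i b) = T i a / T i b
    · -- no loss
      have ht1 : ∀ l, ∀ g ∈ J, (g : M ≃ₐ[k] M) (t l) = t l := by
        intro l g hg
        rw [ht l]
        exact hfix _ _ _ g hg
      have ht0 : ∀ l, t l ≠ 0 := fun l => by
        rw [ht l]
        exact div_ne_zero (hT _ _) (hT _ _)
      have hq0 : ∀ i a b, w.ord (T i a / T i b) = 0 := fun i a b => by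
        rw [w.ord_div (hT _ _) (hT _ _), hord, hord, sub_self]
      have ht2 : ∀ l, w.ord (t l) = 0 := fun l => by
        rw [ht l]
        exact hq0 _ _ _
      have hη : ∀ i, Ge w (-mu (T i) w) (eta (con t lam D') (T i)) := by
        intro i
        refine eta_of_fixed (hT i) (hS.sum i)
          {x | (∀ g ∈ J, (g : M ≃ₐ[k] M) x = x) ∧ Ge w 0 x} (fun x hx => hx.2)
          (fun x hx => ?_) (fun j => ?_) (hord i)
        · exact con_fixed hn hwv hcard hJ hDD hD t lam ht1 ht0 ht2 hx.1 hx.2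
        · exact ⟨fun g hg => hfix i j 0 g hg, Or.inr (hq0 i j 0).ge⟩
      have h1 := ge_GQ hS hη hΨ0 c
      rw [hωv]
      refine h1.mono ?_
      rw [hν0, hgz]
      apply le_of_eq
      ring
    · -- some ratio is moved
      push Not at hfix
      obtain ⟨i0, a0, b0, g0, hg0, hj0⟩ := hfix
      let J' : Subgroup Γ :=
        { carrier := {g | g ∈ J ∧ (g : M ≃ₐ[k] M) z = z}
          mul_mem' := by
            rintro x y ⟨hx, hx'⟩ ⟨hy, hy'⟩
            refine ⟨J.mul_mem hx hy, ?_⟩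
            change (x : M ≃ₐ[k] M) ((y : M ≃ₐ[k] M) z) = z
            rw [hy', hx']
          one_mem' := ⟨J.one_mem, rfl⟩
          inv_mem' := by
            rintro x ⟨hx, hx'⟩
            refine ⟨J.inv_mem hx, ?_⟩
            conv_lhs => rw [← hx']
            change ((x⁻¹ * x : Γ) : M ≃ₐ[k] M) z = z
            rw [inv_mul_cancel]
            rfl }
      have hJ' : ∀ g, g ∈ J' ↔ g ∈ J ∧ (g : M ≃ₐ[k] M) z = z := fun g => Iff.rfl
      have hreg : w.Reg z := by
        have := hS.νz w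
        rw [hν0, neg_zero] at this
        exact this
      have hgn : ∀ τ ∈ Y, Ge w (-ν w - ν (w.comp (τ : M ≃ₐ[k] M)) +
          ((gn J J' z τ : ℕ) : ℤ)) (z - (τ : M ≃ₐ[k] M) z) := by
        intro τ _
        unfold gn
        split_ifs with h
        · obtain ⟨g, hg, hgz'⟩ := h
          have h1 := ge_gain hJ (fun g hg => ((hJ' g).1 hg).1) hreg
            (fun j hj => ((hJ' j).1 hj).2) hg
          rw [← hgz'] at h1
          refine h1.mono ?_
          have h2 := hS.ν0 (w.comp (τ : M ≃ₐ[k] M))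
          have h3 := hS.ν0 w
          linarith
        · simpa using ge_factor hS.νz hS.ν0 w τ
      refine hmain ((∑ τ ∈ Y, gn J J' z τ : ℕ) : ℤ) (by
        have := ge_Psi (w := w) (ν := ν) (z := z) (Y := Y)
          (G := fun τ => ((gn J J' z τ : ℕ) : ℤ)) hgn
        push_cast
        exact this) ?_
      have hmove : ∃ g ∈ J, (g : M ≃ₐ[k] M) z ≠ z :=
        ⟨g0, hg0, fun h => hj0 (hS.gen g0 h i0 a0 b0)⟩
      have h1 := count_two hJ' hS.hY hmove
      rw [hcard] at h1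
      have h2 : (e : ℤ) ≤ 2 * ((∑ τ ∈ Y, gn J J' z τ : ℕ) : ℤ) := by exact_mod_cast h1
      rw [hgz, hν0, mul_zero, neg_zero, zero_add, zero_add]
      have h5 := mul_le_mul_of_nonneg_left h2 hW0
      push_cast
      push_cast at h5
      linarith
  · -- the orders in some circuit are not equal
    push Not at hord
    have h1 := hS.jump w J hJ hord
    have h2 := hS.νg w
    refine hmain 0 hΨ0 ?_
    have hf : e ≤ r * Nat.card (J ⊓ H : Subgroup Γ) := by
      rw [← hcard]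
      exact card_le_index J H hS.hr
    have h3 : (Wt m : ℤ) * e ≤ Wt m * ((r * Nat.card (J ⊓ H : Subgroup Γ) : ℕ) : ℤ) :=
      mul_le_mul_of_nonneg_left (by exact_mod_cast hf) hW0
    have hν0 := hS.ν0 w
    have h4 : (Wt m : ℤ) * (Y.card * ν w) ≤ Wt m * (r * ν w) :=
      mul_le_mul_of_nonneg_left (mul_le_mul_of_nonneg_right hYr hν0) hW0
    push_cast at h1 h2 h3 ⊢
    nlinarith

end main

end Pool.Agent.X333.DN
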